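import Mathlib

set_option autoImplicit false

open Set Cardinal

namespace Pool.Agent.H205R3.Boards

/-- Every `K`-board Gale-Stewart game on sequences from `L` is determined (this is `D(|L|,|K|)`).
Player ONE makes the moves with even index, player TWO the moves with odd index; a move is a
function `K → L`; ONE wins a play `f` if for some board `α` the sequence `(f n α)_n` lies in `A`. -/
def BoardDet (L K : Type) : Prop :=
  ∀ A : Set (ℕ → L),
    (∃ σ : List (K → L) → (K → L), ∀ f : ℕ → K → L,
        (∀ n : ℕ, f (2 * n) = σ (List.ofFn (fun i : Fin (2 * n) => f i.val))) →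
        ∃ α : K, (fun n => f n α) ∈ A) ∨
    (∃ τ : List (K → L) → (K → L), ∀ f : ℕ → K → L,
        (∀ n : ℕ, f (2 * n + 1) = τ (List.ofFn (fun i : Fin (2 * n + 1) => f i.val))) →
        ∀ α : K, (fun n => f n α) ∉ A)

/-- `I` is a proper `|K|`-complete ideal of subsets of `K` containing all singletons, and `D` is a
σ-closed dense family of `I`-positive sets. -/
structure LaverIdeal (K : Type) (I D : Set (Set K)) : Prop where
  /-- the ideal is proper -/
  univ_notMem : (Set.univ : Set K) ∉ I
  /-- it is closed under subsets -/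
  subset_mem : ∀ s t : Set K, s ⊆ t → t ∈ I → s ∈ I
  /-- it contains the singletons -/
  singleton_mem : ∀ a : K, {a} ∈ I
  /-- it is closed under unions of fewer than `|K|` of its members -/
  complete : ∀ S : Set (Set K), S ⊆ I → #S < #K → ⋃₀ S ∈ I
  /-- the members of `D` are positive -/
  D_pos : ∀ d ∈ D, d ∉ I
  /-- every positive set contains a member of `D` -/
  D_dense : ∀ s : Set K, s ∉ I → ∃ d ∈ D, d ⊆ s
  /-- every decreasing `ω`-sequence in `D` has a lower bound in `D` -/
  D_closed : ∀ d : ℕ → Set K, (∀ n, d n ∈ D) → (∀ n, d (n + 1) ⊆ d n) →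
    ∃ e ∈ D, ∀ n, e ⊆ d n

section split

variable {K : Type} {I D : Set (Set K)} (h : LaverIdeal K I D)

include h

lemma iUnion_mem {M : Type} (hM : #M < #K) (F : M → Set K) (hF : ∀ m, F m ∈ I) :
    (⋃ m, F m) ∈ I := by
  rw [← Set.sUnion_range]
  refine h.complete _ ?_ ?_
  · rintro _ ⟨m, rfl⟩; exact hF m
  · exact lt_of_le_of_lt Cardinal.mk_range_le hM

lemma small_mem (s : Set K) (hs : #s < #K) : s ∈ I := by
  have : s = ⋃ x : s, {(x : K)} := by
    ext y; simp
  rw [this]
  exact iUnion_mem h hs _ (fun x => h.singleton_mem x)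

lemma union_mem (hK : ℵ₀ ≤ #K) (s t : Set K) (hs : s ∈ I) (ht : t ∈ I) : s ∪ t ∈ I := by
  have : s ∪ t = ⋃ b : Bool, (if b then s else t) := by
    ext y; simp [or_comm]
  rw [this]
  refine iUnion_mem h (lt_of_lt_of_le ?_ hK) _ ?_
  · exact Cardinal.mk_lt_aleph0
  · intro b; cases b <;> simp [hs, ht]

/-- Ulam's theorem: a positive set splits into `μ` positive sets, where `|K| = μ⁺`. -/
lemma exists_split (M : Type) (hMinf : ℵ₀ ≤ #M) (hK : #K = Order.succ #M) (S : Set K)
    (hS : S ∉ I) :
    ∃ P : M → Set K, (∀ m, P m ⊆ S) ∧ (∀ m, P m ∉ I) ∧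
      (∀ m m' x, x ∈ P m → x ∈ P m' → m = m') := by
  have hKinf : ℵ₀ ≤ #K := by rw [hK]; exact hMinf.trans (Order.le_succ _)
  obtain ⟨r, wo, hr⟩ := Cardinal.exists_ord_eq K
  have hini : ∀ b : K, #{a : K // r a b} ≤ #M := by
    intro b
    have h1 : #{a : K // r a b} < #K := by
      exact Cardinal.card_typein_lt (r := r) b hr
    rw [hK] at h1
    exact Order.lt_succ_iff.1 h1
  have hemb : ∀ b : K, Nonempty ({a : K // r a b} ↪ M) := by
    intro b
    exact Cardinal.le_def _ _ |>.1 (hini b)
  obtain ⟨emb⟩ : Nonempty (∀ b : K, {a : K // r a b} ↪ M) := ⟨fun b => (hemb b).some⟩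
  let A : K → M → Set K := fun a m => {b | ∃ hab : r a b, emb b ⟨a, hab⟩ = m}
  have hMK : #M < #K := by rw [hK]; exact Order.lt_succ _
  -- for each a some piece is positive
  have hpos : ∀ a : K, ∃ m : M, S ∩ A a m ∉ I := by
    intro a
    by_contra hcon
    push Not at hcon
    apply hS
    have hcov : S ⊆ (⋃ m, S ∩ A a m) ∪ {b | ¬ r a b} := by
      intro b hb
      by_cases hab : r a b
      · left
        simp only [Set.mem_iUnion]
        exact ⟨emb b ⟨a, hab⟩, hb, hab, rfl⟩
      · right; exact hab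
    refine h.subset_mem _ _ hcov (union_mem h hKinf _ _ ?_ ?_)
    · exact iUnion_mem h hMK _ hcon
    · refine small_mem h _ ?_
      have hsub : {b | ¬ r a b} ⊆ {b | r b a} ∪ {a} := by
        intro b hb
        rcases trichotomous_of r a b with h1 | h1 | h1
        · exact absurd h1 hb
        · right; exact h1.symm
        · left; exact h1
      have h2 : #({b | r b a} ∪ {a} : Set K) ≤ #M + 1 := by
        refine (Cardinal.mk_union_le _ _).trans ?_
        refine add_le_add (hini a) (by simp)
      have h3 : #M + 1 ≤ #M := by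
        rw [Cardinal.add_one_eq hMinf]
      exact lt_of_le_of_lt ((Cardinal.mk_le_mk_of_subset hsub).trans (h2.trans h3)) hMK
  choose g hg using hpos
  have hreg : #M < (#K).ord.cof := by
    have : (#K).IsRegular := by rw [hK]; exact Cardinal.isRegular_succ hMinf
    rw [this.cof_ord]
    exact hMK
  obtain ⟨m0, hm0⟩ := Cardinal.infinite_pigeonhole g hKinf hreg
  have hle : #M ≤ #(g ⁻¹' {m0}) := by rw [hm0]; exact hMK.le
  obtain ⟨ι⟩ := (Cardinal.le_def _ _).1 hle
  refine ⟨fun m => S ∩ A (ι m) m0, fun m => Set.inter_subset_left, ?_, ?_⟩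
  · intro m
    have : g (ι m : K) = m0 := (ι m).2
    have h1 := hg (ι m : K)
    rwa [this] at h1
  · rintro m m' x ⟨-, hx1, hx2⟩ ⟨-, hy1, hy2⟩
    have : (⟨(ι m : K), hx1⟩ : {a // r a x}) = ⟨(ι m' : K), hy1⟩ :=
      (emb x).injective (hx2.trans hy2.symm)
    have h2 : (ι m : K) = ι m' := by injection this
    exact ι.injective (Subtype.ext h2)

end split

section game

variable {L K : Type} {I D : Set (Set K)} (h : LaverIdeal K I D)
  (sp : Set K → L → Set K)
  (hsub : ∀ S, S ∉ I → ∀ l, sp S l ⊆ S) (hpos : ∀ S, S ∉ I → ∀ l, sp S l ∉ I)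
  (hdis : ∀ S, S ∉ I → ∀ l l' x, x ∈ sp S l → x ∈ sp S l' → l = l')

/-- The next node and its label: a set `d ∈ D` inside the `i`-th piece of `S`, on which the reply
`r` of player TWO is constant with value `j`. -/
lemma exists_next (hLK : #L < #K) (S : Set K) (hS : S ∉ I) (r : K → L) (i : L)
    (h : LaverIdeal K I D) (hpos : ∀ S, S ∉ I → ∀ l, sp S l ∉ I) :
    ∃ p : Set K × L, p.1 ∈ D ∧ p.1 ⊆ sp S i ∧ ∀ a ∈ p.1, r a = p.2 := by
  by_contra hcon
  push Not at hcon
  have h1 : ∀ j : L, sp S i ∩ r ⁻¹' {j} ∈ I := by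
    intro j
    by_contra hj
    obtain ⟨d, hd, hds⟩ := h.D_dense _ hj
    obtain ⟨a, ha, hne⟩ := hcon (d, j) hd (fun x hx => (hds hx).1)
    exact hne (hds ha).2
  apply hpos S hS i
  have h2 : sp S i = ⋃ j, sp S i ∩ r ⁻¹' {j} := by
    ext x; simp
  rw [h2]
  exact iUnion_mem h hLK _ h1

open Classical in
/-- choice of the next node -/
noncomputable def next (L K : Type) [Nonempty L] (D : Set (Set K)) (sp : Set K → L → Set K)
    (S : Set K) (r : K → L) (i : L) : Set K × L :=
  if hh : ∃ p : Set K × L, p.1 ∈ D ∧ p.1 ⊆ sp S i ∧ ∀ a ∈ p.1, r a = p.2 then hh.choose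
  else (∅, Classical.arbitrary L)

/-- The node reached after ONE's moves `s` (last move first), when the replies of TWO are
`r 0, r 1, …`. -/
noncomputable def node (L K : Type) [Nonempty L] (D : Set (Set K)) (sp : Set K → L → Set K)
    (d0 : Set K) (r : ℕ → K → L) : List L → Set K
  | [] => d0
  | i :: s => (next L K D sp (node L K D sp d0 r s) (r s.length) i).1

/-- The label of the node: TWO's answer on all boards of the node. -/
noncomputable def label (L K : Type) [Nonempty L] (D : Set (Set K)) (sp : Set K → L → Set K)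
    (d0 : Set K) (r : ℕ → K → L) : List L → L
  | [] => Classical.arbitrary L
  | i :: s => (next L K D sp (node L K D sp d0 r s) (r s.length) i).2

lemma node_congr [Nonempty L] (d0 : Set K) (r r' : ℕ → K → L) (s : List L)
    (hr : ∀ k < s.length, r k = r' k) :
    node L K D sp d0 r s = node L K D sp d0 r' s := by
  induction s with
  | nil => rfl
  | cons i s ih =>
    have h1 := ih (fun k hk => hr k (lt_trans hk (by simp)))
    simp only [node]
    rw [h1, hr s.length (by simp)]

open Classical in
/-- choose a pair with property `P` and return its second component -/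
noncomputable def pick (L : Type) [Nonempty L] (P : List L × L → Prop) : L :=
  if hh : ∃ p : List L × L, P p then hh.choose.2 else Classical.arbitrary L

/-- ONE's move after `n` rounds, on board `a`. -/
noncomputable def mv (L K : Type) [Nonempty L] (D : Set (Set K)) (sp : Set K → L → Set K)
    (d0 : Set K) (r : ℕ → K → L) (n : ℕ) (a : K) : L :=
  pick L (fun p => p.1.length = n ∧ a ∈ sp (node L K D sp d0 r p.1) p.2)

/-- `[g (2(n-1)), …, g 2, g 0]` -/
def rl (L : Type) (g : ℕ → L) : ℕ → List L
  | 0 => []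
  | n + 1 => g (2 * n) :: rl L g n

lemma rl_length (g : ℕ → L) (n : ℕ) : (rl L g n).length = n := by
  induction n with
  | zero => rfl
  | succ n ih => simp [rl, ih]

lemma rl_congr (g g' : ℕ → L) (n : ℕ) (hg : ∀ k < n, g (2 * k) = g' (2 * k)) :
    rl L g n = rl L g' n := by
  induction n with
  | zero => rfl
  | succ n ih =>
    simp only [rl]
    rw [hg n (by omega), ih (fun k hk => hg k (by omega))]

include h hsub hpos hdis

lemma next_spec [Nonempty L] (hLK : #L < #K) (S : Set K) (hS : S ∉ I) (r : K → L) (i : L) :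
    (next L K D sp S r i).1 ∈ D ∧ (next L K D sp S r i).1 ⊆ sp S i ∧
      ∀ a ∈ (next L K D sp S r i).1, r a = (next L K D sp S r i).2 := by
  have hh := exists_next sp hLK S hS r i h hpos
  unfold next
  rw [dif_pos hh]
  exact hh.choose_spec

lemma node_mem [Nonempty L] (hLK : #L < #K) (d0 : Set K) (hd0 : d0 ∈ D) (r : ℕ → K → L)
    (s : List L) : node L K D sp d0 r s ∈ D := by
  induction s with
  | nil => exact hd0
  | cons i s ih =>
    exact (next_spec h sp hsub hpos hdis hLK _ (h.D_pos _ ih) _ i).1

lemma node_unique [Nonempty L] (hLK : #L < #K) (d0 : Set K) (hd0 : d0 ∈ D) (r : ℕ → K → L)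
    (a : K) : ∀ (s s' : List L) (i i' : L), s.length = s'.length →
      a ∈ sp (node L K D sp d0 r s) i → a ∈ sp (node L K D sp d0 r s') i' → s = s' ∧ i = i' := by
  intro s
  induction s with
  | nil =>
    intro s' i i' hl h1 h2
    have : s' = [] := List.length_eq_zero_iff.1 hl.symm
    subst this
    exact ⟨rfl, hdis _ (h.D_pos _ (node_mem h sp hsub hpos hdis hLK d0 hd0 r [])) _ _ a h1 h2⟩
  | cons j t ih =>
    intro s' i i' hl h1 h2
    cases s' with
    | nil => simp at hl
    | cons j' t' =>
      have hD1 := node_mem h sp hsub hpos hdis hLK d0 hd0 r (j :: t)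
      have hD2 := node_mem h sp hsub hpos hdis hLK d0 hd0 r (j' :: t')
      have h1' := hsub _ (h.D_pos _ hD1) _ h1
      have h2' := hsub _ (h.D_pos _ hD2) _ h2
      have hn1 := (next_spec h sp hsub hpos hdis hLK _
        (h.D_pos _ (node_mem h sp hsub hpos hdis hLK d0 hd0 r t)) (r t.length) j).2.1 h1'
      have hn2 := (next_spec h sp hsub hpos hdis hLK _
        (h.D_pos _ (node_mem h sp hsub hpos hdis hLK d0 hd0 r t')) (r t'.length) j').2.1 h2'
      have hl' : t.length = t'.length := by simpa using hl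
      obtain ⟨e1, e2⟩ := ih t' j j' hl' hn1 hn2
      subst e1; subst e2
      exact ⟨rfl, hdis _ (h.D_pos _ hD1) _ _ a h1 h2⟩

lemma mv_spec [Nonempty L] (hLK : #L < #K) (d0 : Set K) (hd0 : d0 ∈ D) (r : ℕ → K → L)
    (a : K) (s : List L) (i : L) (ha : a ∈ sp (node L K D sp d0 r s) i) :
    mv L K D sp d0 r s.length a = i := by
  have hh : ∃ p : List L × L, p.1.length = s.length ∧ a ∈ sp (node L K D sp d0 r p.1) p.2 :=
    ⟨(s, i), rfl, ha⟩
  unfold mv pick
  rw [dif_pos hh]
  have := hh.choose_spec
  exact (node_unique h sp hsub hpos hdis hLK d0 hd0 r a _ _ _ _ this.1 this.2 ha).2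

omit hsub hpos hdis in
/-- if two reply sequences agree below `n`, ONE's move after `n` rounds is the same -/
lemma mv_congr [Nonempty L] (d0 : Set K) (r r' : ℕ → K → L) (n : ℕ)
    (hr : ∀ k < n, r k = r' k) (a : K) :
    mv L K D sp d0 r n a = mv L K D sp d0 r' n a := by
  have h1 : ∀ p : List L × L, (p.1.length = n ∧ a ∈ sp (node L K D sp d0 r p.1) p.2) ↔
      (p.1.length = n ∧ a ∈ sp (node L K D sp d0 r' p.1) p.2) := by
    intro p
    constructor
    · rintro ⟨h1, h2⟩
      refine ⟨h1, ?_⟩
      rwa [← node_congr sp d0 r r' p.1 (fun k hk => hr k (h1 ▸ hk))]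
    · rintro ⟨h1, h2⟩
      refine ⟨h1, ?_⟩
      rwa [node_congr sp d0 r r' p.1 (fun k hk => hr k (h1 ▸ hk))]
  unfold mv
  exact congrArg (pick L) (funext fun p => propext (h1 p))

theorem det_of_split [Nonempty L] (hLK : #L < #K) : BoardDet L K := by
  intro A
  obtain ⟨d0, hd0, -⟩ := h.D_dense _ h.univ_notMem
  by_cases hT : ∃ τ : List L → L, ∀ g : ℕ → L,
      (∀ n : ℕ, g (2 * n + 1) = τ (List.ofFn (fun i : Fin (2 * n + 1) => g i.val))) → g ∉ A
  · -- TWO plays the same strategy on every board
    right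
    obtain ⟨τ, hτ⟩ := hT
    refine ⟨fun l a => τ (l.map (fun m => m a)), ?_⟩
    intro f hf a
    apply hτ (fun n => f n a)
    intro n
    rw [hf n]
    simp only [List.map_ofFn]
    rfl
  · left
    let a0 : L := Classical.arbitrary L
    let σ : List (K → L) → (K → L) := fun l =>
      mv L K D sp d0 (fun k => l.getD (2 * k + 1) (fun _ => a0)) (l.length / 2)
    refine ⟨σ, ?_⟩
    intro f hf
    by_contra hcon
    push Not at hcon
    apply hT
    let r : ℕ → K → L := fun k => f (2 * k + 1)
    have hfe : ∀ n a, f (2 * n) a = mv L K D sp d0 r n a := by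
      intro n a
      rw [hf n]
      simp only [σ, List.length_ofFn]
      rw [Nat.mul_div_cancel_left n (by norm_num)]
      apply mv_congr h
      intro k hk
      have : 2 * k + 1 < 2 * n := by omega
      simp only [r]
      rw [List.getD_eq_getElem _ _ (by simpa using this)]
      simp
    refine ⟨fun l => label L K D sp d0 r (rl L (fun k => l.getD k a0) (l.length / 2 + 1)), ?_⟩
    intro g hg hgA
    have hg' : ∀ n, g (2 * n + 1) = label L K D sp d0 r (rl L g (n + 1)) := by
      intro n
      rw [hg n]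
      simp only [List.length_ofFn]
      have e : (2 * n + 1) / 2 = n := by omega
      rw [e]
      congr 1
      apply rl_congr
      intro k hk
      have : 2 * k < 2 * n + 1 := by omega
      rw [List.getD_eq_getElem _ _ (by simpa using this), List.getElem_ofFn]
    obtain ⟨e, he, hen⟩ := h.D_closed (fun n => node L K D sp d0 r (rl L g n))
      (fun n => node_mem h sp hsub hpos hdis hLK d0 hd0 r _)
      (fun n => by
        have hD := node_mem h sp hsub hpos hdis hLK d0 hd0 r (rl L g n)
        have h1 := (next_spec h sp hsub hpos hdis hLK _ (h.D_pos _ hD)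
          (r (rl L g n).length) (g (2 * n))).2.1
        exact h1.trans (hsub _ (h.D_pos _ hD) _))
    have hene : e.Nonempty := by
      by_contra hemp
      rw [Set.not_nonempty_iff_eq_empty] at hemp
      subst hemp
      apply h.D_pos _ he
      have hKne : Nonempty K := by
        by_contra hKe
        rw [not_nonempty_iff] at hKe
        have : (Set.univ : Set K) = ∅ := Set.eq_empty_of_isEmpty _
        have h2 := h.D_pos _ hd0
        have h3 : #K = 0 := Cardinal.mk_eq_zero_iff.2 hKe
        rw [h3] at hLK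
        exact absurd hLK (not_lt.2 (zero_le))
      obtain ⟨k⟩ := hKne
      exact h.subset_mem _ _ (Set.empty_subset _) (h.singleton_mem k)
    obtain ⟨a, ha⟩ := hene
    apply hcon a
    have hfin : (fun n => f n a) = g := by
      funext m
      rcases Nat.even_or_odd' m with ⟨n, hn | hn⟩
      · subst hn
        rw [hfe n a]
        have h1 := hen (n + 1) ha
        have hD := node_mem h sp hsub hpos hdis hLK d0 hd0 r (rl L g n)
        have h2 := (next_spec h sp hsub hpos hdis hLK _ (h.D_pos _ hD)
          (r (rl L g n).length) (g (2 * n))).2.1 h1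
        have h3 := mv_spec h sp hsub hpos hdis hLK d0 hd0 r a (rl L g n) (g (2 * n)) h2
        rwa [rl_length] at h3
      · subst hn
        rw [hg' n]
        have h1 := hen (n + 1) ha
        have hD := node_mem h sp hsub hpos hdis hLK d0 hd0 r (rl L g n)
        have h2 := (next_spec h sp hsub hpos hdis hLK _ (h.D_pos _ hD)
          (r (rl L g n).length) (g (2 * n))).2.2 a h1
        rw [rl_length] at h2
        simp only [rl, label, rl_length]
        exact h2
    rw [hfin]
    exact hgA

end game

/-- If `|K| = μ⁺` and `K` carries a Laver ideal, then all `|K|`-board games on sequences from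
any set `L` with `1 ≤ |L| < |K|` are determined. -/
theorem boardDet_of_laverIdeal (L M K : Type) (hM : ℵ₀ ≤ #M) (hK : #K = Order.succ #M)
    (hL : 1 ≤ #L) (hLK : #L < #K) (hI : ∃ I D : Set (Set K), LaverIdeal K I D) :
    BoardDet L K := by
  obtain ⟨I, D, h⟩ := hI
  have hLM : #L ≤ #M := by rw [hK] at hLK; exact Order.lt_succ_iff.1 hLK
  obtain ⟨ι⟩ := (Cardinal.le_def _ _).1 hLM
  have : Nonempty L := Cardinal.mk_ne_zero_iff.1 (by
    intro h0; rw [h0] at hL; exact absurd hL (not_le.2 zero_lt_one))
  have hsplit : ∀ S : Set K, S ∉ I → ∃ P : L → Set K, (∀ m, P m ⊆ S) ∧ (∀ m, P m ∉ I) ∧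
      (∀ m m' x, x ∈ P m → x ∈ P m' → m = m') := by
    intro S hS
    obtain ⟨P, h1, h2, h3⟩ := exists_split h M hM hK S hS
    exact ⟨fun l => P (ι l), fun l => h1 _, fun l => h2 _,
      fun l l' x hx hx' => ι.injective (h3 _ _ x hx hx')⟩
  classical
  let sp : Set K → L → Set K := fun S => if hS : S ∉ I then (hsplit S hS).choose else fun _ => ∅
  have hsp : ∀ S, S ∉ I → (∀ m, sp S m ⊆ S) ∧ (∀ m, sp S m ∉ I) ∧
      (∀ m m' x, x ∈ sp S m → x ∈ sp S m' → m = m') := by
    intro S hS
    simp only [sp, dif_pos hS]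
    exact (hsplit S hS).choose_spec
  exact det_of_split h sp (fun S hS => (hsp S hS).1) (fun S hS => (hsp S hS).2.1)
    (fun S hS => (hsp S hS).2.2) hLK

end Pool.Agent.H205R3.Boards
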