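import Mathlib

set_option autoImplicit false

namespace Pool.Agent.H205R3

/-- The graph `H` is a subdivision of the graph `Y`: it is obtained from `Y` by replacing the edges
of `Y` by paths whose internal vertices are new. In detail: there are an injective map `φ` from the
vertices of `Y` to the vertices of `H` and, for every edge `uv` of `Y`, a path `p u v` of `H` from
`φ u` to `φ v` (traversed backwards it is `p v u`), such that no vertex of `Y` is an internal vertex
of one of these paths, paths of different edges have no internal vertex in common, and every vertex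
of `H` which is not a vertex of `Y` and every edge of `H` is on one of these paths. -/
def IsSubdivision {V W : Type} (Y : SimpleGraph V) (H : SimpleGraph W) : Prop :=
  ∃ (φ : V → W) (p : ∀ u v : V, Y.Adj u v → H.Walk (φ u) (φ v)),
    Function.Injective φ ∧
    (∀ (u v : V) (h : Y.Adj u v), (p u v h).IsPath) ∧
    (∀ (u v : V) (h : Y.Adj u v), p v u h.symm = (p u v h).reverse) ∧
    (∀ (u v : V) (h : Y.Adj u v) (w : V), φ w ∈ (p u v h).support → w = u ∨ w = v) ∧
    (∀ (u v : V) (h : Y.Adj u v) (u' v' : V) (h' : Y.Adj u' v') (x : W),
      x ∈ (p u v h).support → x ∈ (p u' v' h').support → x ∉ Set.range φ →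
        s(u, v) = s(u', v')) ∧
    (∀ x : W, x ∉ Set.range φ → ∃ (u v : V) (h : Y.Adj u v), x ∈ (p u v h).support) ∧
    (∀ e ∈ H.edgeSet, ∃ (u v : V) (h : Y.Adj u v), e ∈ (p u v h).edges)

/-- The class `𝒢(Y)`: the graph `X` is (isomorphic to) the intersection graph of a finite family of
connected subgraphs of some subdivision `H` of `Y` (distinct vertices `i`, `j` of `X` are adjacent
exactly when the subgraphs `S i` and `S j` share a vertex). -/
def InClass {V U : Type} (Y : SimpleGraph V) (X : SimpleGraph U) : Prop :=
  Finite U ∧ ∃ (W : Type) (H : SimpleGraph W) (S : U → H.Subgraph),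
    Finite W ∧ IsSubdivision Y H ∧ (∀ i, (S i).Connected) ∧
    ∀ i j, i ≠ j → (X.Adj i j ↔ ((S i).verts ∩ (S j).verts).Nonempty)

/-- The class `𝒢(Y)` is universal: every finite group is isomorphic to the full automorphism group
of some graph in `𝒢(Y)`. -/
def Universal {V : Type} (Y : SimpleGraph V) : Prop :=
  ∀ (G : Type) [Group G] [Finite G], ∃ (U : Type) (X : SimpleGraph U),
    InClass Y X ∧ Nonempty ((X ≃g X) ≃* G)

end Pool.Agent.H205R3
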