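import Mathlib

/-!
Growth rates of groups with respect to finite sets of elements: balls, existence of the growth
rate (Fekete), elementary bounds.
-/

set_option autoImplicit false

namespace Pool.Agent.H205R3.Grow

open Filter Topology

/-- `ball S n` is the set of products of at most `n` elements of `S ∪ S⁻¹`. -/
def ball {G : Type*} [Group G] (S : Set G) (n : ℕ) : Set G :=
  {g | ∃ l : List G, l.length ≤ n ∧ (∀ x ∈ l, x ∈ S ∨ x⁻¹ ∈ S) ∧ l.prod = g}

/-- `r` is the exponential growth rate of the group `G` with respect to `S`: the limit of the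
`n`-th roots of the numbers of elements of the balls of radius `n`. -/
def IsGrowthRate {G : Type*} [Group G] (S : Set G) (r : ℝ) : Prop :=
  Tendsto (fun n : ℕ => ((ball S n).ncard : ℝ) ^ ((n : ℝ)⁻¹)) atTop (𝓝 r)

/-- The set of growth rates of `G` with respect to its finite generating sets. -/
def growthRates (G : Type*) [Group G] : Set ℝ :=
  {r | ∃ S : Set G, S.Finite ∧ Subgroup.closure S = ⊤ ∧ IsGrowthRate S r}

section Basic

variable {G : Type*} [Group G] {S : Set G}

theorem one_mem_ball (n : ℕ) : (1 : G) ∈ ball S n := ⟨[], by simp⟩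

theorem ball_mono {m n : ℕ} (h : m ≤ n) : ball S m ⊆ ball S n := by
  rintro g ⟨l, h1, h2, h3⟩
  exact ⟨l, h1.trans h, h2, h3⟩

theorem mul_mem_ball {m n : ℕ} {g h : G} (hg : g ∈ ball S m) (hh : h ∈ ball S n) :
    g * h ∈ ball S (m + n) := by
  obtain ⟨l, h1, h2, rfl⟩ := hg
  obtain ⟨l', h1', h2', rfl⟩ := hh
  refine ⟨l ++ l', ?_, ?_, by simp⟩
  · rw [List.length_append]; omega
  · intro x hx
    rcases List.mem_append.1 hx with hx | hx
    · exact h2 x hx
    · exact h2' x hx

theorem inv_mem_ball {n : ℕ} {g : G} (hg : g ∈ ball S n) : g⁻¹ ∈ ball S n := by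
  obtain ⟨l, h1, h2, rfl⟩ := hg
  refine ⟨(l.map (·⁻¹)).reverse, by simpa using h1, ?_, (List.prod_inv_reverse l).symm⟩
  intro x hx
  rw [List.mem_reverse, List.mem_map] at hx
  obtain ⟨y, hy, rfl⟩ := hx
  rcases h2 y hy with h | h
  · right; rwa [inv_inv]
  · left; exact h

theorem mem_ball_one {s : G} (h : s ∈ S ∨ s⁻¹ ∈ S) : s ∈ ball S 1 :=
  ⟨[s], by simp, by simpa using h, by simp⟩

/-- induction over balls -/
theorem ball_succ {n : ℕ} {g : G} (hg : g ∈ ball S (n + 1)) :
    g ∈ ball S n ∨ ∃ s h, (s ∈ S ∨ s⁻¹ ∈ S) ∧ h ∈ ball S n ∧ g = s * h := by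
  obtain ⟨l, h1, h2, rfl⟩ := hg
  cases l with
  | nil => left; simpa using one_mem_ball n
  | cons s l =>
    right
    refine ⟨s, l.prod, h2 s (by simp), ⟨l, by simpa using h1, fun x hx => h2 x (by simp [hx]), rfl⟩,
      by simp⟩

theorem ball_succ_right {n : ℕ} {g : G} (hg : g ∈ ball S (n + 1)) :
    g ∈ ball S n ∨ ∃ s h, (s ∈ S ∨ s⁻¹ ∈ S) ∧ h ∈ ball S n ∧ g = h * s := by
  rcases ball_succ (inv_mem_ball hg) with h | ⟨s, h, hs, hh, he⟩
  · left
    simpa using inv_mem_ball h
  · right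
    refine ⟨s⁻¹, h⁻¹, ?_, inv_mem_ball hh, ?_⟩
    · rcases hs with hs | hs
      · right; simpa using hs
      · left; exact hs
    · rw [← mul_inv_rev, ← he, inv_inv]

theorem ball_finite (hS : S.Finite) (n : ℕ) : (ball S n).Finite := by
  induction n with
  | zero =>
    refine (Set.finite_singleton (1 : G)).subset ?_
    rintro g ⟨l, h1, _, rfl⟩
    have : l = [] := List.length_eq_zero_iff.1 (by omega)
    simp [this]
  | succ n ih =>
    have hS' : (S ∪ S⁻¹).Finite := hS.union hS.inv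
    refine (ih.union (Set.Finite.image2 (· * ·) hS' ih)).subset ?_
    intro g hg
    rcases ball_succ hg with h | ⟨s, h, hs, hh, rfl⟩
    · exact Or.inl h
    · refine Or.inr ⟨s, ?_, h, hh, rfl⟩
      rcases hs with hs | hs
      · exact Or.inl hs
      · exact Or.inr (by simpa using hs)

theorem ncard_pos (hS : S.Finite) (n : ℕ) : 1 ≤ (ball S n).ncard := by
  have := (Set.ncard_pos (ball_finite hS n)).2 ⟨1, one_mem_ball n⟩
  omega

theorem ball_add_subset (m n : ℕ) :
    ball S (m + n) ⊆ (fun p : G × G => p.1 * p.2) '' (ball S m ×ˢ ball S n) := by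
  rintro g ⟨l, h1, h2, rfl⟩
  refine ⟨((l.take m).prod, (l.drop m).prod), ⟨⟨l.take m, by simp, ?_, rfl⟩,
    ⟨l.drop m, by simp; omega, ?_, rfl⟩⟩, by simp⟩
  · intro x hx
    exact h2 x (List.mem_of_mem_take hx)
  · intro x hx
    exact h2 x (List.mem_of_mem_drop hx)

theorem ncard_add_le (hS : S.Finite) (m n : ℕ) :
    (ball S (m + n)).ncard ≤ (ball S m).ncard * (ball S n).ncard := by
  have hfin : (ball S m ×ˢ ball S n).Finite := (ball_finite hS m).prod (ball_finite hS n)
  calc (ball S (m + n)).ncard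
      ≤ ((fun p : G × G => p.1 * p.2) '' (ball S m ×ˢ ball S n)).ncard :=
        Set.ncard_le_ncard (ball_add_subset m n) (hfin.image _)
    _ ≤ (ball S m ×ˢ ball S n).ncard := Set.ncard_image_le hfin
    _ = (ball S m).ncard * (ball S n).ncard := Set.ncard_prod

theorem subadd (hS : S.Finite) : Subadditive (fun n => Real.log ((ball S n).ncard : ℝ)) := by
  intro m n
  have h1 : (0 : ℝ) < (ball S m).ncard := by exact_mod_cast ncard_pos hS m
  have h2 : (0 : ℝ) < (ball S n).ncard := by exact_mod_cast ncard_pos hS n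
  have h3 : (0 : ℝ) < (ball S (m + n)).ncard := by exact_mod_cast ncard_pos hS (m + n)
  simp only
  rw [← Real.log_mul h1.ne' h2.ne']
  apply Real.log_le_log h3
  exact_mod_cast ncard_add_le hS m n

theorem bdd (hS : S.Finite) :
    BddBelow (Set.range fun n : ℕ => Real.log ((ball S n).ncard : ℝ) / n) := by
  refine ⟨0, ?_⟩
  rintro _ ⟨n, rfl⟩
  apply div_nonneg
  · apply Real.log_nonneg
    exact_mod_cast ncard_pos hS n
  · exact Nat.cast_nonneg n

/-- the growth rate -/
noncomputable def gr (S : Set G) (hS : S.Finite) : ℝ := Real.exp (subadd hS).lim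

theorem gr_pos (hS : S.Finite) : 0 < gr S hS := Real.exp_pos _

theorem isGrowthRate_gr (hS : S.Finite) : IsGrowthRate S (gr S hS) := by
  have h := (subadd hS).tendsto_lim (bdd hS)
  have h2 := (Real.continuous_exp.tendsto _).comp h
  refine h2.congr ?_
  intro n
  have h1 : (0 : ℝ) < (ball S n).ncard := by exact_mod_cast ncard_pos hS n
  show Real.exp (Real.log ((ball S n).ncard : ℝ) / n) = _
  rw [Real.rpow_def_of_pos h1]
  rfl

theorem gr_pow_le (hS : S.Finite) (n : ℕ) : gr S hS ^ n ≤ ((ball S n).ncard : ℝ) := by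
  have h1 : (0 : ℝ) < (ball S n).ncard := by exact_mod_cast ncard_pos hS n
  rcases Nat.eq_zero_or_pos n with rfl | hn
  · simpa using (by exact_mod_cast ncard_pos hS 0 : (1 : ℝ) ≤ (ball S 0).ncard)
  have h2 := (subadd hS).lim_le_div (bdd hS) (n := n) (by omega)
  have hn' : (0 : ℝ) < n := by exact_mod_cast hn
  rw [gr, ← Real.exp_nat_mul, ← Real.log_le_log_iff (Real.exp_pos _) h1, Real.log_exp]
  rw [le_div_iff₀ hn'] at h2
  linarith

theorem gr_le_of (hS : S.Finite) {n : ℕ} (hn : n ≠ 0) {r : ℝ} (hr : 0 ≤ r)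
    (h : ((ball S n).ncard : ℝ) ≤ r ^ n) : gr S hS ≤ r :=
  le_of_pow_le_pow_left₀ hn hr ((gr_pow_le hS n).trans h)

theorem eventually_le (hS : S.Finite) {r : ℝ} (hr : gr S hS < r) :
    ∀ᶠ n : ℕ in atTop, ((ball S n).ncard : ℝ) ≤ r ^ n := by
  have h := isGrowthRate_gr hS
  have h1 := h.eventually (gt_mem_nhds hr)
  filter_upwards [h1, eventually_ne_atTop 0] with n hn hn0
  have h0 : (0 : ℝ) ≤ (ball S n).ncard := Nat.cast_nonneg _
  have h2 : (((ball S n).ncard : ℝ) ^ ((n : ℝ)⁻¹)) ^ n ≤ r ^ n := by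
    apply pow_le_pow_left₀ (Real.rpow_nonneg h0 _) hn.le
  rwa [Real.rpow_inv_natCast_pow h0 hn0] at h2

theorem growthRate_unique (hS : S.Finite) {r : ℝ} (h : IsGrowthRate S r) : r = gr S hS :=
  tendsto_nhds_unique h (isGrowthRate_gr hS)

/-- word length -/
noncomputable def len (S : Set G) (g : G) : ℕ := sInf {n | g ∈ ball S n}

theorem len_le {g : G} {n : ℕ} (h : g ∈ ball S n) : len S g ≤ n := Nat.sInf_le h

theorem mem_ball_len {g : G} {n : ℕ} (h : g ∈ ball S n) : g ∈ ball S (len S g) :=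
  Nat.sInf_mem (s := {n | g ∈ ball S n}) ⟨n, h⟩

theorem len_pos {g : G} {n : ℕ} (h : g ∈ ball S n) (h1 : g ≠ 1) : 1 ≤ len S g := by
  by_contra hcon
  have h0 : len S g = 0 := by omega
  have := mem_ball_len h
  rw [h0] at this
  obtain ⟨l, h1', _, rfl⟩ := this
  have : l = [] := List.length_eq_zero_iff.1 (by omega)
  exact h1 (by simp [this])

end Basic

/-- a generating set covers the group by its balls -/
theorem exists_mem_ball {G : Type*} [Group G] {S : Set G} (hS : Subgroup.closure S = ⊤) (g : G) :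
    ∃ n, g ∈ ball S n := by
  have hg : g ∈ Subgroup.closure S := by rw [hS]; trivial
  induction hg using Subgroup.closure_induction with
  | mem x hx => exact ⟨1, mem_ball_one (Or.inl hx)⟩
  | one => exact ⟨0, one_mem_ball 0⟩
  | mul x y _ _ hx hy =>
    obtain ⟨m, hm⟩ := hx
    obtain ⟨n, hn⟩ := hy
    exact ⟨m + n, mul_mem_ball hm hn⟩
  | inv x _ hx =>
    obtain ⟨m, hm⟩ := hx
    exact ⟨m, inv_mem_ball hm⟩

theorem map_mem_ball {G G' : Type*} [Group G] [Group G'] (φ : G →* G') {S : Set G} {S' : Set G'}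
    (h : ∀ s ∈ S, φ s ∈ S') {n : ℕ} {g : G} (hg : g ∈ ball S n) : φ g ∈ ball S' n := by
  obtain ⟨l, h1, h2, rfl⟩ := hg
  refine ⟨l.map φ, by simpa using h1, ?_, (map_list_prod φ l).symm⟩
  intro x hx
  rw [List.mem_map] at hx
  obtain ⟨y, hy, rfl⟩ := hx
  rcases h2 y hy with h' | h'
  · exact Or.inl (h _ h')
  · right
    rw [← map_inv]
    exact h _ h'

theorem lift_mem_ball {G G' : Type*} [Group G] [Group G'] (φ : G →* G') {S : Set G} {S' : Set G'}
    (h : ∀ s' ∈ S', ∃ s ∈ S, φ s = s') {n : ℕ} {g' : G'} (hg : g' ∈ ball S' n) :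
    ∃ g ∈ ball S n, φ g = g' := by
  obtain ⟨l, h1, h2, rfl⟩ := hg
  have key : ∀ l : List G', (∀ x ∈ l, x ∈ S' ∨ x⁻¹ ∈ S') →
      ∃ l' : List G, l'.length = l.length ∧ (∀ x ∈ l', x ∈ S ∨ x⁻¹ ∈ S) ∧ l'.map φ = l := by
    intro l
    induction l with
    | nil => intro _; exact ⟨[], by simp⟩
    | cons x l ih =>
      intro hx
      obtain ⟨l', e1, e2, e3⟩ := ih (fun y hy => hx y (by simp [hy]))
      rcases hx x (by simp) with h' | h'
      · obtain ⟨s, hs, hs'⟩ := h _ h'
        refine ⟨s :: l', by simp [e1], ?_, by simp [e3, hs']⟩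
        intro y hy
        rcases List.mem_cons.1 hy with rfl | hy
        · exact Or.inl hs
        · exact e2 y hy
      · obtain ⟨s, hs, hs'⟩ := h _ h'
        refine ⟨s⁻¹ :: l', by simp [e1], ?_, by simp [e3, hs']⟩
        intro y hy
        rcases List.mem_cons.1 hy with rfl | hy
        · exact Or.inr (by simpa using hs)
        · exact e2 y hy
  obtain ⟨l', e1, e2, e3⟩ := key l h2
  refine ⟨l'.prod, ⟨l', by omega, e2, rfl⟩, ?_⟩
  rw [map_list_prod, e3]

end Pool.Agent.H205R3.Grow
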