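import Mathlib
import Pool.Agent.H205R3.GrowA

/-!
Growth rates of the free product `B * B` with respect to the union of two copies of a finite
subset of `B`.
-/

set_option autoImplicit false
set_option linter.unusedSectionVars false

namespace Pool.Agent.H205R3.Grow

open Filter Topology Monoid

/-- the free product of two copies of `B` -/
abbrev Dbl (B : Type*) [Group B] : Type _ := CoprodI (fun _ : Bool => B)

/-- the inclusion of the `i`-th factor -/
abbrev inc {B : Type*} [Group B] (i : Bool) : B →* Dbl B :=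
  CoprodI.of (M := fun _ : Bool => B) (i := i)

/-- the union of the two copies of `T` -/
def dbl {B : Type*} [Group B] (T : Set B) : Set (Dbl B) :=
  {g | ∃ i, ∃ x ∈ T, inc i x = g}

section NF

variable {B : Type*} [Group B]

/-- alternating products -/
def alt : Bool → List B → Dbl B
  | _, [] => 1
  | i, x :: l => inc i x * alt (!i) l

/-- the syllable lists of alternating products -/
def altList : Bool → List B → List (Σ _ : Bool, B)
  | _, [] => []
  | i, x :: l => ⟨i, x⟩ :: altList (!i) l

theorem altList_map (l : List B) : ∀ i, (altList i l).map (fun p => p.2) = l := by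
  induction l with
  | nil => intro i; rfl
  | cons x l ih => intro i; simp [altList, ih]

theorem altList_prod (l : List B) : ∀ i,
    ((altList i l).map fun p => (CoprodI.of (M := fun _ : Bool => B) (i := p.1) p.2 : Dbl B)).prod
      = alt i l := by
  induction l with
  | nil => intro i; rfl
  | cons x l ih =>
    intro i
    simp only [altList, alt, List.map_cons, List.prod_cons, ih]

theorem altList_chain (l : List B) : ∀ i, (altList i l).IsChain (fun p q => p.1 ≠ q.1) := by
  induction l with
  | nil => intro i; exact List.isChain_nil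
  | cons x l ih =>
    intro i
    cases l with
    | nil => exact List.isChain_singleton _
    | cons y l =>
      simp only [altList]
      refine List.isChain_cons_cons.2 ⟨?_, ?_⟩
      · cases i <;> simp
      · have := ih (!i)
        simpa only [altList] using this

theorem exists_word (i : Bool) (l : List B) (h : ∀ x ∈ l, x ≠ 1) :
    ∃ w : CoprodI.Word (fun _ : Bool => B), w.toList = altList i l ∧ w.prod = alt i l := by
  refine ⟨⟨altList i l, ?_, altList_chain l i⟩, rfl, altList_prod l i⟩
  intro p hp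
  apply h
  rw [← altList_map l i]
  exact List.mem_map_of_mem hp

theorem alt_inj (i : Bool) {l l' : List B} (h : ∀ x ∈ l, x ≠ 1) (h' : ∀ x ∈ l', x ≠ 1)
    (he : alt i l = alt i l') : l = l' := by
  classical
  obtain ⟨w, hw1, hw2⟩ := exists_word i l h
  obtain ⟨w', hw1', hw2'⟩ := exists_word i l' h'
  have h1 : w.prod = w'.prod := by rw [hw2, hw2', he]
  have h2 : w = w' := (CoprodI.Word.equiv (M := fun _ : Bool => B)).symm.injective h1
  have h3 : altList i l = altList i l' := by rw [← hw1, ← hw1', h2]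
  rw [← altList_map l i, h3, altList_map]

theorem alt_eq_one (i : Bool) {l : List B} (h : ∀ x ∈ l, x ≠ 1) (he : alt i l = 1) : l = [] :=
  alt_inj i h (l' := []) (by simp) he

/-- the cost of a list -/
noncomputable def wcost (T : Set B) (l : List B) : ℕ := (l.map (len T)).sum

theorem inc_mem_ball {T : Set B} (i : Bool) {x : B} {n : ℕ} (h : x ∈ ball T n) :
    inc i x ∈ ball (dbl T) n :=
  map_mem_ball (S' := dbl T) (inc i) (fun s hs => ⟨i, s, hs, rfl⟩) h

theorem alt_mem_ball {T : Set B} (l : List B) : ∀ (i : Bool), (∀ x ∈ l, ∃ n, x ∈ ball T n) →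
    alt i l ∈ ball (dbl T) (wcost T l) := by
  induction l with
  | nil => intro i _; exact one_mem_ball _
  | cons x l ih =>
    intro i h
    obtain ⟨n, hn⟩ := h x (by simp)
    have h1 := inc_mem_ball i (mem_ball_len hn)
    have h2 := ih (!i) (fun y hy => h y (by simp [hy]))
    have h3 := mul_mem_ball h1 h2
    simpa [alt, wcost] using h3

theorem exists_alt {T : Set B} {n : ℕ} : ∀ {g : Dbl B}, g ∈ ball (dbl T) n →
    ∃ (i : Bool) (l : List B), (∀ x ∈ l, x ≠ 1 ∧ ∃ m, x ∈ ball T m) ∧ wcost T l ≤ n ∧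
      alt i l = g := by
  induction n with
  | zero =>
    rintro g ⟨l, h1, _, rfl⟩
    have : l = [] := List.length_eq_zero_iff.1 (by omega)
    subst this
    exact ⟨false, [], by simp, by simp [wcost], rfl⟩
  | succ n ih =>
    intro g hg
    rcases ball_succ hg with h | ⟨s, h, hs, hh, rfl⟩
    · obtain ⟨i, l, e1, e2, e3⟩ := ih h
      exact ⟨i, l, e1, by omega, e3⟩
    · obtain ⟨i, l, e1, e2, rfl⟩ := ih hh
      -- `s` is the image of `τ` in factor `j`
      obtain ⟨j, τ, hτ, rfl⟩ : ∃ (j : Bool) (τ : B), τ ∈ ball T 1 ∧ inc j τ = s := by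
        rcases hs with ⟨j, x, hx, hx'⟩ | ⟨j, x, hx, hx'⟩
        · exact ⟨j, x, mem_ball_one (Or.inl hx), hx'⟩
        · refine ⟨j, x⁻¹, mem_ball_one (Or.inr (by simpa using hx)), ?_⟩
          rw [map_inv, hx', inv_inv]
      by_cases hτ1 : τ = 1
      · subst hτ1
        exact ⟨i, l, e1, by omega, by simp⟩
      cases l with
      | nil =>
        refine ⟨j, [τ], ?_, ?_, by simp [alt]⟩
        · intro x hx
          rw [List.mem_singleton] at hx
          subst hx
          exact ⟨hτ1, 1, hτ⟩
        · have := len_le hτ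
          simp [wcost]
          omega
      | cons x l =>
        by_cases hij : j = i
        · subst hij
          obtain ⟨hx1, m, hm⟩ := e1 x (by simp)
          have hx2 := mul_mem_ball hτ (mem_ball_len hm)
          have hc : wcost T (x :: l) = len T x + wcost T l := by simp [wcost]
          by_cases hτx : τ * x = 1
          · refine ⟨!j, l, fun y hy => e1 y (by simp [hy]), by omega, ?_⟩
            simp only [alt]
            rw [← mul_assoc, ← map_mul, hτx, map_one, one_mul]
          · refine ⟨j, (τ * x) :: l, ?_, ?_, ?_⟩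
            · intro y hy
              rcases List.mem_cons.1 hy with rfl | hy
              · exact ⟨hτx, _, hx2⟩
              · exact e1 y (by simp [hy])
            · have := len_le hx2
              have hc' : wcost T ((τ * x) :: l) = len T (τ * x) + wcost T l := by simp [wcost]
              omega
            · simp only [alt]
              rw [map_mul, mul_assoc]
        · have hi : i = !j := by
            cases i <;> cases j <;> simp_all
          subst hi
          refine ⟨j, τ :: x :: l, ?_, ?_, rfl⟩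
          · intro y hy
            rcases List.mem_cons.1 hy with rfl | hy
            · exact ⟨hτ1, 1, hτ⟩
            · exact e1 y hy
          · have := len_le hτ
            have hc' : wcost T (τ :: x :: l) = len T τ + wcost T (x :: l) := by simp [wcost]
            omega

end NF

section Count

variable {B : Type*} [Group B] {T : Set B} (hT : T.Finite)

theorem dbl_finite (hT : T.Finite) : (dbl T).Finite := by
  have : dbl T = ⋃ i : Bool, (inc i) '' T := by
    ext g
    simp [dbl]
  rw [this]
  exact Set.finite_iUnion fun i => hT.image _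

open Classical in
/-- the nontrivial elements of length at most `J` -/
noncomputable def X (hT : T.Finite) (J : ℕ) : Finset B := (ball_finite hT J).toFinset.erase 1

theorem mem_X {J : ℕ} {x : B} : x ∈ X hT J ↔ x ≠ 1 ∧ x ∈ ball T J := by
  simp [X]

/-- the partial sums of the generating function -/
noncomputable def P (hT : T.Finite) (J : ℕ) (z : ℝ) : ℝ := ∑ x ∈ X hT J, z ^ len T x

open Classical in
/-- lists of `m` entries from `A` -/
noncomputable def lists (A : Finset B) : ℕ → Finset (List B)
  | 0 => {[]}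
  | m + 1 => (A ×ˢ lists A m).image (fun p => p.1 :: p.2)

theorem mem_lists {A : Finset B} {m : ℕ} : ∀ {l : List B}, l ∈ lists A m ↔
    l.length = m ∧ ∀ x ∈ l, x ∈ A := by
  induction m with
  | zero =>
    intro l
    simp only [lists, Finset.mem_singleton]
    constructor
    · rintro rfl
      simp
    · rintro ⟨h, _⟩
      exact List.length_eq_zero_iff.1 h
  | succ m ih =>
    intro l
    simp only [lists, Finset.mem_image, Finset.mem_product, Prod.exists]
    constructor
    · rintro ⟨a, l, ⟨ha, hl⟩, rfl⟩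
      rw [ih] at hl
      refine ⟨by simp [hl.1], ?_⟩
      intro x hx
      rcases List.mem_cons.1 hx with rfl | hx
      · exact ha
      · exact hl.2 x hx
    · rintro ⟨h1, h2⟩
      cases l with
      | nil => simp at h1
      | cons a l =>
        exact ⟨a, l, ⟨h2 a (by simp), ih.2 ⟨by simpa using h1, fun x hx => h2 x (by simp [hx])⟩⟩,
          rfl⟩

theorem sum_lists (z : ℝ) (A : Finset B) (m : ℕ) :
    ∑ l ∈ lists A m, z ^ wcost T l = (∑ x ∈ A, z ^ len T x) ^ m := by
  classical
  induction m with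
  | zero => simp [lists, wcost]
  | succ m ih =>
    simp only [lists]
    rw [Finset.sum_image]
    · rw [Finset.sum_product, pow_succ', ← ih, Finset.sum_mul_sum]
      refine Finset.sum_congr rfl fun x _ => Finset.sum_congr rfl fun l _ => ?_
      simp [wcost, pow_add]
    · rintro ⟨a, l⟩ _ ⟨a', l'⟩ _ h
      simp only [List.cons.injEq] at h
      exact Prod.ext h.1 h.2

open Classical in
/-- lists of fewer than `M` entries from `A` -/
noncomputable def listsLt (A : Finset B) (M : ℕ) : Finset (List B) :=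
  (Finset.range M).biUnion (lists A)

theorem mem_listsLt {A : Finset B} {M : ℕ} {l : List B} : l ∈ listsLt A M ↔
    l.length < M ∧ ∀ x ∈ l, x ∈ A := by
  classical
  simp only [listsLt, Finset.mem_biUnion, Finset.mem_range, mem_lists]
  constructor
  · rintro ⟨m, h1, h2, h3⟩
    exact ⟨by omega, h3⟩
  · rintro ⟨h1, h2⟩
    exact ⟨_, h1, rfl, h2⟩

theorem sum_listsLt (z : ℝ) (A : Finset B) (M : ℕ) :
    ∑ l ∈ listsLt A M, z ^ wcost T l = ∑ m ∈ Finset.range M, (∑ x ∈ A, z ^ len T x) ^ m := by
  classical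
  rw [listsLt, Finset.sum_biUnion]
  · exact Finset.sum_congr rfl fun m _ => sum_lists z A m
  · intro m _ m' _ hmm'
    refine Finset.disjoint_left.2 ?_
    intro l h1 h2
    exact hmm' ((mem_lists.1 h1).1.symm.trans (mem_lists.1 h2).1)

/-- lower bound for the growth rate of the free product -/
theorem lower {z : ℝ} (hz0 : 0 < z) {J : ℕ} (hP : 1 ≤ P hT J z) :
    z⁻¹ ≤ gr (dbl T) (dbl_finite hT) := by
  classical
  by_contra hcon
  push Not at hcon
  obtain ⟨r, hr1, hr2⟩ := exists_between hcon
  have hr0 : 0 < r := (gr_pos _).trans hr1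
  have hrz : r * z < 1 := by
    rwa [← lt_div_iff₀ hz0, one_div]
  -- summability
  have hsum : Summable (fun n : ℕ => ((ball (dbl T) n).ncard : ℝ) * z ^ n) := by
    have hgeo : Summable (fun n : ℕ => (r * z) ^ n) :=
      summable_geometric_of_lt_one (by positivity) hrz
    refine Summable.of_norm_bounded_eventually_nat hgeo ?_
    filter_upwards [eventually_le (dbl_finite hT) hr1] with n hn
    rw [Real.norm_of_nonneg (by positivity), mul_pow]
    exact mul_le_mul_of_nonneg_right hn (by positivity)
  set C : ℝ := ∑' n : ℕ, ((ball (dbl T) n).ncard : ℝ) * z ^ n with hC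
  have key : ∀ M : ℕ, (M : ℝ) ≤ C := by
    intro M
    let Λ : Finset (List B) := listsLt (X hT J) M
    have h1 : (M : ℝ) ≤ ∑ l ∈ Λ, z ^ wcost T l := by
      rw [sum_listsLt]
      calc (M : ℝ) = ∑ m ∈ Finset.range M, (1 : ℝ) := by simp
        _ ≤ ∑ m ∈ Finset.range M, (∑ x ∈ X hT J, z ^ len T x) ^ m :=
          Finset.sum_le_sum fun m _ => one_le_pow₀ hP
    let N : ℕ := (Λ.sup (wcost T)) + 1
    have h2 : ∑ l ∈ Λ, z ^ wcost T l
        = ∑ n ∈ Finset.range N, ∑ l ∈ Λ with wcost T l = n, z ^ wcost T l := by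
      rw [Finset.sum_fiberwise_of_maps_to]
      intro l hl
      rw [Finset.mem_range]
      have := Finset.le_sup (f := wcost T) hl
      show wcost T l < Λ.sup (wcost T) + 1
      omega
    have h3 : ∀ n : ℕ, ∑ l ∈ Λ with wcost T l = n, z ^ wcost T l
        ≤ ((ball (dbl T) n).ncard : ℝ) * z ^ n := by
      intro n
      have h4 : ∑ l ∈ Λ with wcost T l = n, z ^ wcost T l
          = ((Λ.filter (fun l => wcost T l = n)).card : ℝ) * z ^ n := by
        rw [Finset.sum_congr rfl (g := fun _ => z ^ n)]
        · simp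
        · intro l hl
          rw [(Finset.mem_filter.1 hl).2]
      rw [h4]
      apply mul_le_mul_of_nonneg_right _ (by positivity)
      norm_cast
      rw [← Set.ncard_coe_finset]
      have hfin := ball_finite (dbl_finite hT) n
      refine Set.ncard_le_ncard_of_injOn (alt false) ?_ ?_ hfin
      · intro l hl
        have hl' := Finset.mem_filter.1 (Finset.mem_coe.1 hl)
        have := alt_mem_ball (T := T) l false (fun x hx =>
          ⟨J, ((mem_X hT).1 ((mem_listsLt.1 hl'.1).2 x hx)).2⟩)
        rwa [hl'.2] at this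
      · intro l hl l' hl' he
        have hl1 := (Finset.mem_filter.1 (Finset.mem_coe.1 hl)).1
        have hl1' := (Finset.mem_filter.1 (Finset.mem_coe.1 hl')).1
        exact alt_inj false (fun x hx => ((mem_X hT).1 ((mem_listsLt.1 hl1).2 x hx)).1)
          (fun x hx => ((mem_X hT).1 ((mem_listsLt.1 hl1').2 x hx)).1) he
    calc (M : ℝ) ≤ ∑ l ∈ Λ, z ^ wcost T l := h1
      _ = ∑ n ∈ Finset.range N, ∑ l ∈ Λ with wcost T l = n, z ^ wcost T l := h2
      _ ≤ ∑ n ∈ Finset.range N, ((ball (dbl T) n).ncard : ℝ) * z ^ n :=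
        Finset.sum_le_sum fun n _ => h3 n
      _ ≤ C := hsum.sum_le_tsum _ (fun n _ => by positivity)
  obtain ⟨M, hM⟩ := exists_nat_gt C
  exact absurd (key M) (not_le.2 hM)

theorem length_le_wcost {l : List B} (h : ∀ x ∈ l, x ≠ 1 ∧ ∃ m, x ∈ ball T m) :
    l.length ≤ wcost T l := by
  induction l with
  | nil => simp
  | cons x l ih =>
    have h1 := ih (fun y hy => h y (by simp [hy]))
    obtain ⟨hx, m, hm⟩ := h x (by simp)
    have h2 := len_pos hm hx
    have hc : wcost T (x :: l) = len T x + wcost T l := by simp [wcost]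
    rw [hc, List.length_cons]
    omega

theorem len_le_wcost {l : List B} {x : B} (h : x ∈ l) : len T x ≤ wcost T l :=
  List.single_le_sum (by simp) _ (List.mem_map_of_mem h)

/-- upper bound for the growth rate of the free product -/
theorem upper {z q : ℝ} (hz0 : 0 < z) (hz1 : z < 1) (hq1 : q < 1)
    (hP : ∀ J, P hT J z ≤ q) : gr (dbl T) (dbl_finite hT) < z⁻¹ := by
  classical
  by_contra hcon
  push Not at hcon
  have hq0 : 0 ≤ q := le_trans (Finset.sum_nonneg fun x _ => by positivity) (hP 0)
  have hball : ∀ n : ℕ, 1 ≤ ((ball (dbl T) n).ncard : ℝ) * z ^ n := by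
    intro n
    have h1 : z⁻¹ ^ n ≤ ((ball (dbl T) n).ncard : ℝ) :=
      (pow_le_pow_left₀ (by positivity) hcon n).trans (gr_pow_le _ n)
    have h2 : z⁻¹ ^ n * z ^ n = 1 := by
      rw [← mul_pow, inv_mul_cancel₀ hz0.ne', one_pow]
    calc (1 : ℝ) = z⁻¹ ^ n * z ^ n := h2.symm
      _ ≤ _ := mul_le_mul_of_nonneg_right h1 (by positivity)
  have key : ∀ N : ℕ, (N : ℝ) ≤ 2 * ((1 - z)⁻¹ * (1 - q)⁻¹) := by
    intro N
    let Λ : Finset (List B) := listsLt (X hT N) N
    -- the balls are covered by alternating products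
    have h1 : ∀ n ∈ Finset.range N, ((ball (dbl T) n).ncard : ℝ)
        ≤ 2 * ((Λ.filter (fun l => wcost T l ≤ n)).card : ℝ) := by
      intro n hn
      rw [Finset.mem_range] at hn
      have hsub : ball (dbl T) n ⊆ ((fun p : Bool × List B => alt p.1 p.2) ''
          (((Finset.univ : Finset Bool) ×ˢ Λ.filter (fun l => wcost T l ≤ n) :
            Finset (Bool × List B)) : Set (Bool × List B))) := by
        intro g hg
        obtain ⟨i, l, e1, e2, e3⟩ := exists_alt hg
        refine ⟨(i, l), ?_, e3⟩
        rw [Finset.mem_coe, Finset.mem_product]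
        refine ⟨Finset.mem_univ _, Finset.mem_filter.2 ⟨mem_listsLt.2 ⟨?_, ?_⟩, e2⟩⟩
        · have := length_le_wcost e1
          show l.length < N
          omega
        · intro x hx
          obtain ⟨hx1, m, hm⟩ := e1 x hx
          refine (mem_X hT).2 ⟨hx1, ball_mono ?_ (mem_ball_len hm)⟩
          have := len_le_wcost (T := T) (l := l) hx
          omega
      have h2 : (ball (dbl T) n).ncard ≤ 2 * (Λ.filter (fun l => wcost T l ≤ n)).card := by
        calc (ball (dbl T) n).ncard
            ≤ _ := Set.ncard_le_ncard hsub (Set.Finite.image _ (Finset.finite_toSet _))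
          _ ≤ _ := Set.ncard_image_le (Finset.finite_toSet _)
          _ = 2 * (Λ.filter (fun l => wcost T l ≤ n)).card := by
            rw [Set.ncard_coe_finset, Finset.card_product]
            simp
      exact_mod_cast h2
    have h2 : (N : ℝ) ≤ ∑ n ∈ Finset.range N,
        2 * ((Λ.filter (fun l => wcost T l ≤ n)).card : ℝ) * z ^ n := by
      calc (N : ℝ) = ∑ n ∈ Finset.range N, (1 : ℝ) := by simp
        _ ≤ _ := Finset.sum_le_sum fun n hn => (hball n).trans
          (mul_le_mul_of_nonneg_right (h1 n hn) (by positivity))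
    have h3 : ∑ n ∈ Finset.range N, 2 * ((Λ.filter (fun l => wcost T l ≤ n)).card : ℝ) * z ^ n
        = 2 * ∑ l ∈ Λ, ∑ n ∈ Finset.range N with wcost T l ≤ n, z ^ n := by
      have e1 : ∀ n ∈ Finset.range N,
          2 * ((Λ.filter (fun l => wcost T l ≤ n)).card : ℝ) * z ^ n
            = 2 * ∑ l ∈ Λ, (if wcost T l ≤ n then z ^ n else 0) := by
        intro n _
        rw [← Finset.sum_filter, Finset.sum_const, nsmul_eq_mul, mul_assoc]
      rw [Finset.sum_congr rfl e1, ← Finset.mul_sum, Finset.sum_comm]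
      congr 1
      refine Finset.sum_congr rfl fun l _ => ?_
      rw [Finset.sum_filter]
    have h4 : ∀ l ∈ Λ, ∑ n ∈ Finset.range N with wcost T l ≤ n, z ^ n
        ≤ z ^ wcost T l * (1 - z)⁻¹ := by
      intro l _
      have e1 : (Finset.range N).filter (fun n => wcost T l ≤ n) = Finset.Ico (wcost T l) N := by
        ext n
        simp only [Finset.mem_filter, Finset.mem_range, Finset.mem_Ico]
        tauto
      rw [e1, ← div_eq_mul_inv]
      exact geom_sum_Ico_le_of_lt_one hz0.le hz1
    have h5 : ∑ l ∈ Λ, z ^ wcost T l ≤ (1 - q)⁻¹ := by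
      rw [sum_listsLt]
      have hP0 : 0 ≤ P hT N z := Finset.sum_nonneg fun x _ => by positivity
      calc ∑ m ∈ Finset.range N, (∑ x ∈ X hT N, z ^ len T x) ^ m
          ≤ ∑ m ∈ Finset.range N, q ^ m :=
            Finset.sum_le_sum fun m _ => pow_le_pow_left₀ hP0 (hP N) m
        _ ≤ q ^ 0 / (1 - q) := by
          rw [Finset.range_eq_Ico]
          exact geom_sum_Ico_le_of_lt_one hq0 hq1
        _ = (1 - q)⁻¹ := by rw [pow_zero, one_div]
    have hz' : 0 < (1 - z)⁻¹ := inv_pos.2 (by linarith)
    calc (N : ℝ) ≤ _ := h2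
      _ = _ := h3
      _ ≤ 2 * ∑ l ∈ Λ, z ^ wcost T l * (1 - z)⁻¹ := by
        have := Finset.sum_le_sum h4
        linarith
      _ = 2 * ((1 - z)⁻¹ * ∑ l ∈ Λ, z ^ wcost T l) := by
        rw [← Finset.sum_mul]; ring
      _ ≤ 2 * ((1 - z)⁻¹ * (1 - q)⁻¹) := by
        have := mul_le_mul_of_nonneg_left h5 hz'.le
        linarith
  obtain ⟨M, hM⟩ := exists_nat_gt (2 * ((1 - z)⁻¹ * (1 - q)⁻¹))
  exact absurd (key M) (not_le.2 hM)

end Count

section Compare

variable {B A : Type*} [Group B] [Group A]

/-- comparison: if `π : B → A` maps `T` onto `T'` and kills a nontrivial element, then the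
generating function of `B` is larger than that of `A` -/
theorem compare {T : Set B} {T' : Set A} (hT : T.Finite) (hT' : T'.Finite) (π : B →* A)
    (hsurj : ∀ s' ∈ T', ∃ s ∈ T, π s = s') {κ : B} (hκ1 : κ ≠ 1)
    (hκ : π κ = 1) {ℓ : ℕ} (hκℓ : κ ∈ ball T ℓ) {z : ℝ} (hz0 : 0 < z) (hz1 : z < 1)
    {J : ℕ} (hJ : ℓ ≤ J) : P hT' J z + z ^ ℓ ≤ P hT J z := by
  classical
  have hlift : ∀ x' : A, x' ∈ X hT' J → ∃ x : B, x ∈ X hT J ∧ π x = x' ∧ len T x ≤ len T' x' := by
    intro x' hx'
    obtain ⟨h1, h2⟩ := (mem_X hT').1 hx'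
    obtain ⟨x, hx, hxx'⟩ := lift_mem_ball π hsurj (mem_ball_len h2)
    refine ⟨x, (mem_X hT).2 ⟨?_, ball_mono (len_le h2) hx⟩, hxx', len_le hx⟩
    rintro rfl
    exact h1 (by rw [← hxx', map_one])
  choose! σ hσ1 hσ2 hσ3 using hlift
  have hκX : κ ∈ X hT J := (mem_X hT).2 ⟨hκ1, ball_mono hJ hκℓ⟩
  have hinj : Set.InjOn σ (X hT' J) := by
    intro x hx y hy hxy
    rw [← hσ2 x hx, ← hσ2 y hy, hxy]
  have hnot : κ ∉ (X hT' J).image σ := by
    intro h
    obtain ⟨x', hx', hx⟩ := Finset.mem_image.1 h
    have h1 := hσ2 x' hx'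
    rw [hx, hκ] at h1
    exact ((mem_X hT').1 hx').1 h1.symm
  have hsub : insert κ ((X hT' J).image σ) ⊆ X hT J := by
    intro x hx
    rcases Finset.mem_insert.1 hx with rfl | hx
    · exact hκX
    · obtain ⟨x', hx', rfl⟩ := Finset.mem_image.1 hx
      exact hσ1 x' hx'
  calc P hT' J z + z ^ ℓ
      ≤ ∑ x' ∈ X hT' J, z ^ len T (σ x') + z ^ len T κ := by
        apply add_le_add
        · exact Finset.sum_le_sum fun x' hx' =>
            pow_le_pow_of_le_one hz0.le hz1.le (hσ3 x' hx')
        · exact pow_le_pow_of_le_one hz0.le hz1.le (len_le hκℓ)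
    _ = ∑ x ∈ insert κ ((X hT' J).image σ), z ^ len T x := by
        rw [Finset.sum_insert hnot, Finset.sum_image hinj, add_comm]
    _ ≤ P hT J z := Finset.sum_le_sum_of_subset_of_nonneg hsub fun x _ _ => by positivity

theorem P_mono {T : Set B} (hT : T.Finite) {z : ℝ} (hz0 : 0 < z) {J J' : ℕ} (h : J ≤ J') :
    P hT J z ≤ P hT J' z := by
  refine Finset.sum_le_sum_of_subset_of_nonneg ?_ fun x _ _ => by positivity
  intro x hx
  obtain ⟨h1, h2⟩ := (mem_X hT).1 hx
  exact (mem_X hT).2 ⟨h1, ball_mono h h2⟩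

/-- strict inequality of growth rates -/
theorem gr_lt {T : Set B} {T' : Set A} (hT : T.Finite) (hT' : T'.Finite) (π : B →* A)
    (hsurj : ∀ s' ∈ T', ∃ s ∈ T, π s = s') {κ : B} (hκ1 : κ ≠ 1)
    (hκ : π κ = 1) {ℓ : ℕ} (hκℓ : κ ∈ ball T ℓ)
    (hgr : 1 < gr (dbl T') (dbl_finite hT')) :
    gr (dbl T') (dbl_finite hT') < gr (dbl T) (dbl_finite hT) := by
  set ρ := gr (dbl T') (dbl_finite hT') with hρ
  have hρ0 : 0 < ρ := gr_pos _
  set z := ρ⁻¹ with hz
  have hz0 : 0 < z := inv_pos.2 hρ0
  have hz1 : z < 1 := inv_lt_one_of_one_lt₀ hgr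
  have hzℓ : 0 < z ^ ℓ := by positivity
  obtain ⟨J, hJ⟩ : ∃ J, 1 - z ^ ℓ / 2 < P hT' J z := by
    by_contra hcon
    push Not at hcon
    have := upper hT' hz0 hz1 (q := 1 - z ^ ℓ / 2) (by linarith) hcon
    rw [hz, inv_inv] at this
    exact lt_irrefl _ this
  set J' := max J ℓ with hJ'
  have h1 : 1 < P hT J' z := by
    have e1 := compare hT hT' π hsurj hκ1 hκ hκℓ hz0 hz1 (le_max_right J ℓ)
    have e2 := P_mono hT' hz0 (le_max_left J ℓ)
    linarith
  have hcont : Continuous (fun y : ℝ => P hT J' y) := by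
    unfold P
    exact continuous_finsetSum _ fun x _ => continuous_pow _
  have h2 : ∀ᶠ y in 𝓝 z, 1 < P hT J' y := hcont.continuousAt.eventually (lt_mem_nhds h1)
  have h3 : ∀ᶠ y in 𝓝[<] z, 1 < P hT J' y ∧ 0 < y := by
    have h4 : ∀ᶠ y in 𝓝 z, 1 < P hT J' y ∧ 0 < y := h2.and (lt_mem_nhds hz0)
    exact h4.filter_mono nhdsWithin_le_nhds
  obtain ⟨y, ⟨hy1, hy0⟩, hyz⟩ := (h3.and self_mem_nhdsWithin).exists
  have hyz' : y < z := hyz
  have h5 := lower hT hy0 hy1.le
  have h6 : ρ < y⁻¹ := by
    rw [hz] at hyz'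
    exact (lt_inv_comm₀ hy0 hρ0).1 hyz'
  exact h6.trans_le h5

/-- the induced map of the doubles -/
noncomputable def dblMap (π : B →* A) : Dbl B →* Dbl A :=
  CoprodI.lift (fun i => (inc i).comp π)

theorem dblMap_inc (π : B →* A) (i : Bool) (x : B) : dblMap π (inc i x) = inc i (π x) := by
  simp [dblMap]

theorem dblMap_alt (π : B →* A) (l : List B) : ∀ i, dblMap π (alt i l) = alt i (l.map π) := by
  induction l with
  | nil => intro i; simp [alt]
  | cons x l ih => intro i; simp [alt, ih, dblMap_inc]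

/-- if `π` is injective on the ball of radius `2n` (at the identity), then the ball of radius `n`
of the free product is not larger than that of the image -/
theorem ncard_le {T : Set B} {T' : Set A} (hT' : T'.Finite) (π : B →* A)
    (hmap : ∀ s ∈ T, π s ∈ T') {n : ℕ}
    (hinj : ∀ x ∈ ball T (2 * n), π x = 1 → x = 1) :
    (ball (dbl T) n).ncard ≤ (ball (dbl T') n).ncard := by
  refine Set.ncard_le_ncard_of_injOn (dblMap π) ?_ ?_ (ball_finite (dbl_finite hT') n)
  · intro g hg
    refine map_mem_ball (dblMap π) ?_ hg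
    rintro s ⟨i, x, hx, rfl⟩
    exact ⟨i, π x, hmap x hx, (dblMap_inc π i x).symm⟩
  · intro g hg h hh he
    have h1 : g⁻¹ * h ∈ ball (dbl T) (2 * n) := by
      rw [two_mul]
      exact mul_mem_ball (inv_mem_ball hg) hh
    have h2 : dblMap π (g⁻¹ * h) = 1 := by
      rw [map_mul, map_inv, he, inv_mul_cancel]
    obtain ⟨i, l, e1, e2, e3⟩ := exists_alt h1
    rw [← e3, dblMap_alt] at h2
    have h3 : l.map π = [] := by
      refine alt_eq_one i ?_ h2
      intro y hy
      obtain ⟨x, hx, rfl⟩ := List.mem_map.1 hy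
      intro hx1
      obtain ⟨hx2, m, hm⟩ := e1 x hx
      refine hx2 (hinj x ?_ hx1)
      refine ball_mono ?_ (mem_ball_len hm)
      exact (len_le_wcost hx).trans e2
    have h4 : l = [] := List.map_eq_nil_iff.1 h3
    rw [h4] at e3
    have h5 : g⁻¹ * h = 1 := e3.symm
    exact (inv_mul_eq_one.1 h5)

end Compare

end Pool.Agent.H205R3.Grow
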