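import Mathlib
import Pool.Agent.H205R3.GrowB

/-!
The lamplighter group `D₄ ≀ ℤ` and its generating sets `{t, a₀, b_k}`.
-/

set_option autoImplicit false

namespace Pool.Agent.H205R3.Grow

open Filter Topology Monoid

/-- The unrestricted wreath product of `H` and `ℤ`: pairs of a function `f : ℤ → H` and a
shift `s`, with `(f, s)(g, r) = (i ↦ f i * g (i - s), s + r)`. -/
@[ext]
structure Wr (H : Type*) where
  f : ℤ → H
  s : ℤ

namespace Wr

variable {H : Type*} [Group H]

instance : Mul (Wr H) := ⟨fun x y => ⟨fun i => x.f i * y.f (i - x.s), x.s + y.s⟩⟩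
instance : One (Wr H) := ⟨⟨fun _ => 1, 0⟩⟩
instance : Inv (Wr H) := ⟨fun x => ⟨fun i => (x.f (i + x.s))⁻¹, -x.s⟩⟩

@[simp] theorem mul_f (x y : Wr H) (i : ℤ) : (x * y).f i = x.f i * y.f (i - x.s) := rfl
@[simp] theorem mul_s (x y : Wr H) : (x * y).s = x.s + y.s := rfl
@[simp] theorem one_f (i : ℤ) : (1 : Wr H).f i = 1 := rfl
@[simp] theorem one_s : (1 : Wr H).s = 0 := rfl
@[simp] theorem inv_f (x : Wr H) (i : ℤ) : (x⁻¹).f i = (x.f (i + x.s))⁻¹ := rfl
@[simp] theorem inv_s (x : Wr H) : (x⁻¹).s = -x.s := rfl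

instance : Group (Wr H) :=
  Group.ofLeftAxioms
    (by
      intro x y z
      ext i
      · simp [mul_assoc, sub_sub]
      · simp [add_assoc])
    (by
      intro x
      ext i <;> simp)
    (by
      intro x
      ext i <;> simp)

/-- the generator of `ℤ` -/
def t : Wr H := ⟨fun _ => 1, 1⟩

/-- the lamp at position `i` in state `h` -/
def at' (i : ℤ) (h : H) : Wr H := ⟨fun j => if j = i then h else 1, 0⟩

@[simp] theorem t_f (i : ℤ) : (t : Wr H).f i = 1 := rfl
@[simp] theorem t_s : (t : Wr H).s = 1 := rfl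
@[simp] theorem at_s (i : ℤ) (h : H) : (at' i h).s = 0 := rfl
@[simp] theorem at_f (i : ℤ) (h : H) (j : ℤ) : (at' i h).f j = if j = i then h else 1 := rfl

theorem t_zpow (k : ℤ) : (t : Wr H) ^ k = ⟨fun _ => 1, k⟩ := by
  induction k using Int.induction_on with
  | zero => rfl
  | succ n ih =>
    rw [zpow_add_one, ih]
    ext i <;> simp
  | pred n ih =>
    rw [zpow_sub_one, ih]
    ext i <;> simp [sub_eq_add_neg]

theorem conj_at (k : ℤ) (h : H) : t ^ k * at' 0 h * (t ^ k)⁻¹ = at' k h := by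
  rw [t_zpow]
  ext i
  · simp [sub_eq_zero]
  · simp

theorem at_inv (i : ℤ) (h : H) : (at' i h)⁻¹ = at' i h⁻¹ := by
  ext j
  · simp only [inv_f, at_f, at_s, add_zero]
    split_ifs <;> simp
  · simp

/-- the map that applies `φ₁` to the lamps and `φ₂` to the lamps shifted by `k` -/
def piK {A₁ A₂ : Type*} [Group A₁] [Group A₂] (φ₁ : H →* A₁) (φ₂ : H →* A₂) (k : ℤ) :
    Wr H →* Wr (A₁ × A₂) where
  toFun x := ⟨fun i => (φ₁ (x.f i), φ₂ (x.f (i + k))), x.s⟩
  map_one' := by ext i <;> simp
  map_mul' x y := by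
    ext i
    · simp
    · simp [sub_add_eq_add_sub]
    · simp

end Wr

open Wr

/-- the dihedral group of order 8 -/
abbrev D4 := DihedralGroup 4

/-- the cyclic group of order two -/
abbrev C2 := Multiplicative (ZMod 2)

/-- two reflections generating `D₄` -/
def ra : D4 := DihedralGroup.sr 0
/-- two reflections generating `D₄` -/
def rb : D4 := DihedralGroup.sr 1

/-- first character -/
def fun1 : D4 → C2
  | .r i => Multiplicative.ofAdd ((i.val : ℕ) : ZMod 2)
  | .sr i => Multiplicative.ofAdd (((i.val : ℕ) : ZMod 2) + 1)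

/-- second character -/
def fun2 : D4 → C2
  | .r i => Multiplicative.ofAdd ((i.val : ℕ) : ZMod 2)
  | .sr i => Multiplicative.ofAdd ((i.val : ℕ) : ZMod 2)

/-- first character -/
def phi1 : D4 →* C2 := MonoidHom.mk' fun1 (by decide)
/-- second character -/
def phi2 : D4 →* C2 := MonoidHom.mk' fun2 (by decide)

theorem phi1_a : phi1 ra ≠ 1 := by decide
theorem phi1_b : phi1 rb = 1 := by decide
theorem phi2_a : phi2 ra = 1 := by decide
theorem phi2_b : phi2 rb ≠ 1 := by decide
theorem ra_sq : ra * ra = 1 := by decide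
theorem rb_sq : rb * rb = 1 := by decide
theorem comm_ne : ra * rb * ra⁻¹ * rb⁻¹ ≠ 1 := by decide
theorem ra_inv : ra⁻¹ = ra := by decide
theorem rb_inv : rb⁻¹ = rb := by decide

/-- the set `{t, a₀, b_k}` in the unrestricted wreath product -/
def gens (k : ℤ) : Set (Wr D4) := {t, at' 0 ra, at' k rb}

/-- The lamplighter group `D₄ ≀ ℤ`, as the subgroup generated by `t`, `a₀`, `b₀`. -/
def Lamp : Subgroup (Wr D4) := Subgroup.closure (gens 0)

theorem closure_gens (k : ℤ) : Subgroup.closure (gens k) = Lamp := by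
  have ht : ∀ k, t ∈ Subgroup.closure (gens k) := fun k =>
    Subgroup.subset_closure (by simp [gens])
  have ha : ∀ k, at' 0 ra ∈ Subgroup.closure (gens k) := fun k =>
    Subgroup.subset_closure (by simp [gens])
  have hb : ∀ k, at' k rb ∈ Subgroup.closure (gens k) := fun k =>
    Subgroup.subset_closure (by simp [gens])
  apply le_antisymm
  · rw [Subgroup.closure_le]
    rintro x (rfl | rfl | rfl)
    · exact ht 0
    · exact ha 0
    · rw [← conj_at k rb]
      exact mul_mem (mul_mem (zpow_mem (ht 0) k) (hb 0)) (inv_mem (zpow_mem (ht 0) k))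
  · rw [Lamp, Subgroup.closure_le]
    rintro x (rfl | rfl | rfl)
    · exact ht k
    · exact ha k
    · have h1 : at' 0 rb = (t ^ k)⁻¹ * at' k rb * t ^ k := by
        rw [← conj_at k rb]; group
      rw [SetLike.mem_coe, h1]
      exact mul_mem (mul_mem (inv_mem (zpow_mem (ht k) k)) (hb k)) (zpow_mem (ht k) k)

/-- the generating set `{t, a₀, b_k}` of `D₄ ≀ ℤ` -/
def TB (k : ℤ) : Set Lamp := {x | (x : Wr D4) ∈ gens k}

theorem TB_finite (k : ℤ) : (TB k).Finite := by
  have : (gens k).Finite := by simp [gens]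
  exact this.preimage Subtype.val_injective.injOn

theorem TB_closure (k : ℤ) : Subgroup.closure (TB k) = ⊤ := by
  have key : ∀ (L : Subgroup (Wr D4)) (K : Set (Wr D4)), Subgroup.closure K = L →
      Subgroup.closure {x : L | (x : Wr D4) ∈ K} = ⊤ := by
    rintro L K rfl
    exact Subgroup.closure_closure_coe_preimage
  exact key Lamp (gens k) (closure_gens k)

theorem gens_sub (k : ℤ) {x : Wr D4} (hx : x ∈ gens k) : x ∈ Lamp := by
  rw [← closure_gens k]
  exact Subgroup.subset_closure hx

/-- the limit generating set -/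
def gens' : Set (Wr (C2 × C2)) := {t, at' 0 (phi1 ra, 1), at' 0 (1, phi2 rb)}

theorem gens'_finite : gens'.Finite := by simp [gens']

/-- the projection -/
def pr (k : ℤ) : Lamp →* Wr (C2 × C2) := (piK phi1 phi2 k).comp Lamp.subtype

theorem piK_t (k : ℤ) : piK phi1 phi2 k t = t := by
  ext i <;> simp [piK]

theorem piK_a (k : ℤ) : piK phi1 phi2 k (at' 0 ra) = at' 0 (phi1 ra, 1) := by
  ext i
  · simp only [piK, MonoidHom.coe_mk, OneHom.coe_mk, at_f]
    split_ifs <;> simp
  · simp only [piK, MonoidHom.coe_mk, OneHom.coe_mk, at_f]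
    split_ifs <;> simp [phi2_a]
  · simp [piK]

theorem piK_b (k : ℤ) : piK phi1 phi2 k (at' k rb) = at' 0 (1, phi2 rb) := by
  ext i
  · simp only [piK, MonoidHom.coe_mk, OneHom.coe_mk, at_f]
    split_ifs <;> simp [phi1_b]
  · simp only [piK, MonoidHom.coe_mk, OneHom.coe_mk, at_f]
    by_cases h : i = 0
    · subst h
      simp
    · simp [h]
  · simp [piK]

theorem pr_maps (k : ℤ) : ∀ s ∈ TB k, pr k s ∈ gens' := by
  rintro ⟨s, hs0⟩ hs
  have hs' : s = t ∨ s = at' 0 ra ∨ s = at' k rb := hs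
  show piK phi1 phi2 k s ∈ gens'
  rcases hs' with rfl | rfl | rfl
  · rw [piK_t]; simp [gens']
  · rw [piK_a]; simp [gens']
  · rw [piK_b]; simp [gens']

theorem pr_surj (k : ℤ) : ∀ s' ∈ gens', ∃ s ∈ TB k, pr k s = s' := by
  rintro s' (rfl | rfl | rfl)
  · have h : t ∈ gens k := by simp [gens]
    exact ⟨⟨t, gens_sub k h⟩, h, piK_t k⟩
  · have h : at' 0 ra ∈ gens k := by simp [gens]
    exact ⟨⟨at' 0 ra, gens_sub k h⟩, h, piK_a k⟩
  · have h : at' k rb ∈ gens k := by simp [gens]
    exact ⟨⟨at' k rb, gens_sub k h⟩, h, piK_b k⟩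

/-- shape of the short elements -/
theorem shape (k : ℤ) (n : ℕ) (hn : 2 * (n : ℤ) < k) {x : Wr D4} (hx : x ∈ ball (gens k) n) :
    |x.s| ≤ n ∧ ∀ i, x.f i = 1 ∨ (|i| ≤ n ∧ x.f i = ra) ∨ (|i - k| ≤ n ∧ x.f i = rb) := by
  induction n generalizing x with
  | zero =>
    obtain ⟨l, h1, _, rfl⟩ := hx
    have : l = [] := List.length_eq_zero_iff.1 (by omega)
    subst this
    exact ⟨by simp, fun i => Or.inl rfl⟩
  | succ n ih =>
    push_cast at hn
    have hn' : 2 * (n : ℤ) < k := by omega
    have mono : ∀ {y : Wr D4}, (|y.s| ≤ n ∧ ∀ i, y.f i = 1 ∨ (|i| ≤ n ∧ y.f i = ra) ∨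
        (|i - k| ≤ n ∧ y.f i = rb)) → (∀ i, y.f i = 1 ∨ (|i| ≤ (n : ℤ) + 1 ∧ y.f i = ra) ∨
        (|i - k| ≤ (n : ℤ) + 1 ∧ y.f i = rb)) := by
      intro y hy i
      rcases hy.2 i with h | ⟨h, h'⟩ | ⟨h, h'⟩
      · exact Or.inl h
      · exact Or.inr (Or.inl ⟨by omega, h'⟩)
      · exact Or.inr (Or.inr ⟨by omega, h'⟩)
    push_cast
    rcases ball_succ_right hx with h | ⟨s, h, hs, hh, rfl⟩
    · have h1 := ih hn' h
      exact ⟨by have := h1.1; omega, mono h1⟩
    · have h1 := ih hn' hh
      have h2 := mono h1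
      have h3 := h1.1
      -- `s` is one of `t`, `t⁻¹`, `a₀`, `b_k`
      have hs' : s = t ∨ s = t⁻¹ ∨ s = at' 0 ra ∨ s = at' k rb := by
        rcases hs with hs | hs
        · rcases hs with hs | hs | hs
          · exact Or.inl hs
          · exact Or.inr (Or.inr (Or.inl hs))
          · exact Or.inr (Or.inr (Or.inr hs))
        · rcases hs with hs | hs | hs
          · exact Or.inr (Or.inl (by rw [← hs, inv_inv]))
          · refine Or.inr (Or.inr (Or.inl ?_))
            rw [← inv_inv s, hs, at_inv, ra_inv]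
          · have hs2 : s⁻¹ = at' k rb := hs
            refine Or.inr (Or.inr (Or.inr ?_))
            rw [← inv_inv s, hs2, at_inv, rb_inv]
      rcases hs' with rfl | rfl | rfl | rfl
      · refine ⟨?_, fun i => ?_⟩
        · rw [mul_s, t_s]
          rw [abs_le] at h3 ⊢
          omega
        · have := h2 i
          simpa using this
      · refine ⟨?_, fun i => ?_⟩
        · rw [mul_s, inv_s, t_s]
          rw [abs_le] at h3 ⊢
          omega
        · have := h2 i
          simpa using this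
      · refine ⟨?_, fun i => ?_⟩
        · rw [mul_s, at_s]
          rw [abs_le] at h3 ⊢
          omega
        · rw [mul_f, at_f]
          by_cases hi : i - h.s = 0
          · rw [if_pos hi]
            have hi' : |i| ≤ n := by
              have : i = h.s := by omega
              rw [this]; exact h3
            rcases h1.2 i with h4 | ⟨h4, h4'⟩ | ⟨h4, h4'⟩
            · exact Or.inr (Or.inl ⟨by omega, by rw [h4, one_mul]⟩)
            · exact Or.inl (by rw [h4', ra_sq])
            · exfalso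
              rw [abs_le] at h4 hi'
              omega
          · rw [if_neg hi, mul_one]
            exact h2 i
      · refine ⟨?_, fun i => ?_⟩
        · rw [mul_s, at_s]
          rw [abs_le] at h3 ⊢
          omega
        · rw [mul_f, at_f]
          by_cases hi : i - h.s = k
          · rw [if_pos hi]
            have hi' : |i - k| ≤ n := by
              have : i - k = h.s := by omega
              rw [this]; exact h3
            rcases h1.2 i with h4 | ⟨h4, h4'⟩ | ⟨h4, h4'⟩
            · exact Or.inr (Or.inr ⟨by omega, by rw [h4, one_mul]⟩)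
            · exfalso
              rw [abs_le] at h4 hi'
              omega
            · exact Or.inl (by rw [h4', rb_sq])
          · rw [if_neg hi, mul_one]
            exact h2 i

theorem pr_inj (k : ℤ) (n : ℕ) (hn : 2 * (n : ℤ) < k) (x : Lamp) (hx : x ∈ ball (TB k) n)
    (h1 : pr k x = 1) : x = 1 := by
  have hx' : (x : Wr D4) ∈ ball (gens k) n :=
    map_mem_ball Lamp.subtype (fun s hs => hs) hx
  obtain ⟨_, h3⟩ := shape k n hn hx'
  have h2 : piK phi1 phi2 k (x : Wr D4) = 1 := h1
  apply Subtype.ext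
  ext i
  · have e1 : phi1 ((x : Wr D4).f i) = 1 := by
      have := congrArg (fun y => (y.f i).1) h2
      simpa [piK] using this
    have e2 : phi2 ((x : Wr D4).f i) = 1 := by
      have := congrArg (fun y => (y.f (i - k)).2) h2
      simpa [piK] using this
    rcases h3 i with h | ⟨_, h⟩ | ⟨_, h⟩
    · exact h
    · rw [h] at e1
      exact absurd e1 phi1_a
    · rw [h] at e2
      exact absurd e2 phi2_b
  · have := congrArg (fun y => y.s) h2
    simpa [piK] using this

/-- the commutator of `a₀` and `b₀` -/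
def kap : Wr D4 := at' 0 ra * at' 0 rb * (at' 0 ra)⁻¹ * (at' 0 rb)⁻¹

theorem kap_mem : kap ∈ Lamp := by
  have ha : at' 0 ra ∈ Lamp := gens_sub 0 (by simp [gens])
  have hb : at' 0 rb ∈ Lamp := gens_sub 0 (by simp [gens])
  exact mul_mem (mul_mem (mul_mem ha hb) (inv_mem ha)) (inv_mem hb)

theorem kap_ne : kap ≠ 1 := by
  intro h
  have := congrArg (fun y => y.f 0) h
  simp only [kap, mul_f, inv_f, at_f, at_s, inv_s, mul_s] at this
  apply comm_ne
  simpa using this

theorem kap_pr (k : ℤ) : pr k ⟨kap, kap_mem⟩ = 1 := by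
  show piK phi1 phi2 k kap = 1
  rw [kap, map_mul, map_mul, map_mul, map_inv, map_inv]
  have hcomm : ∀ x y : Wr (C2 × C2), x.s = 0 → y.s = 0 → x * y = y * x := by
    intro x y hx hy
    ext i
    · simp [hx, hy, mul_comm]
    · simp [hx, hy, mul_comm]
    · simp [hx, hy]
  rw [hcomm (piK phi1 phi2 k (at' 0 ra)) (piK phi1 phi2 k (at' 0 rb)) rfl rfl]
  group

theorem dbl_closure {B : Type*} [Group B] {T : Set B} (hT : Subgroup.closure T = ⊤) :
    Subgroup.closure (dbl T) = ⊤ := by
  rw [eq_top_iff]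
  intro g _
  induction g using CoprodI.induction_on with
  | one => exact one_mem _
  | of i m =>
    have h1 : (Subgroup.closure T).map (inc i) ≤ Subgroup.closure (dbl T) := by
      rw [MonoidHom.map_closure]
      apply Subgroup.closure_mono
      rintro _ ⟨x, hx, rfl⟩
      exact ⟨i, x, hx, rfl⟩
    apply h1
    refine ⟨m, ?_, rfl⟩
    rw [hT]
    trivial
  | mul x y hx hy => exact mul_mem (hx trivial) (hy trivial)

theorem two_le_gr : 2 ≤ gr (dbl gens') (dbl_finite gens'_finite) := by
  classical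
  have hx1 : (t : Wr (C2 × C2)) ≠ 1 := by
    intro h
    have := congrArg (fun y => y.s) h
    simp at this
  have hx2 : (at' 0 (phi1 ra, 1) : Wr (C2 × C2)) ≠ 1 := by
    intro h
    have := congrArg (fun y => (y.f 0).1) h
    simp at this
    exact phi1_a this
  have hne : (t : Wr (C2 × C2)) ≠ at' 0 (phi1 ra, 1) := by
    intro h
    have := congrArg (fun y => y.s) h
    simp at this
  have hb1 : (t : Wr (C2 × C2)) ∈ ball gens' 1 := mem_ball_one (Or.inl (by simp [gens']))
  have hb2 : (at' 0 (phi1 ra, 1) : Wr (C2 × C2)) ∈ ball gens' 1 :=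
    mem_ball_one (Or.inl (by simp [gens']))
  have hP : 1 ≤ P gens'_finite 1 (2⁻¹ : ℝ) := by
    have hsub : ({t, at' 0 (phi1 ra, 1)} : Finset (Wr (C2 × C2))) ⊆ X gens'_finite 1 := by
      intro x hx
      rw [Finset.mem_insert, Finset.mem_singleton] at hx
      rcases hx with rfl | rfl
      · exact (mem_X _).2 ⟨hx1, hb1⟩
      · exact (mem_X _).2 ⟨hx2, hb2⟩
    have h1 : ∑ x ∈ ({t, at' 0 (phi1 ra, 1)} : Finset (Wr (C2 × C2))), (2⁻¹ : ℝ) ^ len gens' x
        ≤ P gens'_finite 1 (2⁻¹ : ℝ) :=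
      Finset.sum_le_sum_of_subset_of_nonneg hsub fun x _ _ => by positivity
    rw [Finset.sum_pair hne] at h1
    have e : ∀ x : Wr (C2 × C2), x ∈ ball gens' 1 → (2⁻¹ : ℝ) ≤ (2⁻¹ : ℝ) ^ len gens' x := by
      intro x hx
      have := pow_le_pow_of_le_one (a := (2⁻¹ : ℝ)) (by norm_num) (by norm_num) (len_le hx)
      simpa using this
    have e1 := e _ hb1
    have e2 := e _ hb2
    linarith
  have := lower gens'_finite (z := (2⁻¹ : ℝ)) (by norm_num) hP
  simpa using this

/-- The growth rates of the free product of two copies of `D₄ ≀ ℤ` are not well-ordered. -/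
theorem not_wellOrdered :
    ∃ E ⊆ growthRates (Dbl Lamp), E.Nonempty ∧ ¬ ∃ r, IsLeast E r := by
  let e : ℕ → ℝ := fun k => gr (dbl (TB k)) (dbl_finite (TB_finite k))
  have hlow : ∀ k, gr (dbl gens') (dbl_finite gens'_finite) < e k := by
    intro k
    obtain ⟨ℓ, hℓ⟩ := exists_mem_ball (TB_closure k) ⟨kap, kap_mem⟩
    refine gr_lt (TB_finite k) gens'_finite (pr k) (pr_surj k)
      (κ := ⟨kap, kap_mem⟩) ?_ (kap_pr k) hℓ ?_
    · intro h
      exact kap_ne (congrArg Subtype.val h)
    · have := two_le_gr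
      linarith
  refine ⟨Set.range e, ?_, Set.range_nonempty e, ?_⟩
  · rintro _ ⟨k, rfl⟩
    exact ⟨dbl (TB k), dbl_finite (TB_finite k), dbl_closure (TB_closure k), isGrowthRate_gr _⟩
  · rintro ⟨r, ⟨k₀, rfl⟩, hleast⟩
    obtain ⟨r', h1, h2⟩ := exists_between (hlow k₀)
    obtain ⟨n, hn, hn0⟩ := ((eventually_le (dbl_finite gens'_finite) h1).and
      (eventually_ne_atTop 0)).exists
    let k : ℕ := 4 * n + 1
    have h3 : ((ball (dbl (TB k)) n).ncard : ℝ) ≤ r' ^ n := by
      refine le_trans ?_ hn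
      have := ncard_le gens'_finite (pr k) (pr_maps k) (n := n)
        (fun x hx => pr_inj k (2 * n) (by simp only [k]; push_cast; omega) x hx)
      exact_mod_cast this
    have h4 : e k ≤ r' := gr_le_of _ hn0 ((gr_pos _).trans h1).le h3
    have h5 : e k₀ ≤ e k := hleast ⟨k, rfl⟩
    linarith

end Pool.Agent.H205R3.Grow
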