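import Mathlib
import Pool.Agent.H205R3.GrowB

/-!
The free product `B * B` acts acylindrically on its Cayley graph with respect to the union of the
two factors, and this graph is hyperbolic (a tree of cliques).
-/

set_option autoImplicit false
set_option linter.unusedSectionVars false

namespace Pool.Agent.H205R3.Grow

open Filter Topology Monoid

/-- The word metric of the Cayley graph with respect to the (possibly infinite) set `X`. -/
noncomputable def wd {G : Type*} [Group G] (X : Set G) (g h : G) : ℕ := len X (g⁻¹ * h)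

/-- Acylindrically hyperbolic groups: `G` is not virtually cyclic and has a (possibly infinite)
generating set `X` such that the Cayley graph of `G` with respect to `X` is hyperbolic (four point
condition for the word metric) and unbounded, and the action of `G` on it is acylindrical. -/
def AcylindricallyHyperbolic (G : Type*) [Group G] : Prop :=
  (¬ ∃ g : G, (Subgroup.zpowers g).FiniteIndex) ∧
  ∃ X : Set G, Subgroup.closure X = ⊤ ∧
    (∃ δ : ℕ, ∀ x y z w : G,
      wd X x z + wd X y w ≤ max (wd X x y + wd X z w) (wd X x w + wd X y z) + δ) ∧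
    (∀ n : ℕ, ∃ g : G, n < wd X 1 g) ∧
    (∀ ε : ℕ, ∃ R N : ℕ, ∀ x y : G, R ≤ wd X x y →
      {g : G | wd X x (g * x) ≤ ε ∧ wd X y (g * y) ≤ ε}.Finite ∧
      {g : G | wd X x (g * x) ≤ ε ∧ wd X y (g * y) ≤ ε}.ncard ≤ N)

section

variable {B : Type*} [Group B]

/-- the union of the two factors -/
abbrev XX (B : Type*) [Group B] : Set (Dbl B) := dbl (Set.univ : Set B)

theorem XX_closure : Subgroup.closure (XX B) = ⊤ := by
  rw [eq_top_iff]
  intro g _
  induction g using CoprodI.induction_on with
  | one => exact one_mem _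
  | of i m => exact Subgroup.subset_closure ⟨i, m, trivial, rfl⟩
  | mul x y hx hy => exact mul_mem (hx trivial) (hy trivial)

/-- syllable length -/
noncomputable def NN (g : Dbl B) : ℕ := len (XX B) g

theorem alt_inj' {i i' : Bool} {l l' : List B} (h : ∀ x ∈ l, x ≠ 1) (h' : ∀ x ∈ l', x ≠ 1)
    (he : alt i l = alt i' l') : l = l' := by
  classical
  obtain ⟨w, hw1, hw2⟩ := exists_word i l h
  obtain ⟨w', hw1', hw2'⟩ := exists_word i' l' h'
  have h1 : w.prod = w'.prod := by rw [hw2, hw2', he]
  have h2 : w = w' := (CoprodI.Word.equiv (M := fun _ : Bool => B)).symm.injective h1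
  have h3 : altList i l = altList i' l' := by rw [← hw1, ← hw1', h2]
  rw [← altList_map l i, h3, altList_map]

theorem mem_ball_univ (x : B) : x ∈ ball (Set.univ : Set B) 1 := mem_ball_one (Or.inl trivial)

theorem len_univ {x : B} (hx : x ≠ 1) : len (Set.univ : Set B) x = 1 :=
  le_antisymm (len_le (mem_ball_univ x)) (len_pos (mem_ball_univ x) hx)

theorem wcost_univ {l : List B} (h : ∀ x ∈ l, x ≠ 1) : wcost (Set.univ : Set B) l = l.length := by
  induction l with
  | nil => rfl
  | cons x l ih =>
    have h1 := ih (fun y hy => h y (by simp [hy]))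
    have h2 := len_univ (h x (by simp))
    have hc : wcost (Set.univ : Set B) (x :: l) = len Set.univ x + wcost Set.univ l := by
      simp [wcost]
    rw [hc, h1, h2, List.length_cons, add_comm]

theorem exists_rep (g : Dbl B) : ∃ (i : Bool) (l : List B), (∀ x ∈ l, x ≠ 1) ∧ alt i l = g := by
  obtain ⟨n, hn⟩ := exists_mem_ball (XX_closure (B := B)) g
  obtain ⟨i, l, e1, _, e3⟩ := exists_alt hn
  exact ⟨i, l, fun x hx => (e1 x hx).1, e3⟩

theorem NN_alt {i : Bool} {l : List B} (h : ∀ x ∈ l, x ≠ 1) : NN (alt i l) = l.length := by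
  apply le_antisymm
  · have := alt_mem_ball (T := Set.univ) l i (fun x _ => ⟨1, mem_ball_univ x⟩)
    rw [wcost_univ h] at this
    exact len_le this
  · have h1 : alt i l ∈ ball (XX B) (NN (alt i l)) := by
      obtain ⟨n, hn⟩ := exists_mem_ball (XX_closure (B := B)) (alt i l)
      exact mem_ball_len hn
    obtain ⟨i', l', e1, e2, e3⟩ := exists_alt h1
    have h' : ∀ x ∈ l', x ≠ 1 := fun x hx => (e1 x hx).1
    rw [wcost_univ h'] at e2
    have := congrArg List.length (alt_inj' h' h e3)
    omega

theorem NN_R (l : List B) : ∀ (i : Bool) (l' : List B), (∀ x ∈ l, x ≠ 1) → (∀ x ∈ l', x ≠ 1) →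
    NN ((alt i l)⁻¹ * alt (!i) l') = l.length + l'.length := by
  induction l with
  | nil =>
    intro i l' _ h'
    simp [alt, NN_alt h']
  | cons x l ih =>
    intro i l' h h'
    have h1 : ∀ y ∈ x⁻¹ :: l', y ≠ 1 := by
      intro y hy
      rcases List.mem_cons.1 hy with rfl | hy
      · exact inv_ne_one.2 (h x (by simp))
      · exact h' y hy
    have h2 := ih (!i) (x⁻¹ :: l') (fun y hy => h y (by simp [hy])) h1
    have h3 : (alt i (x :: l))⁻¹ * alt (!i) l' = (alt (!i) l)⁻¹ * alt (!(!i)) (x⁻¹ :: l') := by
      simp only [alt, mul_inv_rev, Bool.not_not, map_inv, mul_assoc]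
    rw [h3, h2, List.length_cons, List.length_cons]
    omega

open Classical in
/-- twice the number of common syllables, plus one if the next syllables are in the same factor -/
noncomputable def cp : Bool → List B → Bool → List B → ℕ
  | i, x :: l, i', x' :: l' => if i = i' then (if x = x' then 2 + cp (!i) l (!i') l' else 1) else 0
  | _, _, _, _ => 0

theorem cp_nil_left (i i' : Bool) (l' : List B) : cp i [] i' l' = 0 := by
  cases l' <;> simp [cp]

theorem cp_nil_right (i i' : Bool) (l : List B) : cp i l i' [] = 0 := by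
  cases l <;> simp [cp]

theorem NN_cp (l : List B) : ∀ (i i' : Bool) (l' : List B), (∀ x ∈ l, x ≠ 1) →
    (∀ x ∈ l', x ≠ 1) →
    NN ((alt i l)⁻¹ * alt i' l') + cp i l i' l' = l.length + l'.length := by
  induction l with
  | nil =>
    intro i i' l' _ h'
    simp [alt, NN_alt h', cp_nil_left]
  | cons x l ih =>
    intro i i' l' h h'
    have hl : ∀ y ∈ l, y ≠ 1 := fun y hy => h y (by simp [hy])
    cases l' with
    | nil =>
      have := NN_R (x :: l) i [] h (by simp)
      rw [cp_nil_right]
      simpa [alt] using this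
    | cons x' l' =>
      have hl' : ∀ y ∈ l', y ≠ 1 := fun y hy => h' y (by simp [hy])
      by_cases hi : i = i'
      · subst hi
        by_cases hx : x = x'
        · subst hx
          have h1 := ih (!i) (!i) l' hl hl'
          have h2 : (alt i (x :: l))⁻¹ * alt i (x :: l') = (alt (!i) l)⁻¹ * alt (!i) l' := by
            simp only [alt, mul_inv_rev, mul_assoc]
            rw [inv_mul_cancel_left]
          rw [h2]
          simp only [cp, if_true, List.length_cons]
          omega
        · have h2 : (alt i (x :: l))⁻¹ * alt i (x' :: l')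
              = (alt (!i) l)⁻¹ * alt (!(!i)) ((x⁻¹ * x') :: l') := by
            simp only [alt, mul_inv_rev, Bool.not_not, map_inv, map_mul, mul_assoc]
          have h3 : ∀ y ∈ (x⁻¹ * x') :: l', y ≠ 1 := by
            intro y hy
            rcases List.mem_cons.1 hy with rfl | hy
            · intro hcon
              exact hx (inv_mul_eq_one.1 hcon)
            · exact hl' y hy
          rw [h2, NN_R l (!i) _ hl h3]
          simp only [cp, if_true, if_neg hx, List.length_cons]
          omega
      · have hi' : i' = !i := by cases i <;> cases i' <;> simp_all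
        subst hi'
        rw [NN_R (x :: l) i (x' :: l') h h']
        simp only [cp, if_neg hi, List.length_cons]
        omega

theorem cp_ultra (l : List B) : ∀ (i j k : Bool) (m n : List B),
    min (cp i l j m) (cp j m k n) ≤ cp i l k n := by
  induction l with
  | nil => intro i j k m n; simp [cp_nil_left]
  | cons x l ih =>
    intro i j k m n
    cases m with
    | nil => simp [cp_nil_left, cp_nil_right]
    | cons y m =>
      cases n with
      | nil => simp [cp_nil_right]
      | cons z n =>
        by_cases hij : i = j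
        · by_cases hjk : j = k
          · subst hij; subst hjk
            have h1 := ih (!i) (!i) (!i) m n
            simp only [cp, if_true]
            by_cases hxy : x = y
            · by_cases hyz : y = z
              · subst hxy; subst hyz
                simp only [if_true]
                omega
              · subst hxy
                simp only [if_true, if_neg hyz]
                exact min_le_right _ _
            · by_cases hyz : y = z
              · subst hyz
                simp only [if_true, if_neg hxy]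
                exact min_le_left _ _
              · simp only [if_neg hxy, if_neg hyz]
                split_ifs <;> omega
          · simp only [cp, if_neg hjk]
            omega
        · simp only [cp, if_neg hij]
          omega

theorem NN_inv (g : Dbl B) : NN g⁻¹ = NN g := by
  obtain ⟨i, l, h, rfl⟩ := exists_rep g
  have := NN_cp l i i [] h (by simp)
  rw [cp_nil_right] at this
  simpa [alt, NN_alt h] using this

theorem NN_one : NN (1 : Dbl B) = 0 := by
  have := NN_alt (B := B) (i := false) (l := []) (by simp)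
  simpa [alt] using this

theorem four_point (x y z w : Dbl B) :
    wd (XX B) x z + wd (XX B) y w ≤
      max (wd (XX B) x y + wd (XX B) z w) (wd (XX B) x w + wd (XX B) y z) := by
  obtain ⟨i, a, ha, hx⟩ := exists_rep (w⁻¹ * x)
  obtain ⟨j, b, hb, hy⟩ := exists_rep (w⁻¹ * y)
  obtain ⟨k, c, hc, hz⟩ := exists_rep (w⁻¹ * z)
  have e1 := NN_cp a i k c ha hc
  have e2 := NN_cp a i j b ha hb
  have e3 := NN_cp b j k c hb hc
  have e4 := cp_ultra a i j k b c
  rw [hx, hz] at e1
  rw [hx, hy] at e2
  rw [hy, hz] at e3
  have f1 : (w⁻¹ * x)⁻¹ * (w⁻¹ * z) = x⁻¹ * z := by group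
  have f2 : (w⁻¹ * x)⁻¹ * (w⁻¹ * y) = x⁻¹ * y := by group
  have f3 : (w⁻¹ * y)⁻¹ * (w⁻¹ * z) = y⁻¹ * z := by group
  rw [f1] at e1
  rw [f2] at e2
  rw [f3] at e3
  have g1 : NN (x⁻¹ * w) = a.length := by
    have : x⁻¹ * w = (alt i a)⁻¹ := by rw [hx]; group
    rw [this, NN_inv, NN_alt ha]
  have g2 : NN (y⁻¹ * w) = b.length := by
    have : y⁻¹ * w = (alt j b)⁻¹ := by rw [hy]; group
    rw [this, NN_inv, NN_alt hb]
  have g3 : NN (z⁻¹ * w) = c.length := by
    have : z⁻¹ * w = (alt k c)⁻¹ := by rw [hz]; group
    rw [this, NN_inv, NN_alt hc]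
  show NN (x⁻¹ * z) + NN (y⁻¹ * w) ≤
    max (NN (x⁻¹ * y) + NN (z⁻¹ * w)) (NN (x⁻¹ * w) + NN (y⁻¹ * z))
  rw [g1, g2, g3]
  omega

/-- multiplying an alternating product with a nonempty list by a syllable -/
theorem one_step (j : Bool) (τ : B) (i : Bool) (x : B) (q : List B) (h : ∀ y ∈ x :: q, y ≠ 1) :
    ∃ (i' : Bool) (q' : List B), (∀ y ∈ q', y ≠ 1) ∧ q'.length ≤ q.length + 2 ∧
      ∀ v, inc j τ * alt i ((x :: q) ++ v) = alt i' (q' ++ v) := by
  by_cases hτ : τ = 1
  · subst hτ
    exact ⟨i, x :: q, h, by simp, fun v => by simp⟩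
  by_cases hij : j = i
  · subst hij
    by_cases hx : τ * x = 1
    · refine ⟨!j, q, fun y hy => h y (by simp [hy]), by omega, fun v => ?_⟩
      simp only [List.cons_append, alt]
      rw [← mul_assoc, ← map_mul, hx, map_one, one_mul]
    · refine ⟨j, (τ * x) :: q, ?_, by simp, fun v => ?_⟩
      · intro y hy
        rcases List.mem_cons.1 hy with rfl | hy
        · exact hx
        · exact h y (by simp [hy])
      · simp only [List.cons_append, alt]
        rw [map_mul, mul_assoc]
  · have hi : i = !j := by cases i <;> cases j <;> simp_all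
    subst hi
    refine ⟨j, τ :: x :: q, ?_, by simp, fun v => rfl⟩
    intro y hy
    rcases List.mem_cons.1 hy with rfl | hy
    · exact hτ
    · exact h y hy

/-- left multiplication by an element of syllable length at most `m` changes only the first `m`
syllables -/
theorem left_mul (m : ℕ) : ∀ (g : Dbl B), g ∈ ball (XX B) m → ∀ (i : Bool) (u : List B),
    u.length = m → (∀ y ∈ u, y ≠ 1) →
    ∃ (i' : Bool) (q : List B), (∀ y ∈ q, y ≠ 1) ∧ q.length ≤ 2 * m ∧
      ∀ v, g * alt i (u ++ v) = alt i' (q ++ v) := by
  induction m with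
  | zero =>
    intro g hg i u hu _
    have h1 : g = 1 := by
      obtain ⟨l, e1, _, rfl⟩ := hg
      have : l = [] := List.length_eq_zero_iff.1 (by omega)
      simp [this]
    have h2 : u = [] := List.length_eq_zero_iff.1 hu
    subst h1; subst h2
    exact ⟨i, [], by simp, by simp, fun v => by simp⟩
  | succ m ih =>
    intro g hg i u hu h
    -- write `u = u₁ ++ [x]`
    have hune : u ≠ [] := by
      rintro rfl
      simp at hu
    obtain ⟨u₁, x, rfl⟩ : ∃ (u₁ : List B) (x : B), u = u₁ ++ [x] :=
      ⟨u.dropLast, u.getLast hune, (List.dropLast_append_getLast hune).symm⟩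
    have hu₁ : u₁.length = m := by
      rw [List.length_append, List.length_singleton] at hu
      omega
    have hh₁ : ∀ y ∈ u₁, y ≠ 1 := fun y hy => h y (by simp [hy])
    have hx1 : x ≠ 1 := h x (by simp)
    -- `g = s * g₁`
    obtain ⟨s, g₁, hs, hg₁, rfl⟩ : ∃ s g₁, (∃ (j : Bool) (τ : B), inc j τ = s) ∧
        g₁ ∈ ball (XX B) m ∧ g = s * g₁ := by
      rcases ball_succ hg with h1 | ⟨s, g₁, hs, hg₁, rfl⟩
      · exact ⟨1, g, ⟨false, 1, map_one _⟩, h1, by simp⟩
      · refine ⟨s, g₁, ?_, hg₁, rfl⟩
        rcases hs with ⟨j, τ, _, rfl⟩ | ⟨j, τ, _, hτ⟩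
        · exact ⟨j, τ, rfl⟩
        · exact ⟨j, τ⁻¹, by rw [map_inv, hτ, inv_inv]⟩
    obtain ⟨j, τ, rfl⟩ := hs
    obtain ⟨i₁, q₁, e1, e2, e3⟩ := ih g₁ hg₁ i u₁ hu₁ hh₁
    -- the list `q₁ ++ [x]` is nonempty
    have hne : q₁ ++ [x] ≠ [] := by simp
    obtain ⟨z, q₂, hz⟩ := List.exists_cons_of_ne_nil hne
    have hlen : q₂.length = q₁.length := by
      have := congrArg List.length hz
      simpa using this.symm
    have hq : ∀ y ∈ z :: q₂, y ≠ 1 := by
      rw [← hz]
      intro y hy
      rcases List.mem_append.1 hy with hy | hy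
      · exact e1 y hy
      · rw [List.mem_singleton] at hy
        rw [hy]; exact hx1
    obtain ⟨i', q', f1, f2, f3⟩ := one_step j τ i₁ z q₂ hq
    refine ⟨i', q', f1, by omega, fun v => ?_⟩
    have h4 : g₁ * alt i ((u₁ ++ [x]) ++ v) = alt i₁ ((z :: q₂) ++ v) := by
      have := e3 ([x] ++ v)
      rw [← hz, List.append_assoc, List.append_assoc]
      exact this
    rw [mul_assoc, h4, f3]

theorem cp_take (k : ℕ) : ∀ (i i' : Bool) (l l' : List B), 2 * k ≤ cp i l i' l' →
    l.take k = l'.take k ∧ (1 ≤ k → i = i') := by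
  induction k with
  | zero =>
    intro i i' l l' _
    exact ⟨by simp, by omega⟩
  | succ k ih =>
    intro i i' l l' h
    cases l with
    | nil => rw [cp_nil_left] at h; omega
    | cons x l =>
      cases l' with
      | nil => rw [cp_nil_right] at h; omega
      | cons x' l' =>
        by_cases hi : i = i'
        · subst hi
          by_cases hx : x = x'
          · subst hx
            simp only [cp, if_true] at h
            have h1 := (ih (!i) (!i) l l' (by omega)).1
            exact ⟨by simp [h1], fun _ => rfl⟩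
          · simp only [cp, if_true, if_neg hx] at h
            omega
        · simp only [cp, if_neg hi] at h
          omega

theorem NN_mem_ball (g : Dbl B) {m : ℕ} (h : NN g ≤ m) : g ∈ ball (XX B) m := by
  obtain ⟨n, hn⟩ := exists_mem_ball (XX_closure (B := B)) g
  exact ball_mono h (mem_ball_len hn)

theorem acyl (m : ℕ) (x y : Dbl B) (hR : 3 * m ≤ wd (XX B) x y) :
    ∃ f : ℕ → Dbl B, {g : Dbl B | wd (XX B) x (g * x) ≤ m ∧ wd (XX B) y (g * y) ≤ m} ⊆
      f '' (Finset.range (2 * m + 1) : Set ℕ) := by
  obtain ⟨i, l, hl, hw⟩ := exists_rep (x⁻¹ * y)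
  have hlen : NN (x⁻¹ * y) = l.length := by rw [← hw, NN_alt hl]
  have hR' : 3 * m ≤ l.length := by
    rw [← hlen]; exact hR
  refine ⟨fun j => x * (alt i (l.take j) * (alt i (l.take m))⁻¹) * x⁻¹, ?_⟩
  rintro g ⟨h1, h2⟩
  set g' := x⁻¹ * (g * x) with hg'
  have h1' : NN g' ≤ m := h1
  have h2' : NN ((alt i l)⁻¹ * (g' * alt i l)) ≤ m := by
    have : (alt i l)⁻¹ * (g' * alt i l) = y⁻¹ * (g * y) := by
      rw [hw, hg']; group
    rw [this]
    exact h2
  have hu : (l.take m).length = m := by
    rw [List.length_take]; omega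
  obtain ⟨i', q, e1, e2, e3⟩ := left_mul m g' (NN_mem_ball g' h1') i (l.take m) hu
    (fun y hy => hl y (List.mem_of_mem_take hy))
  have h4 : g' * alt i l = alt i' (q ++ l.drop m) := by
    have := e3 (l.drop m)
    rwa [List.take_append_drop] at this
  have h5 : g' * alt i (l.take m) = alt i' q := by
    have := e3 []
    simpa using this
  have hne : ∀ y ∈ q ++ l.drop m, y ≠ 1 := by
    intro y hy
    rcases List.mem_append.1 hy with hy | hy
    · exact e1 y hy
    · exact hl y (List.mem_of_mem_drop hy)
  have h6 := NN_cp l i i' (q ++ l.drop m) hl hne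
  rw [← h4] at h6
  have h7 : (q ++ l.drop m).length = q.length + (l.length - m) := by
    rw [List.length_append, List.length_drop]
  rw [h7] at h6
  have h8 : 2 * q.length ≤ cp i l i' (q ++ l.drop m) := by omega
  obtain ⟨h9, h10⟩ := cp_take q.length i i' l (q ++ l.drop m) h8
  rw [List.take_left'] at h9
  swap
  · rfl
  refine ⟨q.length, ?_, ?_⟩
  · rw [Finset.mem_coe, Finset.mem_range]; omega
  · have h11 : alt i (l.take q.length) = alt i' q := by
      rw [h9]
      rcases Nat.eq_zero_or_pos q.length with h0 | h0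
      · have : q = [] := List.length_eq_zero_iff.1 h0
        rw [this]; rfl
      · rw [h10 h0]
    show x * (alt i (l.take q.length) * (alt i (l.take m))⁻¹) * x⁻¹ = g
    rw [h11, ← h5, hg']
    group

theorem unbounded {b : B} (hb : b ≠ 1) (n : ℕ) : ∃ g : Dbl B, n < wd (XX B) 1 g := by
  refine ⟨alt false (List.replicate (n + 1) b), ?_⟩
  show n < NN ((1 : Dbl B)⁻¹ * _)
  rw [inv_one, one_mul, NN_alt]
  · simp
  · intro x hx
    rw [List.eq_of_mem_replicate hx]
    exact hb

/-- the free product of two copies of a nontrivial group is acylindrically hyperbolic, if it is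
not virtually cyclic -/
theorem acylindricallyHyperbolic {b : B} (hb : b ≠ 1)
    (hvc : ¬ ∃ g : Dbl B, (Subgroup.zpowers g).FiniteIndex) :
    AcylindricallyHyperbolic (Dbl B) := by
  refine ⟨hvc, XX B, XX_closure, ⟨0, fun x y z w => by simpa using four_point x y z w⟩,
    unbounded hb, ?_⟩
  intro ε
  refine ⟨3 * ε, 2 * ε + 1, ?_⟩
  intro x y hR
  obtain ⟨f, hf⟩ := acyl ε x y hR
  have hfin : (f '' (Finset.range (2 * ε + 1) : Set ℕ)).Finite := (Finset.finite_toSet _).image f
  refine ⟨hfin.subset hf, ?_⟩
  calc _ ≤ (f '' (Finset.range (2 * ε + 1) : Set ℕ)).ncard := Set.ncard_le_ncard hf hfin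
    _ ≤ ((Finset.range (2 * ε + 1) : Finset ℕ) : Set ℕ).ncard :=
      Set.ncard_image_le (Finset.finite_toSet _)
    _ = 2 * ε + 1 := by rw [Set.ncard_coe_finset, Finset.card_range]

end

end Pool.Agent.H205R3.Grow
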