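import Mathlib
import Pool.Agent.H205R3.GrowD

/-!
Reduced words in the free product `B * B`, the crossing lemma, and the fact that shortest
representatives modulo the kernel do not contain a long kernel element as a subword.
-/

set_option autoImplicit false
set_option linter.unusedSectionVars false

namespace Pool.Agent.H205R3.Grow

open Filter Topology Monoid

section Red

variable {B : Type*} [Group B]

/-- syllables -/
abbrev SB (B : Type*) := Σ _ : Bool, B

/-- the product of a list of syllables -/
def val (L : List (SB B)) : Dbl B := (L.map fun p => inc p.1 p.2).prod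

/-- reduced lists of syllables -/
def Red (L : List (SB B)) : Prop := (∀ p ∈ L, p.2 ≠ 1) ∧ L.IsChain (fun p q => p.1 ≠ q.1)

@[simp] theorem val_nil : val ([] : List (SB B)) = 1 := rfl
@[simp] theorem val_cons (p : SB B) (L : List (SB B)) : val (p :: L) = inc p.1 p.2 * val L := by
  simp [val]
@[simp] theorem val_append (L L' : List (SB B)) : val (L ++ L') = val L * val L' := by
  simp [val]

theorem red_nil : Red ([] : List (SB B)) := ⟨by simp, List.isChain_nil⟩

theorem red_append {L L' : List (SB B)} : Red (L ++ L') ↔ Red L ∧ Red L' ∧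
    ∀ p ∈ L.getLast?, ∀ q ∈ L'.head?, p.1 ≠ q.1 := by
  unfold Red
  rw [List.isChain_append]
  simp only [List.mem_append]
  constructor
  · rintro ⟨h1, h2, h3, h4⟩
    exact ⟨⟨fun p hp => h1 p (Or.inl hp), h2⟩, ⟨fun p hp => h1 p (Or.inr hp), h3⟩, h4⟩
  · rintro ⟨⟨h1, h2⟩, ⟨h3, h4⟩, h5⟩
    exact ⟨fun p hp => hp.elim (h1 p) (h3 p), h2, h4, h5⟩

theorem red_cons {p : SB B} {L : List (SB B)} : Red (p :: L) ↔ p.2 ≠ 1 ∧ Red L ∧
    ∀ q ∈ L.head?, p.1 ≠ q.1 := by
  unfold Red
  rw [List.isChain_cons]
  simp only [List.mem_cons]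
  constructor
  · rintro ⟨h1, h2, h3⟩
    exact ⟨h1 p (Or.inl rfl), ⟨fun q hq => h1 q (Or.inr hq), h3⟩, h2⟩
  · rintro ⟨h1, ⟨h2, h3⟩, h4⟩
    refine ⟨?_, h4, h3⟩
    rintro q (rfl | hq)
    · exact h1
    · exact h2 q hq

theorem red_inj {L L' : List (SB B)} (h : Red L) (h' : Red L') (he : val L = val L') :
    L = L' := by
  classical
  let w : CoprodI.Word (fun _ : Bool => B) := ⟨L, h.1, h.2⟩
  let w' : CoprodI.Word (fun _ : Bool => B) := ⟨L', h'.1, h'.2⟩
  have h1 : w.prod = w'.prod := he
  have h2 : w = w' := (CoprodI.Word.equiv (M := fun _ : Bool => B)).symm.injective h1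
  exact congrArg CoprodI.Word.toList h2

theorem exists_red (g : Dbl B) : ∃ L : List (SB B), Red L ∧ val L = g := by
  classical
  let w := (CoprodI.Word.equiv (M := fun _ : Bool => B)) g
  refine ⟨w.toList, ⟨w.ne_one, w.chain_ne⟩, ?_⟩
  exact (CoprodI.Word.equiv (M := fun _ : Bool => B)).symm_apply_apply g

theorem altList_of_chain (L : List (SB B)) : ∀ i, (∀ p ∈ L.head?, p.1 = i) →
    L.IsChain (fun p q => p.1 ≠ q.1) → L = altList i (L.map (fun p => p.2)) := by
  induction L with
  | nil => intro i _ _; rfl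
  | cons p L ih =>
    intro i h1 h2
    have hp : p.1 = i := h1 p (by simp)
    rw [List.isChain_cons] at h2
    have h3 := ih (!i) (by
      intro q hq
      have := h2.1 q hq
      rw [hp] at this
      exact Bool.eq_not.2 (Ne.symm this)) h2.2
    simp only [List.map_cons, altList]
    rw [← h3, ← hp]

theorem NN_val {L : List (SB B)} (h : Red L) : NN (val L) = L.length := by
  obtain ⟨i, hi⟩ : ∃ i, ∀ p ∈ L.head?, p.1 = i := by
    cases L with
    | nil => exact ⟨true, by simp⟩
    | cons p L => exact ⟨p.1, by simp⟩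
  have h1 := altList_of_chain L i hi h.2
  have h2 : val L = alt i (L.map (fun p => p.2)) := by
    rw [← altList_prod, ← h1]
    rfl
  rw [h2, NN_alt, List.length_map]
  intro x hx
  obtain ⟨p, hp, rfl⟩ := List.mem_map.1 hx
  exact h.1 p hp

theorem NN_mul_le (g h : Dbl B) : NN (g * h) ≤ NN g + NN h :=
  len_le (mul_mem_ball (NN_mem_ball g le_rfl) (NN_mem_ball h le_rfl))

/-- inverse of a word -/
def invL (L : List (SB B)) : List (SB B) := (L.map fun p => (⟨p.1, p.2⁻¹⟩ : SB B)).reverse

theorem val_invL (L : List (SB B)) : val (invL L) = (val L)⁻¹ := by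
  induction L with
  | nil => simp [invL]
  | cons p L ih =>
    have : invL (p :: L) = invL L ++ [⟨p.1, p.2⁻¹⟩] := by simp [invL]
    rw [this, val_append, ih]
    simp

theorem red_invL {L : List (SB B)} (h : Red L) : Red (invL L) := by
  constructor
  · intro p hp
    simp only [invL, List.mem_reverse, List.mem_map] at hp
    obtain ⟨q, hq, rfl⟩ := hp
    exact inv_ne_one.2 (h.1 q hq)
  · rw [invL, List.isChain_reverse, List.isChain_map]
    exact h.2.imp (fun a b hab => Ne.symm hab)

theorem getLast_invL (L : List (SB B)) {p : SB B} (hp : p ∈ (invL L).getLast?) :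
    ∃ q ∈ L.head?, p.1 = q.1 := by
  rw [invL, List.getLast?_reverse, List.head?_map] at hp
  cases L with
  | nil => simp at hp
  | cons q L =>
    refine ⟨q, by simp, ?_⟩
    simp only [List.head?_cons, Option.map_some, Option.mem_def, Option.some.injEq] at hp
    rw [← hp]

/-- crossing lemma -/
theorem crossing (P : List (SB B)) : ∀ (U Q : List (SB B)), Red U → Red (P ++ Q) →
    ¬ P <+: U → ∃ W, Red (W ++ Q) ∧ (val U)⁻¹ * val (P ++ Q) = val (W ++ Q) := by
  induction P with
  | nil => intro U Q _ _ h; exact absurd List.nil_prefix h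
  | cons p P ih =>
    intro U Q hU hPQ hn
    cases U with
    | nil => exact ⟨p :: P, hPQ, by simp⟩
    | cons u U =>
      have hU' := red_cons.1 hU
      have hPQ' := red_cons.1 (show Red (p :: (P ++ Q)) from hPQ)
      by_cases hu : u = p
      · subst hu
        obtain ⟨W, h1, h2⟩ := ih U Q hU'.2.1 hPQ'.2.1
          (fun h => hn (List.cons_prefix_cons.2 ⟨rfl, h⟩))
        refine ⟨W, h1, ?_⟩
        rw [← h2]
        simp only [val_cons, List.cons_append, mul_inv_rev]
        group
      · by_cases h1 : u.1 = p.1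
        · have h2 : u.2⁻¹ * p.2 ≠ 1 := by
            intro h
            apply hu
            have h3 : u.2 = p.2 := inv_mul_eq_one.1 h
            rcases u with ⟨u1, u2⟩
            rcases p with ⟨p1, p2⟩
            simp only at h1 h3
            rw [h1, h3]
          refine ⟨invL U ++ (⟨p.1, u.2⁻¹ * p.2⟩ :: P), ?_, ?_⟩
          · rw [List.append_assoc, List.cons_append, red_append]
            refine ⟨red_invL hU'.2.1, red_cons.2 ⟨h2, hPQ'.2.1, hPQ'.2.2⟩, ?_⟩
            intro a ha b hb
            obtain ⟨q, hq, hq'⟩ := getLast_invL U ha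
            simp only [List.head?_cons, Option.mem_def, Option.some.injEq] at hb
            rw [hq', ← hb]
            intro hcon
            exact hU'.2.2 q hq (h1.trans hcon.symm)
          · simp only [val_cons, List.cons_append, mul_inv_rev, val_append, val_invL, map_mul,
              map_inv, mul_assoc, h1]
        · refine ⟨invL (u :: U) ++ (p :: P), ?_, ?_⟩
          · rw [List.append_assoc, List.cons_append, red_append]
            refine ⟨red_invL hU, hPQ, ?_⟩
            intro a ha b hb
            obtain ⟨q, hq, hq'⟩ := getLast_invL (u :: U) ha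
            simp only [List.head?_cons, Option.mem_def, Option.some.injEq] at hb hq
            rw [hq', ← hb, ← hq]
            exact h1
          · simp only [List.cons_append, val_append, val_invL, val_cons, mul_assoc]

end Red

section Short

variable {B : Type*} [Group B] {S : Set (Dbl B)}

theorem NN_le_of_ball {C : ℕ} (hC : ∀ s ∈ S, NN s ≤ C) {n : ℕ} : ∀ {g : Dbl B},
    g ∈ ball S n → NN g ≤ C * n := by
  induction n with
  | zero =>
    rintro g ⟨l, h1, _, rfl⟩
    have : l = [] := List.length_eq_zero_iff.1 (by omega)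
    subst this
    simp [NN_one]
  | succ n ih =>
    intro g hg
    rcases ball_succ hg with h | ⟨s, h, hs, hh, rfl⟩
    · exact (ih h).trans (Nat.mul_le_mul_left C (Nat.le_succ n))
    · have h1 := NN_mul_le s h
      have h2 := ih hh
      have h3 : NN s ≤ C := by
        rcases hs with hs | hs
        · exact hC s hs
        · rw [← NN_inv]; exact hC _ hs
      rw [Nat.mul_succ]
      omega

theorem exists_suffix_bound (hS : S.Finite) (hgen : Subgroup.closure S = ⊤) :
    ∃ D : ℕ, ∀ s : Dbl B, (s ∈ S ∨ s⁻¹ ∈ S) → ∀ W Q : List (SB B), Red (W ++ Q) →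
      s = val (W ++ Q) → val Q ∈ ball S D := by
  classical
  have h1 : ∀ s : Dbl B, ∃ D : ℕ, ∀ W Q : List (SB B), Red (W ++ Q) →
      s = val (W ++ Q) → val Q ∈ ball S D := by
    intro s
    obtain ⟨L, hL, hLs⟩ := exists_red s
    have h2 : ∀ m : ℕ, ∃ n, val (L.drop m) ∈ ball S n := fun m => exists_mem_ball hgen _
    choose n hn using h2
    refine ⟨(Finset.range (L.length + 1)).sup n, ?_⟩
    intro W Q hWQ hs
    have h3 : L = W ++ Q := red_inj hL hWQ (hLs.trans hs)
    have h4 : Q = L.drop W.length := by rw [h3, List.drop_left]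
    have h5 : W.length ∈ Finset.range (L.length + 1) := by
      rw [Finset.mem_range, h3, List.length_append]; omega
    rw [h4]
    exact ball_mono (Finset.le_sup (f := n) h5) (hn _)
  choose D hD using h1
  have hfin : (S ∪ S⁻¹).Finite := hS.union hS.inv
  refine ⟨hfin.toFinset.sup D, ?_⟩
  intro s hs W Q hWQ hsv
  have hs' : s ∈ hfin.toFinset := by
    rw [Set.Finite.mem_toFinset]
    rcases hs with hs | hs
    · exact Or.inl hs
    · exact Or.inr (by simpa using hs)
  exact ball_mono (Finset.le_sup (f := D) hs') (hD s W Q hWQ hsv)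

/-- `g` starts with the word `P` -/
def HasPref (P : List (SB B)) (g : Dbl B) : Prop := ∃ Q, Red (P ++ Q) ∧ g = val (P ++ Q)

theorem first_entry {D : ℕ} (hD : ∀ s : Dbl B, (s ∈ S ∨ s⁻¹ ∈ S) → ∀ W Q : List (SB B),
      Red (W ++ Q) → s = val (W ++ Q) → val Q ∈ ball S D)
    (P : List (SB B)) (w : List (Dbl B)) (hw : ∀ x ∈ w, x ∈ S ∨ x⁻¹ ∈ S)
    (hlast : HasPref P w.prod) :
    ∃ j ≤ w.length, HasPref P (w.take j).prod ∧ (∀ i < j, ¬ HasPref P (w.take i).prod) ∧
      (val P)⁻¹ * (w.take j).prod ∈ ball S D := by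
  classical
  have hex : ∃ j, HasPref P (w.take j).prod := ⟨w.length, by rwa [List.take_length]⟩
  let j := Nat.find hex
  have hj : HasPref P (w.take j).prod := Nat.find_spec hex
  have hmin : ∀ i < j, ¬ HasPref P (w.take i).prod := fun i hi => Nat.find_min hex hi
  have hjle : j ≤ w.length := Nat.find_min' hex (by rwa [List.take_length])
  refine ⟨j, hjle, hj, hmin, ?_⟩
  rcases Nat.eq_zero_or_pos j with h0 | hpos
  · -- `j = 0`, so `P` is empty
    obtain ⟨Q, hQ, hQ'⟩ := hj
    rw [h0, List.take_zero, List.prod_nil] at hQ'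
    have h1 : P ++ Q = [] := red_inj hQ red_nil (by rw [← hQ']; rfl)
    have h2 : P = [] := (List.append_eq_nil_iff.1 h1).1
    rw [h2, h0]
    simpa using one_mem_ball D
  · obtain ⟨i, hi⟩ : ∃ i, j = i + 1 := ⟨j - 1, by omega⟩
    have hi' : i < w.length := by omega
    have hprev := hmin i (by omega)
    have hstep : (w.take j).prod = (w.take i).prod * w[i] := by
      rw [hi, List.take_add_one, List.prod_append]
      simp [hi']
    obtain ⟨Q, hQ, hQ'⟩ := hj
    obtain ⟨U, hU, hUv⟩ := exists_red (w.take i).prod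
    have hnp : ¬ P <+: U := by
      rintro ⟨T, hT⟩
      apply hprev
      exact ⟨T, by rw [hT]; exact hU, by rw [hT, hUv]⟩
    obtain ⟨W, hW, hWv⟩ := crossing P U Q hU hQ hnp
    have hs : w[i] = val (W ++ Q) := by
      rw [← hWv, hUv, ← hQ', hstep, inv_mul_cancel_left]
    have h1 := hD w[i] (hw _ (List.getElem_mem hi')) W Q hW hs
    rw [hQ', val_append, inv_mul_cancel_left]
    exact h1

theorem take_drop_mem {w : List (Dbl B)} (hw : ∀ x ∈ w, x ∈ S ∨ x⁻¹ ∈ S) (i j : ℕ) (hij : i ≤ j) :
    ((w.take i).prod)⁻¹ * (w.take j).prod ∈ ball S (j - i) := by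
  have h1 : w.take j = w.take i ++ (w.take j).drop i := by
    have := List.take_append_drop i (w.take j)
    rw [List.take_take, min_eq_left hij] at this
    exact this.symm
  refine ⟨(w.take j).drop i, ?_, ?_, ?_⟩
  · rw [List.length_drop, List.length_take]; omega
  · intro x hx
    exact hw x (List.mem_of_mem_take (List.mem_of_mem_drop hx))
  · conv_rhs => rw [h1]
    rw [List.prod_append, inv_mul_cancel_left]

/-- shortest representatives modulo a normal subgroup (given by a homomorphism) do not contain long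
words of the kernel -/
theorem short_no_infix {G' : Type*} [Group G'] (ψ : Dbl B →* G')
    (hgen : Subgroup.closure S = ⊤) {C D : ℕ}
    (hC : ∀ s ∈ S, NN s ≤ C) (hD : ∀ s : Dbl B, (s ∈ S ∨ s⁻¹ ∈ S) → ∀ W Q : List (SB B),
      Red (W ++ Q) → s = val (W ++ Q) → val Q ∈ ball S D)
    {X : List (SB B)} (hX : ψ (val X) = 1) (hXlen : C * (4 * D) < X.length)
    {L : List (SB B)} (hL : Red L) (hshort : ∀ h, ψ h = ψ (val L) → len S (val L) ≤ len S h) :
    ¬ X <:+: L := by
  rintro ⟨P, Q, hPQ⟩
  obtain ⟨n, hn⟩ := exists_mem_ball hgen (val L)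
  obtain ⟨w, hw1, hw2, hw3⟩ := mem_ball_len hn
  have hredPX : Red (P ++ X) := by
    rw [← hPQ] at hL
    exact (red_append.1 hL).1
  have hredP : Red P := (red_append.1 hredPX).1
  have hredX : Red X := (red_append.1 hredPX).2.1
  have hp1 : HasPref P w.prod := ⟨X ++ Q, by rw [← List.append_assoc, hPQ]; exact hL,
    by rw [hw3, ← List.append_assoc, hPQ]⟩
  have hp2 : HasPref (P ++ X) w.prod := ⟨Q, by rw [hPQ]; exact hL, by rw [hw3, hPQ]⟩
  obtain ⟨j, hj, hj1, hj2, hj3⟩ := first_entry hD P w hw2 hp1
  obtain ⟨k, hk, hk1, hk2, hk3⟩ := first_entry hD (P ++ X) w hw2 hp2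
  have hjk : j ≤ k := by
    by_contra hcon
    push Not at hcon
    apply hj2 k hcon
    obtain ⟨Q', hQ', hQ''⟩ := hk1
    exact ⟨X ++ Q', by rw [← List.append_assoc]; exact hQ', by rw [hQ'', List.append_assoc]⟩
  -- the two error terms
  set r := (val P)⁻¹ * (w.take j).prod with hr
  set r' := (val (P ++ X))⁻¹ * (w.take k).prod with hr'
  have e1 := take_drop_mem hw2 j k hjk
  have e2 := take_drop_mem hw2 k w.length hk
  have e3 : (w.take j).prod ∈ ball S j := by
    have := take_drop_mem hw2 0 j (Nat.zero_le j)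
    simpa using this
  rw [List.take_length, hw3] at e2
  -- the shortened element
  have hh : (w.take j).prod * r⁻¹ * r' * (((w.take k).prod)⁻¹ * val L) = val P * val Q := by
    rw [hr, hr', ← hPQ]
    simp only [val_append]
    group
  have hψ : ψ (val P * val Q) = ψ (val L) := by
    rw [← hPQ]
    simp only [val_append, map_mul, hX, mul_one]
  have h1 := hshort _ hψ
  have h2 : val P * val Q ∈ ball S (j + D + D + (w.length - k)) := by
    rw [← hh]
    exact mul_mem_ball (mul_mem_ball (mul_mem_ball e3 (inv_mem_ball hj3)) hk3) e2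
  have h3 := len_le h2
  have h4 : k - j ≤ 2 * D := by omega
  have h5 : val X = r * (((w.take j).prod)⁻¹ * (w.take k).prod) * r'⁻¹ := by
    rw [hr, hr']
    simp only [val_append]
    group
  have h6 : val X ∈ ball S (D + (k - j) + D) := by
    rw [h5]
    exact mul_mem_ball (mul_mem_ball hj3 e1) (inv_mem_ball hk3)
  have h7 := NN_le_of_ball hC (ball_mono (show D + (k - j) + D ≤ 4 * D by omega) h6)
  rw [NN_val hredX] at h7
  omega

end Short

end Pool.Agent.H205R3.Grow
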