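import Mathlib
import Pool.Agent.H205R3.GrowE

/-!
Growth tightness of the free product `B * B` for quotients induced by homomorphisms of `B`.
-/

set_option autoImplicit false
set_option linter.unusedSectionVars false

namespace Pool.Agent.H205R3.Grow

open Filter Topology Monoid

section FreeSet

variable {G : Type*} [Group G] {S : Set G}

theorem prod_mem_ball {l : List G} (h : ∀ y ∈ l, ∃ n, y ∈ ball S n) :
    l.prod ∈ ball S (wcost S l) := by
  induction l with
  | nil => exact one_mem_ball _
  | cons x l ih =>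
    obtain ⟨n, hn⟩ := h x (by simp)
    have h2 := mul_mem_ball (mem_ball_len hn) (ih (fun y hy => h y (by simp [hy])))
    simpa [wcost] using h2

/-- a finite set of free generators of a free submonoid bounds the growth rate from below -/
theorem lower_free (hS : S.Finite) (Y : Finset G) (hreach : ∀ y ∈ Y, ∃ n, y ∈ ball S n)
    (hinj : ∀ l l' : List G, (∀ y ∈ l, y ∈ Y) → (∀ y ∈ l', y ∈ Y) → l.prod = l'.prod → l = l')
    {z : ℝ} (hz0 : 0 < z) (hP : 1 ≤ ∑ y ∈ Y, z ^ len S y) : z⁻¹ ≤ gr S hS := by
  classical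
  by_contra hcon
  push Not at hcon
  obtain ⟨r, hr1, hr2⟩ := exists_between hcon
  have hr0 : 0 < r := (gr_pos _).trans hr1
  have hrz : r * z < 1 := by
    rwa [← lt_div_iff₀ hz0, one_div]
  have hsum : Summable (fun n : ℕ => ((ball S n).ncard : ℝ) * z ^ n) := by
    have hgeo : Summable (fun n : ℕ => (r * z) ^ n) :=
      summable_geometric_of_lt_one (by positivity) hrz
    refine Summable.of_norm_bounded_eventually_nat hgeo ?_
    filter_upwards [eventually_le hS hr1] with n hn
    rw [Real.norm_of_nonneg (by positivity), mul_pow]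
    exact mul_le_mul_of_nonneg_right hn (by positivity)
  set C : ℝ := ∑' n : ℕ, ((ball S n).ncard : ℝ) * z ^ n with hC
  have key : ∀ M : ℕ, (M : ℝ) ≤ C := by
    intro M
    let Λ : Finset (List G) := listsLt Y M
    have h1 : (M : ℝ) ≤ ∑ l ∈ Λ, z ^ wcost S l := by
      rw [sum_listsLt]
      calc (M : ℝ) = ∑ m ∈ Finset.range M, (1 : ℝ) := by simp
        _ ≤ ∑ m ∈ Finset.range M, (∑ x ∈ Y, z ^ len S x) ^ m :=
          Finset.sum_le_sum fun m _ => one_le_pow₀ hP
    let N : ℕ := (Λ.sup (wcost S)) + 1
    have h2 : ∑ l ∈ Λ, z ^ wcost S l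
        = ∑ n ∈ Finset.range N, ∑ l ∈ Λ with wcost S l = n, z ^ wcost S l := by
      rw [Finset.sum_fiberwise_of_maps_to]
      intro l hl
      rw [Finset.mem_range]
      have := Finset.le_sup (f := wcost S) hl
      show wcost S l < Λ.sup (wcost S) + 1
      omega
    have h3 : ∀ n : ℕ, ∑ l ∈ Λ with wcost S l = n, z ^ wcost S l
        ≤ ((ball S n).ncard : ℝ) * z ^ n := by
      intro n
      have h4 : ∑ l ∈ Λ with wcost S l = n, z ^ wcost S l
          = ((Λ.filter (fun l => wcost S l = n)).card : ℝ) * z ^ n := by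
        rw [Finset.sum_congr rfl (g := fun _ => z ^ n)]
        · simp
        · intro l hl
          rw [(Finset.mem_filter.1 hl).2]
      rw [h4]
      apply mul_le_mul_of_nonneg_right _ (by positivity)
      norm_cast
      rw [← Set.ncard_coe_finset]
      refine Set.ncard_le_ncard_of_injOn List.prod ?_ ?_ (ball_finite hS n)
      · intro l hl
        have hl' := Finset.mem_filter.1 (Finset.mem_coe.1 hl)
        have := prod_mem_ball (S := S) (l := l) (fun x hx =>
          hreach x ((mem_listsLt.1 hl'.1).2 x hx))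
        rwa [hl'.2] at this
      · intro l hl l' hl' he
        have hl1 := (Finset.mem_filter.1 (Finset.mem_coe.1 hl)).1
        have hl1' := (Finset.mem_filter.1 (Finset.mem_coe.1 hl')).1
        exact hinj l l' (mem_listsLt.1 hl1).2 (mem_listsLt.1 hl1').2 he
    calc (M : ℝ) ≤ ∑ l ∈ Λ, z ^ wcost S l := h1
      _ = ∑ n ∈ Finset.range N, ∑ l ∈ Λ with wcost S l = n, z ^ wcost S l := h2
      _ ≤ ∑ n ∈ Finset.range N, ((ball S n).ncard : ℝ) * z ^ n :=
        Finset.sum_le_sum fun n _ => h3 n
      _ ≤ C := hsum.sum_le_tsum _ (fun n _ => by positivity)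
  obtain ⟨M, hM⟩ := exists_nat_gt C
  exact absurd (key M) (not_le.2 hM)

/-- divergence of the growth series at the inverse of the growth rate -/
theorem diverge (hS : S.Finite) (hgr : 1 < gr S hS) (M : ℝ) :
    ∃ n, M < ∑ g ∈ (ball_finite hS n).toFinset, ((gr S hS)⁻¹) ^ len S g := by
  classical
  by_contra hcon
  push Not at hcon
  set z := (gr S hS)⁻¹ with hz
  have hρ0 : 0 < gr S hS := gr_pos _
  have hz0 : 0 < z := inv_pos.2 hρ0
  have hz1 : z < 1 := inv_lt_one_of_one_lt₀ hgr
  have hz' : 0 < (1 - z)⁻¹ := inv_pos.2 (by linarith)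
  have hball : ∀ n : ℕ, 1 ≤ ((ball S n).ncard : ℝ) * z ^ n := by
    intro n
    have h1 := gr_pow_le hS n
    have h2 : (gr S hS) ^ n * z ^ n = 1 := by
      rw [← mul_pow, hz, mul_inv_cancel₀ hρ0.ne', one_pow]
    calc (1 : ℝ) = (gr S hS) ^ n * z ^ n := h2.symm
      _ ≤ _ := mul_le_mul_of_nonneg_right h1 (by positivity)
  have key : ∀ N : ℕ, (N : ℝ) ≤ M * (1 - z)⁻¹ := by
    intro N
    let F : Finset G := (ball_finite hS N).toFinset
    have h1 : ∀ n ∈ Finset.range N, ((ball S n).ncard : ℝ) * z ^ n
        = ∑ g ∈ F, (if g ∈ ball S n then z ^ n else 0) := by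
      intro n hn
      rw [Finset.mem_range] at hn
      rw [← Finset.sum_filter, Finset.sum_const, nsmul_eq_mul]
      congr 2
      rw [← Set.ncard_coe_finset]
      congr 1
      ext g
      simp only [F, Finset.coe_filter, Set.Finite.mem_toFinset, Set.mem_setOf_eq]
      constructor
      · intro h
        exact ⟨ball_mono hn.le h, h⟩
      · rintro ⟨_, h⟩
        exact h
    have h2 : (N : ℝ) ≤ ∑ n ∈ Finset.range N, ∑ g ∈ F, (if g ∈ ball S n then z ^ n else 0) := by
      calc (N : ℝ) = ∑ n ∈ Finset.range N, (1 : ℝ) := by simp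
        _ ≤ _ := Finset.sum_le_sum fun n hn => (hball n).trans (h1 n hn).le
    rw [Finset.sum_comm] at h2
    have h3 : ∀ g ∈ F, ∑ n ∈ Finset.range N, (if g ∈ ball S n then z ^ n else 0)
        ≤ z ^ len S g * (1 - z)⁻¹ := by
      intro g _
      rw [← Finset.sum_filter]
      have e1 : (Finset.range N).filter (fun n => g ∈ ball S n) ⊆ Finset.Ico (len S g) N := by
        intro n hn
        rw [Finset.mem_filter, Finset.mem_range] at hn
        rw [Finset.mem_Ico]
        exact ⟨len_le hn.2, hn.1⟩
      calc _ ≤ ∑ n ∈ Finset.Ico (len S g) N, z ^ n :=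
            Finset.sum_le_sum_of_subset_of_nonneg e1 fun n _ _ => by positivity
        _ ≤ z ^ len S g / (1 - z) := geom_sum_Ico_le_of_lt_one hz0.le hz1
        _ = _ := div_eq_mul_inv _ _
    calc (N : ℝ) ≤ _ := h2
      _ ≤ ∑ g ∈ F, z ^ len S g * (1 - z)⁻¹ := Finset.sum_le_sum h3
      _ = (∑ g ∈ F, z ^ len S g) * (1 - z)⁻¹ := by rw [Finset.sum_mul]
      _ ≤ M * (1 - z)⁻¹ := mul_le_mul_of_nonneg_right (hcon N) hz'.le
  obtain ⟨N, hN⟩ := exists_nat_gt (M * (1 - z)⁻¹)
  exact absurd (key N) (not_le.2 hN)

end FreeSet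

section Marker

variable {B : Type*} [Group B]

/-- the block of the marker -/
def blk (κ' c : B) : List (SB B) := [⟨true, c⟩, ⟨false, κ'⟩, ⟨true, c⁻¹⟩, ⟨false, κ'⟩]

/-- the tail of the marker -/
def tailX (κ' c : B) : ℕ → List (SB B)
  | 0 => []
  | m + 1 => blk κ' c ++ tailX κ' c m

/-- the marker -/
def mark (κ κ' c : B) (m : ℕ) : List (SB B) := ⟨false, κ⟩ :: tailX κ' c m

theorem tailX_spec {κ' c : B} (hκ' : κ' ≠ 1) (hc : c ≠ 1) (m : ℕ) :
    Red (tailX κ' c m) ∧ (∀ q ∈ (tailX κ' c m).head?, q.1 = true) ∧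
      (∀ q ∈ (tailX κ' c m).getLast?, q.1 = false) ∧ (tailX κ' c m).length = 4 * m ∧
      (∀ p ∈ tailX κ' c m, p.1 = true ∨ p = ⟨false, κ'⟩) := by
  have hblk : Red (blk κ' c) := by
    refine ⟨?_, ?_⟩
    · intro p hp
      simp only [blk, List.mem_cons, List.not_mem_nil, or_false] at hp
      rcases hp with rfl | rfl | rfl | rfl
      · exact hc
      · exact hκ'
      · exact inv_ne_one.2 hc
      · exact hκ'
    · simp [blk, List.isChain_cons]
  induction m with
  | zero => exact ⟨red_nil, by simp [tailX], by simp [tailX], rfl, by simp [tailX]⟩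
  | succ m ih =>
    obtain ⟨h1, h2, h3, h4, h5⟩ := ih
    refine ⟨?_, ?_, ?_, ?_, ?_⟩
    · simp only [tailX]
      refine red_append.2 ⟨hblk, h1, ?_⟩
      intro p hp q hq
      have hp' : p.1 = false := by
        simp only [blk, List.getLast?_cons_cons, List.getLast?_singleton, Option.mem_def,
          Option.some.injEq] at hp
        rw [← hp]
      rw [hp', h2 q hq]
      simp
    · intro q hq
      simp only [tailX, blk, List.cons_append, List.head?_cons, Option.mem_def,
        Option.some.injEq] at hq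
      rw [← hq]
    · intro q hq
      simp only [tailX, List.getLast?_append] at hq
      cases hm : (tailX κ' c m).getLast? with
      | none =>
        rw [hm] at hq
        simp only [blk, List.getLast?_cons_cons, List.getLast?_singleton, Option.none_or,
          Option.mem_def, Option.some.injEq] at hq
        rw [← hq]
      | some p =>
        rw [hm] at hq
        simp only [Option.some_or, Option.mem_def, Option.some.injEq] at hq
        rw [← hq]
        exact h3 p (by rw [hm]; rfl)
    · simp only [tailX, List.length_append, h4, blk, List.length_cons, List.length_nil]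
      ring
    · intro p hp
      simp only [tailX, List.mem_append, blk, List.mem_cons, List.not_mem_nil, or_false] at hp
      rcases hp with (rfl | rfl | rfl | rfl) | hp
      · exact Or.inl rfl
      · exact Or.inr rfl
      · exact Or.inl rfl
      · exact Or.inr rfl
      · exact h5 p hp

theorem mark_red {κ κ' c : B} (hκ : κ ≠ 1) (hκ' : κ' ≠ 1) (hc : c ≠ 1) (m : ℕ) :
    Red (mark κ κ' c m) := by
  obtain ⟨h1, h2, _⟩ := tailX_spec hκ' hc m
  refine red_cons.2 ⟨hκ, h1, ?_⟩
  intro q hq
  rw [h2 q hq]
  simp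

theorem mark_last {κ κ' c : B} (hκ' : κ' ≠ 1) (hc : c ≠ 1) (m : ℕ) :
    ∀ q ∈ (mark κ κ' c m).getLast?, q.1 = false := by
  obtain ⟨_, _, h3, _⟩ := tailX_spec hκ' hc m
  intro q hq
  rw [mark, List.getLast?_cons] at hq
  cases hm : (tailX κ' c m).getLast? with
  | none =>
    rw [hm] at hq
    simp only [Option.getD_none, Option.mem_def, Option.some.injEq] at hq
    rw [← hq]
  | some p =>
    rw [hm] at hq
    simp only [Option.getD_some, Option.mem_def, Option.some.injEq] at hq
    rw [← hq]
    exact h3 p (by rw [hm]; rfl)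

theorem mark_notMem {κ κ' c : B} (hκκ' : κ' ≠ κ) (hκ' : κ' ≠ 1) (hc : c ≠ 1) (m : ℕ) :
    (⟨false, κ⟩ : SB B) ∉ tailX κ' c m := by
  obtain ⟨_, _, _, _, h5⟩ := tailX_spec hκ' hc m
  intro h
  rcases h5 _ h with h | h
  · simp at h
  · apply hκκ'
    simp only [Sigma.mk.injEq, heq_eq_eq, true_and] at h
    exact h.symm

theorem mark_ker {A : Type*} [Group A] (π : B →* A) {κ κ' c : B} (h1 : π κ = 1) (h2 : π κ' = 1)
    (m : ℕ) : dblMap π (val (mark κ κ' c m)) = 1 := by
  have h3 : dblMap π (val (tailX κ' c m)) = 1 := by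
    induction m with
    | zero => simp [tailX]
    | succ m ih =>
      simp [tailX, blk, ih, dblMap_inc, h2]
  rw [mark, val_cons, map_mul, h3, dblMap_inc, h1]
  simp

end Marker

section Decode

variable {B : Type*} [Group B] (X : List (SB B))

/-- good words -/
def Good (a : List (SB B)) : Prop :=
  Red a ∧ a ≠ [] ∧ (∀ p ∈ a.head?, p.1 = true) ∧ (∀ p ∈ a.getLast?, p.1 = true) ∧ ¬ X <:+: a

/-- concatenation with markers -/
def cat : List (List (SB B)) → List (SB B)
  | [] => []
  | a :: l => a ++ (X ++ cat l)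

theorem cat_red (hX : Red X) (hXne : X ≠ []) (hXh : ∀ q ∈ X.head?, q.1 = false)
    (hXl : ∀ q ∈ X.getLast?, q.1 = false) (l : List (List (SB B))) (hl : ∀ a ∈ l, Good X a) :
    Red (cat X l) ∧ ∀ p ∈ (cat X l).head?, p.1 = true := by
  induction l with
  | nil => exact ⟨red_nil, by simp [cat]⟩
  | cons a l ih =>
    obtain ⟨h1, h2⟩ := ih (fun b hb => hl b (by simp [hb]))
    obtain ⟨g1, g2, g3, g4, _⟩ := hl a (by simp)
    constructor
    · simp only [cat]
      refine red_append.2 ⟨g1, red_append.2 ⟨hX, h1, ?_⟩, ?_⟩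
      · intro p hp q hq
        rw [hXl p hp, h2 q hq]
        simp
      · intro p hp q hq
        rw [List.head?_append_of_ne_nil _ hXne] at hq
        rw [g4 p hp, hXh q hq]
        simp
    · intro p hp
      simp only [cat] at hp
      rw [List.head?_append_of_ne_nil _ g2] at hp
      exact g3 p hp

theorem sep {x0 : SB B} {X1 : List (SB B)} (hx0 : x0 ∉ X1) {a a' r r' : List (SB B)}
    (ha' : ¬ (x0 :: X1) <:+: a')
    (h : a ++ ((x0 :: X1) ++ r) = a' ++ ((x0 :: X1) ++ r')) : a'.length ≤ a.length := by
  by_contra hcon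
  push Not at hcon
  by_cases hc : a.length + (x0 :: X1).length ≤ a'.length
  · apply ha'
    have h1 : (a ++ (x0 :: X1)) <+: a' := by
      refine List.prefix_of_prefix_length_le (l₃ := a' ++ ((x0 :: X1) ++ r')) ?_
        (List.prefix_append _ _) ?_
      · rw [← h, ← List.append_assoc]
        exact List.prefix_append _ _
      · rw [List.length_append]; exact hc
    obtain ⟨t, ht⟩ := h1
    exact ⟨a, t, ht⟩
  · push Not at hc
    have h1 : (a' ++ ((x0 :: X1) ++ r'))[a'.length]? = some x0 := by
      rw [List.getElem?_append_right le_rfl]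
      simp
    rw [← h, List.getElem?_append_right hcon.le, List.getElem?_append_left (by omega)] at h1
    obtain ⟨k, hk⟩ : ∃ k, a'.length - a.length = k + 1 := ⟨a'.length - a.length - 1, by omega⟩
    rw [hk, List.getElem?_cons_succ] at h1
    exact hx0 (List.mem_of_getElem? h1)

theorem cat_inj {x0 : SB B} {X1 : List (SB B)} (hX : X = x0 :: X1) (hx0 : x0 ∉ X1)
    (l : List (List (SB B))) : ∀ l' : List (List (SB B)), (∀ a ∈ l, Good X a) →
      (∀ a ∈ l', Good X a) → cat X l = cat X l' → l = l' := by
  induction l with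
  | nil =>
    intro l' _ hl' h
    cases l' with
    | nil => rfl
    | cons a l' =>
      exfalso
      simp only [cat] at h
      have := congrArg List.length h
      rw [hX] at this
      simp at this
  | cons a l ih =>
    intro l' hl hl' h
    cases l' with
    | nil =>
      exfalso
      simp only [cat] at h
      have := congrArg List.length h
      rw [hX] at this
      simp at this
    | cons a' l' =>
      simp only [cat] at h
      have ha := (hl a (by simp)).2.2.2.2
      have ha' := (hl' a' (by simp)).2.2.2.2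
      rw [hX] at ha ha'
      have h1 : a'.length ≤ a.length := sep hx0 ha' (by rw [← hX]; exact h)
      have h2 : a.length ≤ a'.length := sep hx0 ha (by rw [← hX]; exact h.symm)
      have h3 := List.append_inj h (le_antisymm h2 h1)
      have h4 : cat X l = cat X l' := List.append_cancel_left h3.2
      rw [h3.1, ih l' (fun b hb => hl b (by simp [hb])) (fun b hb => hl' b (by simp [hb])) h4]

theorem val_cat (l : List (List (SB B))) :
    val (cat X l) = (l.map (fun a => val (a ++ X))).prod := by
  induction l with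
  | nil => simp [cat]
  | cons a l ih =>
    simp only [cat, val_append, ih, List.map_cons, List.prod_cons, mul_assoc]

end Decode

end Pool.Agent.H205R3.Grow
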