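import Mathlib
import Pool.Agent.H205R3.GrowF
import Pool.Agent.H205R3.GrowC

/-!
Growth tightness, and a free product of lamplighter groups without minimal growth rate.
-/

set_option autoImplicit false
set_option linter.unusedSectionVars false

namespace Pool.Agent.H205R3.Grow

open Filter Topology Monoid

section Tight

variable {B A : Type*} [Group B] [Group A]

/-- the syllable added at the ends -/
def uu (c : B) (b : Bool) : List (SB B) := if b then [] else [⟨true, c⟩]

theorem good_ext {X : List (SB B)} {κ c : B} {X1 : List (SB B)} (hX : X = ⟨false, κ⟩ :: X1)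
    (hXl : ∀ q ∈ X.getLast?, q.1 = false) (hc : c ≠ 1) {L : List (SB B)} (hL : Red L)
    (hLne : L ≠ []) (hLX : ¬ X <:+: L) {hb lb : Bool} (hhb : ∀ p ∈ L.head?, p.1 = hb)
    (hlb : ∀ p ∈ L.getLast?, p.1 = lb) : Good X (uu c hb ++ (L ++ uu c lb)) := by
  have hXne : X ≠ [] := by rw [hX]; simp
  -- the right end
  have h1 : Good X (L ++ uu c lb) ∨ (Red (L ++ uu c lb) ∧ L ++ uu c lb ≠ [] ∧
      (∀ p ∈ (L ++ uu c lb).head?, p.1 = hb) ∧ (∀ p ∈ (L ++ uu c lb).getLast?, p.1 = true) ∧
      ¬ X <:+: (L ++ uu c lb)) := by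
    right
    refine ⟨?_, by simp [hLne], ?_, ?_, ?_⟩
    · cases lb with
      | true => simpa [uu] using hL
      | false =>
        refine red_append.2 ⟨hL, ?_, ?_⟩
        · exact red_cons.2 ⟨hc, red_nil, by simp⟩
        · intro p hp q hq
          simp only [uu, Bool.false_eq_true, if_false, List.head?_cons, Option.mem_def,
            Option.some.injEq] at hq
          rw [hlb p hp, ← hq]
          simp
    · intro p hp
      rw [List.head?_append_of_ne_nil _ hLne] at hp
      exact hhb p hp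
    · intro p hp
      cases lb with
      | true =>
        simp only [uu, if_true, List.append_nil] at hp
        exact hlb p hp
      | false =>
        simp only [uu, Bool.false_eq_true, if_false, List.getLast?_append,
          List.getLast?_singleton, Option.some_or, Option.mem_def, Option.some.injEq] at hp
        rw [← hp]
    · cases lb with
      | true => simpa [uu] using hLX
      | false =>
        simp only [uu, Bool.false_eq_true, if_false]
        rw [List.infix_concat_iff]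
        rintro (⟨t, ht⟩ | h)
        · have h2 := congrArg List.getLast? ht
          rw [List.getLast?_append, List.getLast?_append] at h2
          simp only [List.getLast?_singleton, Option.some_or] at h2
          cases hX' : X.getLast? with
          | none => exact hXne (List.getLast?_eq_none_iff.1 hX')
          | some q =>
            rw [hX'] at h2
            simp only [Option.some_or, Option.some.injEq] at h2
            have h3 := hXl q (by rw [hX']; rfl)
            rw [h2] at h3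
            simp at h3
        · exact hLX h
  have h2 : Red (L ++ uu c lb) ∧ L ++ uu c lb ≠ [] ∧
      (∀ p ∈ (L ++ uu c lb).getLast?, p.1 = true) ∧ ¬ X <:+: (L ++ uu c lb) := by
    rcases h1 with h | h
    · exact ⟨h.1, h.2.1, h.2.2.2.1, h.2.2.2.2⟩
    · exact ⟨h.1, h.2.1, h.2.2.2.1, h.2.2.2.2⟩
  have hhead : ∀ p ∈ (L ++ uu c lb).head?, p.1 = hb := by
    intro p hp
    rw [List.head?_append_of_ne_nil _ hLne] at hp
    exact hhb p hp
  obtain ⟨e1, e2, e3, e4⟩ := h2
  cases hb with
  | true =>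
    simp only [uu, if_true, List.nil_append]
    exact ⟨e1, e2, hhead, e3, e4⟩
  | false =>
    have e5 : uu c false = [(⟨true, c⟩ : SB B)] := by simp [uu]
    rw [e5, List.singleton_append]
    refine ⟨red_cons.2 ⟨hc, e1, ?_⟩, by simp, ?_, ?_, ?_⟩
    · intro q hq
      rw [hhead q hq]
      simp
    · intro p hp
      simp only [List.head?_cons, Option.mem_def, Option.some.injEq] at hp
      rw [← hp]
    · intro p hp
      apply e3 p
      rw [List.getLast?_cons] at hp
      cases hm : (L ++ uu c lb).getLast? with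
      | none => exact absurd (List.getLast?_eq_none_iff.1 hm) e2
      | some q =>
        rw [hm] at hp
        simpa using hp
    · rw [List.infix_cons_iff]
      rintro (⟨t, ht⟩ | h)
      · rw [hX] at ht
        simp only [List.cons_append, List.cons.injEq, Sigma.mk.injEq] at ht
        exact absurd ht.1.1 (by simp)
      · exact e4 h

theorem exists_map_list {α β : Type*} {f : α → β} {Y : Set α} : ∀ (l : List β),
    (∀ y ∈ l, ∃ a ∈ Y, f a = y) → ∃ l0 : List α, (∀ a ∈ l0, a ∈ Y) ∧ l0.map f = l := by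
  intro l
  induction l with
  | nil => intro _; exact ⟨[], by simp⟩
  | cons y l ih =>
    intro h
    obtain ⟨l0, h1, h2⟩ := ih (fun x hx => h x (by simp [hx]))
    obtain ⟨a, ha, ha'⟩ := h y (by simp)
    refine ⟨a :: l0, ?_, by simp [ha', h2]⟩
    intro b hb
    rcases List.mem_cons.1 hb with rfl | hb
    · exact ha
    · exact h1 b hb

/-- growth tightness -/
theorem tight (π : B →* A) {κ κ' c : B} (hκ : κ ≠ 1) (hκπ : π κ = 1)
    (hκ' : κ' ≠ 1) (hκ'π : π κ' = 1) (hne : κ' ≠ κ) (hc : c ≠ 1)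
    {S : Set (Dbl B)} (hS : S.Finite) (hgen : Subgroup.closure S = ⊤)
    {S' : Set (Dbl A)} (hS' : S'.Finite)
    (hmap : ∀ s ∈ S, dblMap π s ∈ S') (hlift : ∀ s' ∈ S', ∃ s ∈ S, dblMap π s = s')
    (hgr : 1 < gr S' hS') : gr S' hS' < gr S hS := by
  classical
  have hC : ∀ s ∈ S, NN s ≤ hS.toFinset.sup NN := fun s hs =>
    Finset.le_sup (f := NN) ((Set.Finite.mem_toFinset hS).2 hs)
  set C := hS.toFinset.sup NN with hCdef
  obtain ⟨D, hD⟩ := exists_suffix_bound hS hgen
  set m := C * (4 * D) + 1 with hm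
  set X := mark κ κ' c m with hX
  have hXred : Red X := mark_red hκ hκ' hc m
  have hXlen : C * (4 * D) < X.length := by
    have h4 := (tailX_spec hκ' hc m).2.2.2.1
    rw [hX, mark, List.length_cons, h4]
    omega
  have hXcons : X = ⟨false, κ⟩ :: tailX κ' c m := rfl
  have hXne : X ≠ [] := by rw [hXcons]; simp
  have hXh : ∀ q ∈ X.head?, q.1 = false := by
    intro q hq
    rw [hXcons] at hq
    simp only [List.head?_cons, Option.mem_def, Option.some.injEq] at hq
    rw [← hq]
  have hXl := mark_last (κ := κ) hκ' hc m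
  rw [← hX] at hXl
  have hXnot := mark_notMem hne hκ' hc m
  set ψ := dblMap π with hψ
  have hXψ : ψ (val X) = 1 := mark_ker π hκπ hκ'π m
  -- the constant K
  obtain ⟨K, hK1, hK2⟩ : ∃ K, (∀ b, val (uu c b) ∈ ball S K) ∧
      ∀ b, val (uu c b ++ X) ∈ ball S K := by
    obtain ⟨n1, h1⟩ := exists_mem_ball hgen (val (uu c true))
    obtain ⟨n2, h2⟩ := exists_mem_ball hgen (val (uu c false))
    obtain ⟨n3, h3⟩ := exists_mem_ball hgen (val (uu c true ++ X))
    obtain ⟨n4, h4⟩ := exists_mem_ball hgen (val (uu c false ++ X))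
    refine ⟨n1 + n2 + n3 + n4, ?_, ?_⟩
    · rintro (_ | _)
      · exact ball_mono (by omega) h2
      · exact ball_mono (by omega) h1
    · rintro (_ | _)
      · exact ball_mono (by omega) h4
      · exact ball_mono (by omega) h3
  set ρ := gr S' hS' with hρ
  have hρ0 : 0 < ρ := gr_pos _
  set z := ρ⁻¹ with hz
  have hz0 : 0 < z := inv_pos.2 hρ0
  have hz1 : z < 1 := inv_lt_one_of_one_lt₀ hgr
  have hzK : 0 < z ^ (2 * K) := by positivity
  obtain ⟨n, hn⟩ := diverge hS' hgr (1 + 4 * (z ^ (2 * K))⁻¹)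
  set F : Finset (Dbl A) := (ball_finite hS' n).toFinset with hF
  have hFmem : ∀ g, g ∈ F ↔ g ∈ ball S' n := by simp [hF]
  -- shortest lifts
  have hex : ∀ g' : Dbl A, g' ∈ F → ∃ L : List (SB B), Red L ∧ ψ (val L) = g' ∧
      len S (val L) ≤ len S' g' ∧ ¬ X <:+: L := by
    intro g' hg'
    obtain ⟨l, hl1, hl2⟩ := lift_mem_ball ψ hlift (mem_ball_len ((hFmem g').1 hg'))
    obtain ⟨L, hL1, hL2⟩ := exists_red l
    refine ⟨L, hL1, by rw [hL2, hl2], by rw [hL2]; exact len_le hl1, ?_⟩
    refine short_no_infix ψ hgen hC hD hXψ hXlen hL1 ?_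
    intro h hh
    rw [hL2] at hh ⊢
    obtain ⟨j, hj⟩ := exists_mem_ball hgen h
    have h1 := map_mem_ball ψ hmap (mem_ball_len hj)
    rw [hh, hl2] at h1
    exact (len_le hl1).trans (len_le h1)
  choose! L hL1 hL2 hL3 hL4 using hex
  let F1 := F.erase 1
  have hone : (1 : Dbl A) ∈ F := (hFmem 1).2 (one_mem_ball n)
  have hsum1 : 4 * (z ^ (2 * K))⁻¹ < ∑ g ∈ F1, z ^ len S' g := by
    have h1 := Finset.add_sum_erase F (fun g => z ^ len S' g) hone
    have h2 : len S' (1 : Dbl A) = 0 := Nat.le_zero.1 (len_le (one_mem_ball 0))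
    simp only [h2, pow_zero] at h1
    have h3 : ∑ g ∈ F, z ^ len S' g = 1 + ∑ g ∈ F1, z ^ len S' g := h1.symm
    have h4 : 1 + 4 * (z ^ (2 * K))⁻¹ < ∑ g ∈ F, z ^ len S' g := hn
    linarith
  let cl : Dbl A → Bool × Bool := fun g =>
    (((L g).head?.map (fun p => p.1)).getD true, ((L g).getLast?.map (fun p => p.1)).getD true)
  obtain ⟨b, hb⟩ : ∃ b : Bool × Bool,
      (z ^ (2 * K))⁻¹ < ∑ g ∈ F1 with cl g = b, z ^ len S' g := by
    by_contra hcon
    push Not at hcon
    have h1 : ∑ g ∈ F1, z ^ len S' g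
        = ∑ b : Bool × Bool, ∑ g ∈ F1 with cl g = b, z ^ len S' g :=
      (Finset.sum_fiberwise F1 cl _).symm
    have h2 : ∑ b : Bool × Bool, ∑ g ∈ F1 with cl g = b, z ^ len S' g
        ≤ ∑ b : Bool × Bool, (z ^ (2 * K))⁻¹ := Finset.sum_le_sum fun b _ => hcon b
    have h3 : ∑ _b : Bool × Bool, (z ^ (2 * K))⁻¹ = 4 * (z ^ (2 * K))⁻¹ := by
      rw [Finset.sum_const, Finset.card_univ]
      simp
    linarith
  let F2 := F1.filter (fun g => cl g = b)
  have hF2 : ∀ g ∈ F2, g ∈ F ∧ g ≠ 1 ∧ cl g = b := by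
    intro g hg
    obtain ⟨h1, h2⟩ := Finset.mem_filter.1 hg
    obtain ⟨h3, h4⟩ := Finset.mem_erase.1 h1
    exact ⟨h4, h3, h2⟩
  let a : Dbl A → List (SB B) := fun g => uu c b.1 ++ (L g ++ uu c b.2)
  have hgood : ∀ g ∈ F2, Good X (a g) := by
    intro g hg
    obtain ⟨h1, h2, h3⟩ := hF2 g hg
    have hne' : L g ≠ [] := by
      intro h
      apply h2
      rw [← hL2 g h1, h]
      simp
    refine good_ext hXcons hXl hc (hL1 g h1) hne' (hL4 g h1) ?_ ?_
    · intro p hp
      rw [← h3]
      simp only [cl]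
      rw [Option.mem_def] at hp
      rw [hp]
      rfl
    · intro p hp
      rw [← h3]
      simp only [cl]
      rw [Option.mem_def] at hp
      rw [hp]
      rfl
  let y : Dbl A → Dbl B := fun g => val (a g ++ X)
  have hyval : ∀ g, y g = val (uu c b.1) * val (L g) * val (uu c b.2 ++ X) := by
    intro g
    simp only [y, a, val_append, mul_assoc]
  have hyinj : Set.InjOn y F2 := by
    intro g hg g' hg' he
    rw [hyval, hyval] at he
    have h1 : val (L g) = val (L g') := mul_left_cancel (mul_right_cancel he)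
    rw [← hL2 g (hF2 g hg).1, h1, hL2 g' (hF2 g' hg').1]
  have hylen : ∀ g ∈ F2, len S (y g) ≤ len S' g + 2 * K := by
    intro g hg
    obtain ⟨j, hj⟩ := exists_mem_ball hgen (val (L g))
    have h1 : y g ∈ ball S (K + len S (val (L g)) + K) := by
      rw [hyval]
      exact mul_mem_ball (mul_mem_ball (hK1 _) (mem_ball_len hj)) (hK2 _)
    have h2 := len_le h1
    have h3 := hL3 g (hF2 g hg).1
    omega
  let Y : Finset (Dbl B) := F2.image y
  have hYsum : 1 < ∑ x ∈ Y, z ^ len S x := by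
    rw [Finset.sum_image hyinj]
    calc (1 : ℝ) = z ^ (2 * K) * (z ^ (2 * K))⁻¹ := (mul_inv_cancel₀ hzK.ne').symm
      _ < z ^ (2 * K) * ∑ g ∈ F2, z ^ len S' g := by
          exact mul_lt_mul_of_pos_left hb hzK
      _ = ∑ g ∈ F2, z ^ (len S' g + 2 * K) := by
          rw [Finset.mul_sum]
          exact Finset.sum_congr rfl fun g _ => by rw [pow_add, mul_comm]
      _ ≤ ∑ g ∈ F2, z ^ len S (y g) := Finset.sum_le_sum fun g hg =>
          pow_le_pow_of_le_one hz0.le hz1.le (hylen g hg)
  have hYinj : ∀ l l' : List (Dbl B), (∀ x ∈ l, x ∈ Y) → (∀ x ∈ l', x ∈ Y) →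
      l.prod = l'.prod → l = l' := by
    have hdec : ∀ l : List (Dbl B), (∀ x ∈ l, x ∈ Y) → ∃ l0 : List (List (SB B)),
        (∀ w ∈ l0, Good X w) ∧ l0.map (fun w => val (w ++ X)) = l := by
      intro l hl
      refine exists_map_list (Y := {w | Good X w}) l ?_
      intro x hx
      obtain ⟨g, hg, rfl⟩ := Finset.mem_image.1 (hl x hx)
      exact ⟨a g, hgood g hg, rfl⟩
    intro l l' hl hl' he
    obtain ⟨l0, h1, rfl⟩ := hdec l hl
    obtain ⟨l1, h2, rfl⟩ := hdec l' hl'
    rw [← val_cat, ← val_cat] at he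
    have h3 := red_inj (cat_red X hXred hXne hXh hXl l0 h1).1
      (cat_red X hXred hXne hXh hXl l1 h2).1 he
    rw [cat_inj X hXcons hXnot l0 l1 h1 h2 h3]
  have hcont : Continuous (fun t : ℝ => ∑ x ∈ Y, t ^ len S x) :=
    continuous_finsetSum _ fun x _ => continuous_pow _
  have h2 : ∀ᶠ t in 𝓝 z, 1 < ∑ x ∈ Y, t ^ len S x :=
    hcont.continuousAt.eventually (lt_mem_nhds hYsum)
  have h3 : ∀ᶠ t in 𝓝[<] z, (1 < ∑ x ∈ Y, t ^ len S x) ∧ 0 < t := by
    have h4 : ∀ᶠ t in 𝓝 z, (1 < ∑ x ∈ Y, t ^ len S x) ∧ 0 < t := h2.and (lt_mem_nhds hz0)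
    exact h4.filter_mono nhdsWithin_le_nhds
  obtain ⟨t, ⟨ht1, ht0⟩, htz⟩ := (h3.and self_mem_nhdsWithin).exists
  have htz' : t < z := htz
  have h5 := lower_free hS Y (fun x _ => exists_mem_ball hgen x) hYinj ht0 ht1.le
  have h6 : ρ < t⁻¹ := by
    rw [hz] at htz'
    exact (lt_inv_comm₀ ht0 hρ0).1 htz'
  exact h6.trans_le h5

end Tight

end Pool.Agent.H205R3.Grow
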