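import Mathlib
import Pool.Agent.H205R3.GrowG

/-!
The free product of two copies of `D₄ ≀ ℤ` has no minimal growth rate.
-/

set_option autoImplicit false
set_option linter.unusedSectionVars false

namespace Pool.Agent.H205R3.Grow

open Filter Topology Monoid Wr

/-- the kernel of the induced map meets a ball trivially -/
theorem dblMap_ker {B A : Type*} [Group B] [Group A] {T : Set B} (π : B →* A) {n : ℕ}
    (hinj : ∀ x ∈ ball T n, π x = 1 → x = 1) {g : Dbl B} (hg : g ∈ ball (dbl T) n)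
    (h : dblMap π g = 1) : g = 1 := by
  obtain ⟨i, l, e1, e2, e3⟩ := exists_alt hg
  rw [← e3, dblMap_alt] at h
  have h3 : l.map π = [] := by
    refine alt_eq_one i ?_ h
    intro y hy
    obtain ⟨x, hx, rfl⟩ := List.mem_map.1 hy
    intro hx1
    obtain ⟨hx2, m, hm⟩ := e1 x hx
    refine hx2 (hinj x ?_ hx1)
    refine ball_mono ?_ (mem_ball_len hm)
    exact (len_le_wcost hx).trans e2
  have h4 : l = [] := List.map_eq_nil_iff.1 h3
  rw [h4] at e3
  exact e3.symm

/-- the free group on the abstract generators -/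
abbrev FF := FreeGroup (Bool × Fin 3)

/-- the generators `t, a₀, b_k` of `D₄ ≀ ℤ` -/
def gk (k : ℤ) : Fin 3 → Lamp :=
  ![⟨t, gens_sub k (by simp [gens])⟩, ⟨at' 0 ra, gens_sub k (by simp [gens])⟩,
    ⟨at' k rb, gens_sub k (by simp [gens])⟩]

/-- the generators of the limit -/
def g' : Fin 3 → Wr (C2 × C2) := ![t, at' 0 (phi1 ra, 1), at' 0 (1, phi2 rb)]

/-- the marking -/
def th (k : ℤ) : FF →* Dbl Lamp := FreeGroup.lift (fun p => inc p.1 (gk k p.2))

/-- the limit marking -/
def th' : FF →* Dbl (Wr (C2 × C2)) := FreeGroup.lift (fun p => inc p.1 (g' p.2))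

theorem pr_gk (k : ℤ) (j : Fin 3) : pr k (gk k j) = g' j := by
  fin_cases j
  · exact piK_t k
  · exact piK_a k
  · exact piK_b k

theorem th_comp (k : ℤ) (u : FF) : dblMap (pr k) (th k u) = th' u := by
  have : (dblMap (pr k)).comp (th k) = th' := by
    apply FreeGroup.ext_hom
    intro p
    simp only [MonoidHom.comp_apply, th, th', FreeGroup.lift_apply_of, dblMap_inc, pr_gk]
  exact DFunLike.congr_fun this u

theorem gk_mem (k : ℤ) (j : Fin 3) : gk k j ∈ TB k := by
  fin_cases j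
  · show (t : Wr D4) ∈ gens k
    simp [gens]
  · show (at' 0 ra : Wr D4) ∈ gens k
    simp [gens]
  · show (at' k rb : Wr D4) ∈ gens k
    simp [gens]

theorem g'_mem (j : Fin 3) : g' j ∈ gens' := by
  fin_cases j
  · show (t : Wr (C2 × C2)) ∈ gens'
    simp [gens']
  · show (at' 0 (phi1 ra, 1) : Wr (C2 × C2)) ∈ gens'
    simp [gens']
  · show (at' 0 (1, phi2 rb) : Wr (C2 × C2)) ∈ gens'
    simp [gens']

theorem TB_sub (k : ℤ) : ∀ x ∈ TB k, ∃ j, gk k j = x := by
  rintro ⟨x, hx0⟩ hx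
  have hx' : x = t ∨ x = at' 0 ra ∨ x = at' k rb := hx
  rcases hx' with rfl | rfl | rfl
  · exact ⟨0, rfl⟩
  · exact ⟨1, rfl⟩
  · exact ⟨2, rfl⟩

theorem th_surj (k : ℤ) : Function.Surjective (th k) := by
  rw [← MonoidHom.range_eq_top, eq_top_iff, ← dbl_closure (TB_closure k), Subgroup.closure_le]
  rintro _ ⟨i, x, hx, rfl⟩
  obtain ⟨j, rfl⟩ := TB_sub k x hx
  exact ⟨FreeGroup.of (i, j), by simp [th]⟩

theorem FF_closure : Subgroup.closure (Set.range (FreeGroup.of : Bool × Fin 3 → FF)) = ⊤ :=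
  FreeGroup.closure_range_of _

/-- elements of the kernel of the limit marking are eventually killed -/
theorem ev_ker (u : FF) (hu : th' u = 1) : ∃ k₀ : ℕ, ∀ k : ℕ, k₀ ≤ k → th k u = 1 := by
  obtain ⟨n, hn⟩ := exists_mem_ball FF_closure u
  refine ⟨2 * n + 1, fun k hk => ?_⟩
  have h1 : th k u ∈ ball (dbl (TB k)) n := by
    refine map_mem_ball (th k) ?_ hn
    rintro _ ⟨p, rfl⟩
    exact ⟨p.1, gk k p.2, gk_mem k p.2, by simp [th]⟩
  refine dblMap_ker (pr k) (fun x hx => pr_inj k n (by omega) x hx) h1 ?_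
  rw [th_comp, hu]

theorem gr'_gt {S' : Set (Dbl (Wr (C2 × C2)))} (hS' : S'.Finite)
    (h : ∀ x ∈ dbl gens', ∃ n, x ∈ ball S' n) : 1 < gr S' hS' := by
  classical
  -- a common radius
  obtain ⟨m, hm⟩ : ∃ m, ∀ x ∈ dbl gens', x ∈ ball S' m := by
    have hfin := dbl_finite gens'_finite
    choose! n hn using h
    refine ⟨hfin.toFinset.sup n, fun x hx => ?_⟩
    exact ball_mono (Finset.le_sup (f := n) ((Set.Finite.mem_toFinset hfin).2 hx)) (hn x hx)
  have hsub : ∀ n, ∀ {x}, x ∈ ball (dbl gens') n → x ∈ ball S' (m * n) := by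
    intro n
    induction n with
    | zero =>
      rintro x ⟨l, h1, _, rfl⟩
      have : l = [] := List.length_eq_zero_iff.1 (by omega)
      subst this
      exact one_mem_ball _
    | succ n ih =>
      intro x hx
      rcases ball_succ hx with h1 | ⟨s, y, hs, hy, rfl⟩
      · exact ball_mono (Nat.mul_le_mul_left m (Nat.le_succ n)) (ih h1)
      · have h2 : s ∈ ball S' m := by
          rcases hs with hs | hs
          · exact hm s hs
          · have := inv_mem_ball (hm _ hs)
            rwa [inv_inv] at this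
        have h3 := mul_mem_ball h2 (ih hy)
        rw [Nat.mul_succ, add_comm]
        exact h3
  by_contra hcon
  push Not at hcon
  -- `r ^ (m + 1) = 2`
  set r : ℝ := (2 : ℝ) ^ (((m + 1 : ℕ) : ℝ)⁻¹) with hr
  have hr1 : 1 < r := Real.one_lt_rpow (by norm_num) (by positivity)
  have hr2 : r ^ (m + 1) = 2 := Real.rpow_inv_natCast_pow (by norm_num) (by omega)
  have hrm : r ^ m < 2 := by
    rw [← hr2]
    exact pow_lt_pow_right₀ hr1 (by omega)
  have hev := eventually_le hS' (hcon.trans_lt hr1)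
  obtain ⟨N, hN⟩ := eventually_atTop.1 hev
  -- choose the radius `m * n`
  by_cases hm0 : m = 0
  · -- then the generators are trivial
    subst hm0
    have h1 := hsub 1 (x := inc false (t : Wr (C2 × C2))) (mem_ball_one (Or.inl
      ⟨false, t, by simp [gens'], rfl⟩))
    obtain ⟨l, e1, _, e3⟩ := h1
    have : l = [] := List.length_eq_zero_iff.1 (by omega)
    subst this
    have h2 : alt false [(t : Wr (C2 × C2))] = 1 := by
      simp only [alt, mul_one]
      exact e3.symm
    have h3 := alt_eq_one false (l := [(t : Wr (C2 × C2))]) (by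
      intro x hx
      rw [List.mem_singleton] at hx
      subst hx
      intro h
      have := congrArg (fun y => y.s) h
      simp at this) h2
    simp at h3
  · let n := N + 1
    have h1 : (2 : ℝ) ^ n ≤ ((ball (dbl gens') n).ncard : ℝ) :=
      (pow_le_pow_left₀ (by norm_num) two_le_gr n).trans (gr_pow_le _ n)
    have h2 : ((ball (dbl gens') n).ncard : ℝ) ≤ ((ball S' (m * n)).ncard : ℝ) := by
      exact_mod_cast Set.ncard_le_ncard (fun x hx => hsub n hx) (ball_finite hS' _)
    have h3 : ((ball S' (m * n)).ncard : ℝ) ≤ r ^ (m * n) := by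
      apply hN
      have : 1 ≤ m := Nat.one_le_iff_ne_zero.2 hm0
      calc N ≤ n := Nat.le_succ N
        _ = 1 * n := (one_mul n).symm
        _ ≤ m * n := Nat.mul_le_mul_right n this
    have h4 : r ^ (m * n) < 2 ^ n := by
      rw [pow_mul]
      exact pow_lt_pow_left₀ hrm (by positivity) (by omega)
    linarith

/-- the kernel element at position 1 -/
def kap' : Wr D4 := t * kap * t⁻¹

theorem kap'_mem : kap' ∈ Lamp := by
  have ht : t ∈ Lamp := gens_sub 0 (by simp [gens])
  exact mul_mem (mul_mem ht kap_mem) (inv_mem ht)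

theorem kap_f1 : kap.f 1 = 1 := by
  simp [kap]

theorem kap'_f1 : kap'.f 1 = ra * rb * ra⁻¹ * rb⁻¹ := by
  simp [kap', kap]

theorem kap'_ne : kap' ≠ kap := by
  intro h
  have := congrArg (fun y => y.f 1) h
  simp only [kap_f1, kap'_f1] at this
  exact comm_ne this

theorem kap'_ne_one : kap' ≠ 1 := by
  intro h
  have := congrArg (fun y => y.f 1) h
  simp only [kap'_f1, one_f] at this
  exact comm_ne this

theorem kap'_pr (k : ℤ) : pr k ⟨kap', kap'_mem⟩ = 1 := by
  have ht : t ∈ Lamp := gens_sub 0 (by simp [gens])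
  have h1 : (⟨kap', kap'_mem⟩ : Lamp) = ⟨t, ht⟩ * ⟨kap, kap_mem⟩ * (⟨t, ht⟩)⁻¹ := rfl
  rw [h1, map_mul, map_mul, map_inv, kap_pr]
  group

/-- For every finite generating set there is one with a strictly smaller growth rate. -/
theorem exists_smaller {S : Set (Dbl Lamp)} (hS : S.Finite) (hgen : Subgroup.closure S = ⊤) :
    ∃ (S₁ : Set (Dbl Lamp)) (hS₁ : S₁.Finite), Subgroup.closure S₁ = ⊤ ∧
      gr S₁ hS₁ < gr S hS := by
  classical
  -- words for the generators
  choose w hw using fun s : Dbl Lamp => th_surj 0 s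
  let W : Set FF := w '' S
  have hW : W.Finite := hS.image w
  have hSW : (th 0) '' W = S := by
    rw [Set.image_image]
    simp only [hw, Set.image_id']
  let S' : Set (Dbl (Wr (C2 × C2))) := th' '' W
  have hS' : S'.Finite := hW.image _
  have hmap : ∀ s ∈ S, dblMap (pr 0) s ∈ S' := by
    intro s hs
    refine ⟨w s, ⟨s, hs, rfl⟩, ?_⟩
    have h1 := th_comp 0 (w s)
    rw [show th 0 (w s) = s from hw s] at h1
    exact h1.symm
  have hlift : ∀ s' ∈ S', ∃ s ∈ S, dblMap (pr 0) s = s' := by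
    rintro _ ⟨_, ⟨s, hs, rfl⟩, rfl⟩
    refine ⟨s, hs, ?_⟩
    have h1 := th_comp 0 (w s)
    rwa [show th 0 (w s) = s from hw s] at h1
  have hgr : 1 < gr S' hS' := by
    apply gr'_gt hS'
    rintro _ ⟨i, x, hx, rfl⟩
    obtain ⟨y, hy, rfl⟩ := pr_surj 0 x hx
    obtain ⟨n, hn⟩ := exists_mem_ball hgen (inc i y)
    refine ⟨n, ?_⟩
    rw [← dblMap_inc]
    exact map_mem_ball _ hmap hn
  have ht : t ∈ Lamp := gens_sub 0 (by simp [gens])
  have hlt : gr S' hS' < gr S hS := by
    refine tight (pr 0) (κ := ⟨kap, kap_mem⟩) (κ' := ⟨kap', kap'_mem⟩) (c := ⟨t, ht⟩)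
      ?_ (kap_pr 0) ?_ (kap'_pr 0) ?_ ?_ hS hgen hS' hmap hlift hgr
    · exact fun h => kap_ne (congrArg Subtype.val h)
    · exact fun h => kap'_ne_one (congrArg Subtype.val h)
    · exact fun h => kap'_ne (congrArg Subtype.val h)
    · intro h
      have h1 : (t : Wr D4) = 1 := congrArg Subtype.val h
      have := congrArg (fun y => y.s) h1
      simp at this
  obtain ⟨r, hr1, hr2⟩ := exists_between hlt
  obtain ⟨n, hn, hn0⟩ := ((eventually_le hS' hr1).and (eventually_ne_atTop 0)).exists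
  -- the generators as words in `W`
  have hv : ∀ p : Bool × Fin 3, ∃ v ∈ Subgroup.closure W, th 0 v = th 0 (FreeGroup.of p) := by
    intro p
    have h1 : th 0 (FreeGroup.of p) ∈ Subgroup.closure S := by rw [hgen]; trivial
    rw [← hSW, ← MonoidHom.map_closure] at h1
    obtain ⟨v, hv, hv'⟩ := h1
    exact ⟨v, hv, hv'⟩
  choose v hv1 hv2 using hv
  have hk1 : ∀ p : Bool × Fin 3, ∃ k₀ : ℕ, ∀ k : ℕ, k₀ ≤ k → th k ((FreeGroup.of p)⁻¹ * v p) = 1 := by
    intro p
    apply ev_ker
    rw [← th_comp 0, map_mul, map_inv, hv2, inv_mul_cancel, map_one]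
  choose k1 hk1 using hk1
  -- the ball of radius `n` in the free group
  let E : Finset FF := (ball_finite hW n).toFinset
  have hk2 : ∀ q : FF × FF, ∃ k₀ : ℕ, ∀ k : ℕ, k₀ ≤ k → th' q.1 = th' q.2 → th k q.1 = th k q.2 := by
    intro q
    by_cases hq : th' q.1 = th' q.2
    · obtain ⟨k₀, hk₀⟩ := ev_ker (q.1⁻¹ * q.2) (by rw [map_mul, map_inv, hq, inv_mul_cancel])
      refine ⟨k₀, fun k hk _ => ?_⟩
      have h1 := hk₀ k hk
      rw [map_mul, map_inv, inv_mul_eq_one] at h1
      exact h1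
    · exact ⟨0, fun k _ h => absurd h hq⟩
  choose k2 hk2 using hk2
  let k : ℕ := (Finset.univ.sup k1) + ((E ×ˢ E).sup k2)
  have hkk1 : ∀ p, k1 p ≤ k := fun p =>
    (Finset.le_sup (f := k1) (Finset.mem_univ p)).trans (Nat.le_add_right _ _)
  have hkk2 : ∀ q ∈ E ×ˢ E, k2 q ≤ k := fun q hq =>
    (Finset.le_sup (f := k2) hq).trans (Nat.le_add_left _ _)
  let S₁ : Set (Dbl Lamp) := (th k) '' W
  have hS₁ : S₁.Finite := hW.image _
  refine ⟨S₁, hS₁, ?_, ?_⟩
  · -- `S₁` generates
    rw [eq_top_iff]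
    intro g _
    obtain ⟨u, rfl⟩ := th_surj k g
    have h1 : Subgroup.map (th k) ⊤ ≤ Subgroup.closure S₁ := by
      rw [← FF_closure, MonoidHom.map_closure, Subgroup.closure_le]
      rintro _ ⟨_, ⟨p, rfl⟩, rfl⟩
      have h2 := hk1 p k (hkk1 p)
      rw [map_mul, map_inv, inv_mul_eq_one] at h2
      rw [h2, SetLike.mem_coe, show S₁ = (th k) '' W from rfl, ← MonoidHom.map_closure]
      exact ⟨v p, hv1 p, rfl⟩
    exact h1 ⟨u, trivial, rfl⟩
  · -- the growth rate of `S₁`
    have hball : (ball S₁ n).ncard ≤ (ball S' n).ncard := by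
      refine Set.ncard_le_ncard_of_injOn (dblMap (pr k)) ?_ ?_ (ball_finite hS' n)
      · intro g hg
        refine map_mem_ball _ ?_ hg
        rintro _ ⟨u, hu, rfl⟩
        exact ⟨u, hu, (th_comp k u).symm⟩
      · intro g hg h hh he
        have hlift1 : ∀ s' ∈ S₁, ∃ s ∈ W, th k s = s' := fun s' hs' => hs'
        obtain ⟨u, hu, rfl⟩ := lift_mem_ball (th k) hlift1 hg
        obtain ⟨u', hu', rfl⟩ := lift_mem_ball (th k) hlift1 hh
        rw [th_comp, th_comp] at he
        have hmem : (u, u') ∈ E ×ˢ E := by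
          rw [Finset.mem_product]
          exact ⟨(Set.Finite.mem_toFinset _).2 hu, (Set.Finite.mem_toFinset _).2 hu'⟩
        exact hk2 (u, u') k (hkk2 _ hmem) he
    have h1 : gr S₁ hS₁ ≤ r := by
      refine gr_le_of hS₁ hn0 ((gr_pos hS').trans hr1).le ?_
      refine le_trans ?_ hn
      exact_mod_cast hball
    exact h1.trans_lt hr2

/-- The growth rates of the free product of two copies of `D₄ ≀ ℤ` have no minimum. -/
theorem no_minimum : ¬ ∃ r, IsLeast (growthRates (Dbl Lamp)) r := by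
  rintro ⟨r, ⟨S, hS, hgen, hr⟩, hleast⟩
  obtain ⟨S₁, hS₁, hgen₁, hlt⟩ := exists_smaller hS hgen
  have h1 : r = gr S hS := growthRate_unique hS hr
  have h2 : r ≤ gr S₁ hS₁ := hleast ⟨S₁, hS₁, hgen₁, isGrowthRate_gr hS₁⟩
  linarith

end Pool.Agent.H205R3.Grow
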