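import Mathlib
import Pool.Agent.H205R3.GrowG

/-!
General criterion: if the relations of a proper quotient of `B` hold eventually in a sequence of
markings of `B`, then `B * B` has no minimal growth rate.
-/

set_option autoImplicit false
set_option linter.unusedSectionVars false

namespace Pool.Agent.H205R3.Grow

open Filter Topology Monoid

section Marker2

variable {B : Type*} [Group B]

/-- the block of the second marker -/
def blk2 (κ d : B) : List (SB B) := [⟨true, κ⟩, ⟨false, d⟩, ⟨true, κ⟩, ⟨false, d⁻¹⟩]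

/-- the tail of the second marker -/
def tailY (κ d : B) : ℕ → List (SB B)
  | 0 => []
  | m + 1 => blk2 κ d ++ tailY κ d m

/-- the second marker -/
def mark2 (κ d : B) (m : ℕ) : List (SB B) := ⟨false, κ⟩ :: tailY κ d m

theorem tailY_spec {κ d : B} (hκ : κ ≠ 1) (hd : d ≠ 1) (m : ℕ) :
    Red (tailY κ d m) ∧ (∀ q ∈ (tailY κ d m).head?, q.1 = true) ∧
      (∀ q ∈ (tailY κ d m).getLast?, q.1 = false) ∧ (tailY κ d m).length = 4 * m ∧
      (∀ p ∈ tailY κ d m, p.1 = true ∨ p = ⟨false, d⟩ ∨ p = ⟨false, d⁻¹⟩) := by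
  have hblk : Red (blk2 κ d) := by
    refine ⟨?_, ?_⟩
    · intro p hp
      simp only [blk2, List.mem_cons, List.not_mem_nil, or_false] at hp
      rcases hp with rfl | rfl | rfl | rfl
      · exact hκ
      · exact hd
      · exact hκ
      · exact inv_ne_one.2 hd
    · simp [blk2, List.isChain_cons]
  induction m with
  | zero => exact ⟨red_nil, by simp [tailY], by simp [tailY], rfl, by simp [tailY]⟩
  | succ m ih =>
    obtain ⟨h1, h2, h3, h4, h5⟩ := ih
    refine ⟨?_, ?_, ?_, ?_, ?_⟩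
    · simp only [tailY]
      refine red_append.2 ⟨hblk, h1, ?_⟩
      intro p hp q hq
      have hp' : p.1 = false := by
        simp only [blk2, List.getLast?_cons_cons, List.getLast?_singleton, Option.mem_def,
          Option.some.injEq] at hp
        rw [← hp]
      rw [hp', h2 q hq]
      simp
    · intro q hq
      simp only [tailY, blk2, List.cons_append, List.head?_cons, Option.mem_def,
        Option.some.injEq] at hq
      rw [← hq]
    · intro q hq
      simp only [tailY, List.getLast?_append] at hq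
      cases hm : (tailY κ d m).getLast? with
      | none =>
        rw [hm] at hq
        simp only [blk2, List.getLast?_cons_cons, List.getLast?_singleton, Option.none_or,
          Option.mem_def, Option.some.injEq] at hq
        rw [← hq]
      | some p =>
        rw [hm] at hq
        simp only [Option.some_or, Option.mem_def, Option.some.injEq] at hq
        rw [← hq]
        exact h3 p (by rw [hm]; rfl)
    · simp only [tailY, List.length_append, h4, blk2, List.length_cons, List.length_nil]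
      ring
    · intro p hp
      simp only [tailY, List.mem_append, blk2, List.mem_cons, List.not_mem_nil, or_false] at hp
      rcases hp with (rfl | rfl | rfl | rfl) | hp
      · exact Or.inl rfl
      · exact Or.inr (Or.inl rfl)
      · exact Or.inl rfl
      · exact Or.inr (Or.inr rfl)
      · exact h5 p hp

theorem mark2_red {κ d : B} (hκ : κ ≠ 1) (hd : d ≠ 1) (m : ℕ) : Red (mark2 κ d m) := by
  obtain ⟨h1, h2, _⟩ := tailY_spec hκ hd m
  refine red_cons.2 ⟨hκ, h1, ?_⟩
  intro q hq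
  rw [h2 q hq]
  simp

theorem mark2_last {κ d : B} (hκ : κ ≠ 1) (hd : d ≠ 1) (m : ℕ) :
    ∀ q ∈ (mark2 κ d m).getLast?, q.1 = false := by
  obtain ⟨_, _, h3, _⟩ := tailY_spec hκ hd m
  intro q hq
  rw [mark2, List.getLast?_cons] at hq
  cases hm : (tailY κ d m).getLast? with
  | none =>
    rw [hm] at hq
    simp only [Option.getD_none, Option.mem_def, Option.some.injEq] at hq
    rw [← hq]
  | some p =>
    rw [hm] at hq
    simp only [Option.getD_some, Option.mem_def, Option.some.injEq] at hq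
    rw [← hq]
    exact h3 p (by rw [hm]; rfl)

theorem mark2_notMem {κ d : B} (hκ : κ ≠ 1) (hd : d ≠ 1) (hdκ : d ≠ κ) (hdκ' : d⁻¹ ≠ κ) (m : ℕ) :
    (⟨false, κ⟩ : SB B) ∉ tailY κ d m := by
  obtain ⟨_, _, _, _, h5⟩ := tailY_spec hκ hd m
  intro h
  rcases h5 _ h with h | h | h
  · simp at h
  · apply hdκ
    simp only [Sigma.mk.injEq, heq_eq_eq, true_and] at h
    exact h.symm
  · apply hdκ'
    simp only [Sigma.mk.injEq, heq_eq_eq, true_and] at h
    exact h.symm

theorem mark2_ker {A : Type*} [Group A] (π : B →* A) {κ d : B} (h1 : π κ = 1) (m : ℕ) :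
    dblMap π (val (mark2 κ d m)) = 1 := by
  have h3 : dblMap π (val (tailY κ d m)) = 1 := by
    induction m with
    | zero => simp [tailY]
    | succ m ih =>
      simp [tailY, blk2, ih, dblMap_inc, h1]
  rw [mark2, val_cons, map_mul, h3, dblMap_inc, h1]
  simp

end Marker2

section Tight2

variable {B A : Type*} [Group B] [Group A]

/-- growth tightness -/
theorem tight2 (π : B →* A) {κ d : B} (hκ : κ ≠ 1) (hκπ : π κ = 1)
    (hd : d ≠ 1) (hdκ : d ≠ κ) (hdκ' : d⁻¹ ≠ κ)
    {S : Set (Dbl B)} (hS : S.Finite) (hgen : Subgroup.closure S = ⊤)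
    {S' : Set (Dbl A)} (hS' : S'.Finite)
    (hmap : ∀ s ∈ S, dblMap π s ∈ S') (hlift : ∀ s' ∈ S', ∃ s ∈ S, dblMap π s = s')
    (hgr : 1 < gr S' hS') : gr S' hS' < gr S hS := by
  classical
  have hC : ∀ s ∈ S, NN s ≤ hS.toFinset.sup NN := fun s hs =>
    Finset.le_sup (f := NN) ((Set.Finite.mem_toFinset hS).2 hs)
  set C := hS.toFinset.sup NN with hCdef
  obtain ⟨D, hD⟩ := exists_suffix_bound hS hgen
  set m := C * (4 * D) + 1 with hm
  set X := mark2 κ d m with hX
  have hXred : Red X := mark2_red hκ hd m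
  have hXlen : C * (4 * D) < X.length := by
    have h4 := (tailY_spec hκ hd m).2.2.2.1
    rw [hX, mark2, List.length_cons, h4]
    omega
  have hXcons : X = ⟨false, κ⟩ :: tailY κ d m := rfl
  have hXne : X ≠ [] := by rw [hXcons]; simp
  have hXh : ∀ q ∈ X.head?, q.1 = false := by
    intro q hq
    rw [hXcons] at hq
    simp only [List.head?_cons, Option.mem_def, Option.some.injEq] at hq
    rw [← hq]
  have hXl := mark2_last hκ hd m
  rw [← hX] at hXl
  have hXnot := mark2_notMem hκ hd hdκ hdκ' m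
  set ψ := dblMap π with hψ
  have hXψ : ψ (val X) = 1 := mark2_ker π hκπ m
  -- the constant K
  obtain ⟨K, hK1, hK2⟩ : ∃ K, (∀ b, val (uu κ b) ∈ ball S K) ∧
      ∀ b, val (uu κ b ++ X) ∈ ball S K := by
    obtain ⟨n1, h1⟩ := exists_mem_ball hgen (val (uu κ true))
    obtain ⟨n2, h2⟩ := exists_mem_ball hgen (val (uu κ false))
    obtain ⟨n3, h3⟩ := exists_mem_ball hgen (val (uu κ true ++ X))
    obtain ⟨n4, h4⟩ := exists_mem_ball hgen (val (uu κ false ++ X))
    refine ⟨n1 + n2 + n3 + n4, ?_, ?_⟩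
    · rintro (_ | _)
      · exact ball_mono (by omega) h2
      · exact ball_mono (by omega) h1
    · rintro (_ | _)
      · exact ball_mono (by omega) h4
      · exact ball_mono (by omega) h3
  set ρ := gr S' hS' with hρ
  have hρ0 : 0 < ρ := gr_pos _
  set z := ρ⁻¹ with hz
  have hz0 : 0 < z := inv_pos.2 hρ0
  have hz1 : z < 1 := inv_lt_one_of_one_lt₀ hgr
  have hzK : 0 < z ^ (2 * K) := by positivity
  obtain ⟨n, hn⟩ := diverge hS' hgr (1 + 4 * (z ^ (2 * K))⁻¹)
  set F : Finset (Dbl A) := (ball_finite hS' n).toFinset with hF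
  have hFmem : ∀ g, g ∈ F ↔ g ∈ ball S' n := by simp [hF]
  -- shortest lifts
  have hex : ∀ g' : Dbl A, g' ∈ F → ∃ L : List (SB B), Red L ∧ ψ (val L) = g' ∧
      len S (val L) ≤ len S' g' ∧ ¬ X <:+: L := by
    intro g' hg'
    obtain ⟨l, hl1, hl2⟩ := lift_mem_ball ψ hlift (mem_ball_len ((hFmem g').1 hg'))
    obtain ⟨L, hL1, hL2⟩ := exists_red l
    refine ⟨L, hL1, by rw [hL2, hl2], by rw [hL2]; exact len_le hl1, ?_⟩
    refine short_no_infix ψ hgen hC hD hXψ hXlen hL1 ?_
    intro h hh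
    rw [hL2] at hh ⊢
    obtain ⟨j, hj⟩ := exists_mem_ball hgen h
    have h1 := map_mem_ball ψ hmap (mem_ball_len hj)
    rw [hh, hl2] at h1
    exact (len_le hl1).trans (len_le h1)
  choose! L hL1 hL2 hL3 hL4 using hex
  let F1 := F.erase 1
  have hone : (1 : Dbl A) ∈ F := (hFmem 1).2 (one_mem_ball n)
  have hsum1 : 4 * (z ^ (2 * K))⁻¹ < ∑ g ∈ F1, z ^ len S' g := by
    have h1 := Finset.add_sum_erase F (fun g => z ^ len S' g) hone
    have h2 : len S' (1 : Dbl A) = 0 := Nat.le_zero.1 (len_le (one_mem_ball 0))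
    simp only [h2, pow_zero] at h1
    have h3 : ∑ g ∈ F, z ^ len S' g = 1 + ∑ g ∈ F1, z ^ len S' g := h1.symm
    have h4 : 1 + 4 * (z ^ (2 * K))⁻¹ < ∑ g ∈ F, z ^ len S' g := hn
    linarith
  let cl : Dbl A → Bool × Bool := fun g =>
    (((L g).head?.map (fun p => p.1)).getD true, ((L g).getLast?.map (fun p => p.1)).getD true)
  obtain ⟨b, hb⟩ : ∃ b : Bool × Bool,
      (z ^ (2 * K))⁻¹ < ∑ g ∈ F1 with cl g = b, z ^ len S' g := by
    by_contra hcon
    push Not at hcon
    have h1 : ∑ g ∈ F1, z ^ len S' g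
        = ∑ b : Bool × Bool, ∑ g ∈ F1 with cl g = b, z ^ len S' g :=
      (Finset.sum_fiberwise F1 cl _).symm
    have h2 : ∑ b : Bool × Bool, ∑ g ∈ F1 with cl g = b, z ^ len S' g
        ≤ ∑ b : Bool × Bool, (z ^ (2 * K))⁻¹ := Finset.sum_le_sum fun b _ => hcon b
    have h3 : ∑ _b : Bool × Bool, (z ^ (2 * K))⁻¹ = 4 * (z ^ (2 * K))⁻¹ := by
      rw [Finset.sum_const, Finset.card_univ]
      simp
    linarith
  let F2 := F1.filter (fun g => cl g = b)
  have hF2 : ∀ g ∈ F2, g ∈ F ∧ g ≠ 1 ∧ cl g = b := by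
    intro g hg
    obtain ⟨h1, h2⟩ := Finset.mem_filter.1 hg
    obtain ⟨h3, h4⟩ := Finset.mem_erase.1 h1
    exact ⟨h4, h3, h2⟩
  let a : Dbl A → List (SB B) := fun g => uu κ b.1 ++ (L g ++ uu κ b.2)
  have hgood : ∀ g ∈ F2, Good X (a g) := by
    intro g hg
    obtain ⟨h1, h2, h3⟩ := hF2 g hg
    have hne' : L g ≠ [] := by
      intro h
      apply h2
      rw [← hL2 g h1, h]
      simp
    refine good_ext hXcons hXl hκ (hL1 g h1) hne' (hL4 g h1) ?_ ?_
    · intro p hp
      rw [← h3]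
      simp only [cl]
      rw [Option.mem_def] at hp
      rw [hp]
      rfl
    · intro p hp
      rw [← h3]
      simp only [cl]
      rw [Option.mem_def] at hp
      rw [hp]
      rfl
  let y : Dbl A → Dbl B := fun g => val (a g ++ X)
  have hyval : ∀ g, y g = val (uu κ b.1) * val (L g) * val (uu κ b.2 ++ X) := by
    intro g
    simp only [y, a, val_append, mul_assoc]
  have hyinj : Set.InjOn y F2 := by
    intro g hg g' hg' he
    rw [hyval, hyval] at he
    have h1 : val (L g) = val (L g') := mul_left_cancel (mul_right_cancel he)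
    rw [← hL2 g (hF2 g hg).1, h1, hL2 g' (hF2 g' hg').1]
  have hylen : ∀ g ∈ F2, len S (y g) ≤ len S' g + 2 * K := by
    intro g hg
    obtain ⟨j, hj⟩ := exists_mem_ball hgen (val (L g))
    have h1 : y g ∈ ball S (K + len S (val (L g)) + K) := by
      rw [hyval]
      exact mul_mem_ball (mul_mem_ball (hK1 _) (mem_ball_len hj)) (hK2 _)
    have h2 := len_le h1
    have h3 := hL3 g (hF2 g hg).1
    omega
  let Y : Finset (Dbl B) := F2.image y
  have hYsum : 1 < ∑ x ∈ Y, z ^ len S x := by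
    rw [Finset.sum_image hyinj]
    calc (1 : ℝ) = z ^ (2 * K) * (z ^ (2 * K))⁻¹ := (mul_inv_cancel₀ hzK.ne').symm
      _ < z ^ (2 * K) * ∑ g ∈ F2, z ^ len S' g := by
          exact mul_lt_mul_of_pos_left hb hzK
      _ = ∑ g ∈ F2, z ^ (len S' g + 2 * K) := by
          rw [Finset.mul_sum]
          exact Finset.sum_congr rfl fun g _ => by rw [pow_add, mul_comm]
      _ ≤ ∑ g ∈ F2, z ^ len S (y g) := Finset.sum_le_sum fun g hg =>
          pow_le_pow_of_le_one hz0.le hz1.le (hylen g hg)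
  have hYinj : ∀ l l' : List (Dbl B), (∀ x ∈ l, x ∈ Y) → (∀ x ∈ l', x ∈ Y) →
      l.prod = l'.prod → l = l' := by
    have hdec : ∀ l : List (Dbl B), (∀ x ∈ l, x ∈ Y) → ∃ l0 : List (List (SB B)),
        (∀ w ∈ l0, Good X w) ∧ l0.map (fun w => val (w ++ X)) = l := by
      intro l hl
      refine exists_map_list (Y := {w | Good X w}) l ?_
      intro x hx
      obtain ⟨g, hg, rfl⟩ := Finset.mem_image.1 (hl x hx)
      exact ⟨a g, hgood g hg, rfl⟩
    intro l l' hl hl' he
    obtain ⟨l0, h1, rfl⟩ := hdec l hl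
    obtain ⟨l1, h2, rfl⟩ := hdec l' hl'
    rw [← val_cat, ← val_cat] at he
    have h3 := red_inj (cat_red X hXred hXne hXh hXl l0 h1).1
      (cat_red X hXred hXne hXh hXl l1 h2).1 he
    rw [cat_inj X hXcons hXnot l0 l1 h1 h2 h3]
  have hcont : Continuous (fun t : ℝ => ∑ x ∈ Y, t ^ len S x) :=
    continuous_finsetSum _ fun x _ => continuous_pow _
  have h2 : ∀ᶠ t in 𝓝 z, 1 < ∑ x ∈ Y, t ^ len S x :=
    hcont.continuousAt.eventually (lt_mem_nhds hYsum)
  have h3 : ∀ᶠ t in 𝓝[<] z, (1 < ∑ x ∈ Y, t ^ len S x) ∧ 0 < t := by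
    have h4 : ∀ᶠ t in 𝓝 z, (1 < ∑ x ∈ Y, t ^ len S x) ∧ 0 < t := h2.and (lt_mem_nhds hz0)
    exact h4.filter_mono nhdsWithin_le_nhds
  obtain ⟨t, ⟨ht1, ht0⟩, htz⟩ := (h3.and self_mem_nhdsWithin).exists
  have htz' : t < z := htz
  have h5 := lower_free hS Y (fun x _ => exists_mem_ball hgen x) hYinj ht0 ht1.le
  have h6 : ρ < t⁻¹ := by
    rw [hz] at htz'
    exact (lt_inv_comm₀ ht0 hρ0).1 htz'
  exact h6.trans_le h5

end Tight2

/-- a set of growth rate at least 2 inside some ball forces growth rate greater than one -/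
theorem one_lt_gr {G : Type*} [Group G] {U S' : Set G} (hU : U.Finite) (hS' : S'.Finite)
    (h2 : 2 ≤ gr U hU) (h : ∀ x ∈ U, ∃ n, x ∈ ball S' n) : 1 < gr S' hS' := by
  classical
  obtain ⟨m, hm0, hm⟩ : ∃ m, 1 ≤ m ∧ ∀ x ∈ U, x ∈ ball S' m := by
    choose! n hn using h
    refine ⟨hU.toFinset.sup n + 1, by omega, fun x hx => ?_⟩
    have h1 := Finset.le_sup (f := n) ((Set.Finite.mem_toFinset hU).2 hx)
    exact ball_mono (by omega) (hn x hx)
  have hsub : ∀ n, ∀ {x}, x ∈ ball U n → x ∈ ball S' (m * n) := by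
    intro n
    induction n with
    | zero =>
      rintro x ⟨l, h1, _, rfl⟩
      have : l = [] := List.length_eq_zero_iff.1 (by omega)
      subst this
      exact one_mem_ball _
    | succ n ih =>
      intro x hx
      rcases ball_succ hx with h1 | ⟨s, y, hs, hy, rfl⟩
      · exact ball_mono (Nat.mul_le_mul_left m (Nat.le_succ n)) (ih h1)
      · have h2 : s ∈ ball S' m := by
          rcases hs with hs | hs
          · exact hm s hs
          · have := inv_mem_ball (hm _ hs)
            rwa [inv_inv] at this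
        have h3 := mul_mem_ball h2 (ih hy)
        rw [Nat.mul_succ, add_comm]
        exact h3
  by_contra hcon
  push Not at hcon
  set r : ℝ := (2 : ℝ) ^ (((m + 1 : ℕ) : ℝ)⁻¹) with hr
  have hr1 : 1 < r := Real.one_lt_rpow (by norm_num) (by positivity)
  have hr2 : r ^ (m + 1) = 2 := Real.rpow_inv_natCast_pow (by norm_num) (by omega)
  have hrm : r ^ m < 2 := by
    rw [← hr2]
    exact pow_lt_pow_right₀ hr1 (by omega)
  obtain ⟨N, hN⟩ := eventually_atTop.1 (eventually_le hS' (hcon.trans_lt hr1))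
  let n := N + 1
  have h1 : (2 : ℝ) ^ n ≤ ((ball U n).ncard : ℝ) :=
    (pow_le_pow_left₀ (by norm_num) h2 n).trans (gr_pow_le _ n)
  have h3 : ((ball U n).ncard : ℝ) ≤ ((ball S' (m * n)).ncard : ℝ) := by
    exact_mod_cast Set.ncard_le_ncard (fun x hx => hsub n hx) (ball_finite hS' _)
  have h4 : ((ball S' (m * n)).ncard : ℝ) ≤ r ^ (m * n) := by
    apply hN
    calc N ≤ n := Nat.le_succ N
      _ = 1 * n := (one_mul n).symm
      _ ≤ m * n := Nat.mul_le_mul_right n hm0
  have h5 : r ^ (m * n) < 2 ^ n := by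
    rw [pow_mul]
    exact pow_lt_pow_left₀ hrm (by positivity) (by omega)
  linarith

/-- two nontrivial elements generate growth in the free square -/
theorem two_le_gr_pair {A : Type*} [Group A] {x y : A} (hx : x ≠ 1) (hy : y ≠ 1) (hxy : x ≠ y) :
    2 ≤ gr (dbl {x, y}) (dbl_finite (Set.toFinite ({x, y} : Set A))) := by
  classical
  have hT : ({x, y} : Set A).Finite := Set.toFinite _
  have hb1 : x ∈ ball ({x, y} : Set A) 1 := mem_ball_one (Or.inl (by simp))
  have hb2 : y ∈ ball ({x, y} : Set A) 1 := mem_ball_one (Or.inl (by simp))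
  have hP : 1 ≤ P hT 1 (2⁻¹ : ℝ) := by
    have hsub : ({x, y} : Finset A) ⊆ X hT 1 := by
      intro w hw
      rw [Finset.mem_insert, Finset.mem_singleton] at hw
      rcases hw with rfl | rfl
      · exact (mem_X _).2 ⟨hx, hb1⟩
      · exact (mem_X _).2 ⟨hy, hb2⟩
    have h1 : ∑ w ∈ ({x, y} : Finset A), (2⁻¹ : ℝ) ^ len ({x, y} : Set A) w
        ≤ P hT 1 (2⁻¹ : ℝ) :=
      Finset.sum_le_sum_of_subset_of_nonneg hsub fun x _ _ => by positivity
    rw [Finset.sum_pair hxy] at h1
    have e : ∀ w : A, w ∈ ball ({x, y} : Set A) 1 →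
        (2⁻¹ : ℝ) ≤ (2⁻¹ : ℝ) ^ len ({x, y} : Set A) w := by
      intro w hw
      have := pow_le_pow_of_le_one (a := (2⁻¹ : ℝ)) (by norm_num) (by norm_num) (len_le hw)
      simpa using this
    have e1 := e _ hb1
    have e2 := e _ hb2
    linarith
  have := lower hT (z := (2⁻¹ : ℝ)) (by norm_num) hP
  simpa using this

section Criterion

variable {n : ℕ} {B : Type*} [Group B]

/-- the inclusion of the `i`-th copy of the free group -/
def cpy (i : Bool) : FreeGroup (Fin n) →* FreeGroup (Bool × Fin n) :=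
  FreeGroup.map (fun j => (i, j))

/-- the marking of the free square induced by a marking -/
def sq (θ : FreeGroup (Fin n) →* B) : FreeGroup (Bool × Fin n) →* Dbl B :=
  FreeGroup.lift (fun p => inc p.1 (θ (FreeGroup.of p.2)))

theorem sq_cpy (θ : FreeGroup (Fin n) →* B) (i : Bool) (v : FreeGroup (Fin n)) :
    sq θ (cpy i v) = inc i (θ v) := by
  have : (sq θ).comp (cpy i) = (inc i).comp θ := by
    apply FreeGroup.ext_hom
    intro j
    simp [sq, cpy]
  exact DFunLike.congr_fun this v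

theorem sq_surj {θ : FreeGroup (Fin n) →* B} (h : Function.Surjective θ) :
    Function.Surjective (sq θ) := by
  rw [← MonoidHom.range_eq_top, eq_top_iff]
  intro g _
  induction g using CoprodI.induction_on with
  | one => exact one_mem _
  | of i m =>
    obtain ⟨v, rfl⟩ := h m
    exact ⟨cpy i v, sq_cpy θ i v⟩
  | mul x y hx hy => exact mul_mem (hx trivial) (hy trivial)

theorem dblMap_sq {A : Type*} [Group A] (π : B →* A) (θ : FreeGroup (Fin n) →* B)
    (u : FreeGroup (Bool × Fin n)) : dblMap π (sq θ u) = sq (π.comp θ) u := by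
  have : (dblMap π).comp (sq θ) = sq (π.comp θ) := by
    apply FreeGroup.ext_hom
    intro p
    simp only [MonoidHom.comp_apply, sq, FreeGroup.lift_apply_of, dblMap_inc]
  exact DFunLike.congr_fun this u

/-- the kernel of the induced marking is the normal closure of the kernels of the copies -/
theorem ker_sq {A : Type*} [Group A] {θ : FreeGroup (Fin n) →* A} (hθ : Function.Surjective θ)
    (N : Subgroup (FreeGroup (Bool × Fin n))) [N.Normal]
    (hN : ∀ i v, θ v = 1 → cpy i v ∈ N) {u : FreeGroup (Bool × Fin n)} (hu : sq θ u = 1) :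
    u ∈ N := by
  let q : FreeGroup (Bool × Fin n) →* FreeGroup (Bool × Fin n) ⧸ N := QuotientGroup.mk' N
  have hle : ∀ i, θ.ker ≤ (q.comp (cpy i)).ker := by
    intro i v hv
    rw [MonoidHom.mem_ker, MonoidHom.comp_apply]
    exact (QuotientGroup.eq_one_iff _).2 (hN i v hv)
  let e := QuotientGroup.quotientKerEquivOfSurjective θ hθ
  let lam : ∀ _ : Bool, A →* FreeGroup (Bool × Fin n) ⧸ N := fun i =>
    (QuotientGroup.lift θ.ker (q.comp (cpy i)) (hle i)).comp e.symm.toMonoidHom
  have hlam : ∀ i v, lam i (θ v) = q (cpy i v) := by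
    intro i v
    have h1 : e.symm (θ v) = QuotientGroup.mk v := by
      rw [MulEquiv.symm_apply_eq]
      rfl
    show QuotientGroup.lift θ.ker (q.comp (cpy i)) (hle i) (e.symm (θ v)) = _
    rw [h1]
    rfl
  have hcomp : (CoprodI.lift lam).comp (sq θ) = q := by
    apply FreeGroup.ext_hom
    rintro ⟨i, j⟩
    have h1 : sq θ (FreeGroup.of (i, j)) = inc i (θ (FreeGroup.of j)) := by simp [sq]
    rw [MonoidHom.comp_apply, h1]
    have h2 : CoprodI.lift lam (inc i (θ (FreeGroup.of j))) = lam i (θ (FreeGroup.of j)) :=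
      CoprodI.lift_of lam _
    rw [h2, hlam]
    simp [cpy]
  have h3 : q u = 1 := by
    rw [← hcomp, MonoidHom.comp_apply, hu, map_one]
  exact (QuotientGroup.eq_one_iff _).1 h3

/-- eventually killed elements -/
def ev (θ : ℕ → FreeGroup (Fin n) →* B) : Subgroup (FreeGroup (Bool × Fin n)) where
  carrier := {u | ∀ᶠ k in atTop, sq (θ k) u = 1}
  one_mem' := Eventually.of_forall fun k => map_one _
  mul_mem' := by
    intro a b ha hb
    filter_upwards [ha, hb] with k h1 h2
    rw [map_mul, h1, h2, one_mul]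
  inv_mem' := by
    intro a ha
    filter_upwards [ha] with k h1
    rw [map_inv, h1, inv_one]

instance (θ : ℕ → FreeGroup (Fin n) →* B) : (ev θ).Normal := by
  constructor
  intro a ha g
  show ∀ᶠ k in atTop, sq (θ k) (g * a * g⁻¹) = 1
  have ha' : ∀ᶠ k in atTop, sq (θ k) a = 1 := ha
  filter_upwards [ha'] with k h1
  rw [map_mul, map_mul, h1, map_inv, mul_one, mul_inv_cancel]

/-- the quotient is infinite -/
theorem quot_infinite {θ₀ : FreeGroup (Fin n) →* B} (h₀ : Function.Surjective θ₀)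
    (K : Subgroup B) [K.Normal] (hK : K ≠ ⊥) (θ : ℕ → FreeGroup (Fin n) →* B)
    (hθ : ∀ k, Function.Surjective (θ k))
    (hlim : ∀ u, θ₀ u ∈ K → ∀ᶠ k in atTop, θ k u = 1) : Infinite (B ⧸ K) := by
  by_contra hfin
  rw [not_infinite_iff_finite] at hfin
  let p : FreeGroup (Fin n) →* B ⧸ K := (QuotientGroup.mk' K).comp θ₀
  have hp : Function.Surjective p := (QuotientGroup.mk'_surjective K).comp h₀
  have hidx : p.ker.index = Nat.card (B ⧸ K) := by
    rw [Subgroup.index_ker, MonoidHom.range_eq_top.2 hp, Subgroup.card_top]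
  have hpos : 0 < Nat.card (B ⧸ K) := Nat.card_pos
  have hFI : p.ker.FiniteIndex := ⟨by rw [hidx]; exact hpos.ne'⟩
  have hfg : p.ker.FG := by
    have hG : Group.FG (FreeGroup (Fin n)) := inferInstance
    exact (Group.fg_iff_subgroup_fg _).1 (Subgroup.fg_of_index_ne_zero p.ker)
  obtain ⟨Z, hZ⟩ := hfg
  have hev : ∀ᶠ k in atTop, ∀ v ∈ Z, θ k v = 1 := by
    rw [Finset.eventually_all]
    intro v hv
    apply hlim
    have h1 : v ∈ p.ker := by
      rw [← hZ]
      exact Subgroup.subset_closure hv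
    exact (QuotientGroup.eq_one_iff _).1 h1
  obtain ⟨k, hk⟩ := hev.exists
  have hle : p.ker ≤ (θ k).ker := by
    rw [← hZ, Subgroup.closure_le]
    intro v hv
    exact hk v hv
  have h1 : (θ k).ker.index ∣ p.ker.index := Subgroup.index_dvd_of_le hle
  have h2 : (θ k).ker.index = Nat.card B := by
    rw [Subgroup.index_ker, MonoidHom.range_eq_top.2 (hθ k), Subgroup.card_top]
  rw [h2, hidx, ← Subgroup.card_mul_index K] at h1
  have h3 : K.index = Nat.card (B ⧸ K) := rfl
  rw [h3] at h1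
  have h4 : Nat.card K * Nat.card (B ⧸ K) ≤ Nat.card (B ⧸ K) := Nat.le_of_dvd hpos h1
  have h5 : Nat.card B ≠ 0 := by
    intro h6
    have h7 := Subgroup.index_dvd_of_le hle
    rw [h2, h6, hidx, zero_dvd_iff] at h7
    exact hpos.ne' h7
  have h6 : Nat.card K ≠ 0 := by
    intro h7
    apply h5
    rw [← Subgroup.card_mul_index K, h7, zero_mul]
  have h7 : Nat.card K = 1 := by
    have : Nat.card K ≤ 1 := by
      by_contra hcon
      push Not at hcon
      nlinarith
    omega
  exact hK (Subgroup.card_eq_one.1 h7)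

/-- the criterion, in the form: every finite generating set can be improved -/
theorem exists_smaller' {θ₀ : FreeGroup (Fin n) →* B} (h₀ : Function.Surjective θ₀)
    (K : Subgroup B) [K.Normal] (hK : K ≠ ⊥) (θ : ℕ → FreeGroup (Fin n) →* B)
    (hθ : ∀ k, Function.Surjective (θ k))
    (hlim : ∀ u, θ₀ u ∈ K → ∀ᶠ k in atTop, θ k u = 1)
    {S : Set (Dbl B)} (hS : S.Finite) (hgen : Subgroup.closure S = ⊤) :
    ∃ (S₁ : Set (Dbl B)) (hS₁ : S₁.Finite), Subgroup.closure S₁ = ⊤ ∧
      gr S₁ hS₁ < gr S hS := by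
  classical
  let π : B →* B ⧸ K := QuotientGroup.mk' K
  have hinf : Infinite (B ⧸ K) := quot_infinite h₀ K hK θ hθ hlim
  have hBinf : Infinite B := Infinite.of_surjective π (QuotientGroup.mk'_surjective K)
  -- the marking of the quotient
  let p : FreeGroup (Fin n) →* B ⧸ K := π.comp θ₀
  have hp : Function.Surjective p := (QuotientGroup.mk'_surjective K).comp h₀
  have hcomp : ∀ u, dblMap π (sq θ₀ u) = sq p u := dblMap_sq π θ₀
  have hevk : ∀ u, sq p u = 1 → ∀ᶠ k in atTop, sq (θ k) u = 1 := by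
    intro u hu
    refine ker_sq hp (ev θ) ?_ hu
    intro i v hv
    have hv' : θ₀ v ∈ K := (QuotientGroup.eq_one_iff _).1 hv
    show ∀ᶠ k in atTop, sq (θ k) (cpy i v) = 1
    filter_upwards [hlim v hv'] with k hk
    rw [sq_cpy, hk, map_one]
  choose w hw using fun s : Dbl B => sq_surj h₀ s
  let W : Set (FreeGroup (Bool × Fin n)) := w '' S
  have hW : W.Finite := hS.image w
  have hSW : (sq θ₀) '' W = S := by
    rw [Set.image_image]
    simp only [hw, Set.image_id']
  let S' : Set (Dbl (B ⧸ K)) := (sq p) '' W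
  have hS' : S'.Finite := hW.image _
  have hmap : ∀ s ∈ S, dblMap π s ∈ S' := by
    intro s hs
    refine ⟨w s, ⟨s, hs, rfl⟩, ?_⟩
    have h1 := hcomp (w s)
    rw [show sq θ₀ (w s) = s from hw s] at h1
    exact h1.symm
  have hlift : ∀ s' ∈ S', ∃ s ∈ S, dblMap π s = s' := by
    rintro _ ⟨_, ⟨s, hs, rfl⟩, rfl⟩
    refine ⟨s, hs, ?_⟩
    have h1 := hcomp (w s)
    rwa [show sq θ₀ (w s) = s from hw s] at h1
  -- exponential growth of the quotient
  obtain ⟨x, hx⟩ := Set.Infinite.nonempty (Set.Finite.infinite_compl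
    (Set.finite_singleton (1 : B ⧸ K)))
  obtain ⟨y, hy⟩ := Set.Infinite.nonempty (Set.Finite.infinite_compl
    (Set.toFinite ({1, x} : Set (B ⧸ K))))
  have hx1 : x ≠ 1 := hx
  have hy1 : y ≠ 1 := fun h => hy (by simp [h])
  have hxy : x ≠ y := fun h => hy (by simp [h])
  have hsurjπ : ∀ a : B ⧸ K, ∃ b, π b = a := QuotientGroup.mk'_surjective K
  have hgr : 1 < gr S' hS' := by
    refine one_lt_gr (dbl_finite (Set.toFinite ({x, y} : Set (B ⧸ K)))) hS'
      (two_le_gr_pair hx1 hy1 hxy) ?_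
    rintro _ ⟨i, a, _, rfl⟩
    obtain ⟨b, rfl⟩ := hsurjπ a
    obtain ⟨N, hN⟩ := exists_mem_ball hgen (inc i b)
    refine ⟨N, ?_⟩
    rw [← dblMap_inc]
    exact map_mem_ball _ hmap hN
  -- kernel element and auxiliary element
  obtain ⟨κ, hκK, hκ1⟩ : ∃ κ : B, κ ∈ K ∧ κ ≠ 1 := by
    by_contra hcon
    push Not at hcon
    apply hK
    rw [eq_bot_iff]
    intro x hx
    exact Subgroup.mem_bot.2 (hcon x hx)
  obtain ⟨d, hd⟩ := Set.Infinite.nonempty (Set.Finite.infinite_compl
    (Set.toFinite ({1, κ, κ⁻¹} : Set B)))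
  have hd1 : d ≠ 1 := fun h => hd (by simp [h])
  have hd2 : d ≠ κ := fun h => hd (by simp [h])
  have hd3 : d⁻¹ ≠ κ := fun h => hd (by simp [← h])
  have hlt : gr S' hS' < gr S hS :=
    tight2 π hκ1 ((QuotientGroup.eq_one_iff _).2 hκK) hd1 hd2 hd3 hS hgen hS' hmap hlift hgr
  obtain ⟨r, hr1, hr2⟩ := exists_between hlt
  obtain ⟨N, hN, hN0⟩ := ((eventually_le hS' hr1).and (eventually_ne_atTop 0)).exists
  have hv : ∀ q : Bool × Fin n, ∃ v ∈ Subgroup.closure W, sq θ₀ v = sq θ₀ (FreeGroup.of q) := by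
    intro q
    have h1 : sq θ₀ (FreeGroup.of q) ∈ Subgroup.closure S := by rw [hgen]; trivial
    rw [← hSW, ← MonoidHom.map_closure] at h1
    obtain ⟨v, hv, hv'⟩ := h1
    exact ⟨v, hv, hv'⟩
  choose v hv1 hv2 using hv
  have hk1 : ∀ᶠ k in atTop, ∀ q ∈ (Finset.univ : Finset (Bool × Fin n)),
      sq (θ k) ((FreeGroup.of q)⁻¹ * v q) = 1 := by
    rw [Finset.eventually_all]
    intro q _
    apply hevk
    rw [← hcomp, map_mul, map_inv, hv2, inv_mul_cancel, map_one]
  let E : Finset (FreeGroup (Bool × Fin n)) := (ball_finite hW N).toFinset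
  have hk2 : ∀ᶠ k in atTop, ∀ q ∈ E ×ˢ E, sq p q.1 = sq p q.2 → sq (θ k) q.1 = sq (θ k) q.2 := by
    rw [Finset.eventually_all]
    intro q _
    by_cases hq : sq p q.1 = sq p q.2
    · have h1 := hevk (q.1⁻¹ * q.2) (by rw [map_mul, map_inv, hq, inv_mul_cancel])
      filter_upwards [h1] with k hk _
      rw [map_mul, map_inv, inv_mul_eq_one] at hk
      exact hk
    · exact Eventually.of_forall fun k h => absurd h hq
  obtain ⟨k, hkk1, hkk2⟩ := (hk1.and hk2).exists
  let S₁ : Set (Dbl B) := (sq (θ k)) '' W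
  have hS₁ : S₁.Finite := hW.image _
  refine ⟨S₁, hS₁, ?_, ?_⟩
  · rw [eq_top_iff]
    intro g _
    obtain ⟨u, rfl⟩ := sq_surj (hθ k) g
    have h1 : Subgroup.map (sq (θ k)) ⊤ ≤ Subgroup.closure S₁ := by
      rw [← FreeGroup.closure_range_of (Bool × Fin n), MonoidHom.map_closure, Subgroup.closure_le]
      rintro _ ⟨_, ⟨q, rfl⟩, rfl⟩
      have h2 := hkk1 q (Finset.mem_univ q)
      rw [map_mul, map_inv, inv_mul_eq_one] at h2
      rw [h2, SetLike.mem_coe, show S₁ = (sq (θ k)) '' W from rfl, ← MonoidHom.map_closure]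
      exact ⟨v q, hv1 q, rfl⟩
    exact h1 ⟨u, trivial, rfl⟩
  · -- choose words for the elements of the limit ball
    have hball : (ball S₁ N).ncard ≤ (ball S' N).ncard := by
      have hlift2 : ∀ s' ∈ S', ∃ s ∈ W, sq p s = s' := fun s' hs' => hs'
      have hex : ∀ a : Dbl (B ⧸ K), a ∈ ball S' N → ∃ u ∈ ball W N, sq p u = a :=
        fun a ha => lift_mem_ball (sq p) hlift2 ha
      choose! f hf1 hf2 using hex
      have hsub : ball S₁ N ⊆ (fun a => sq (θ k) (f a)) '' (ball S' N) := by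
        intro g hg
        have hlift1 : ∀ s' ∈ S₁, ∃ s ∈ W, sq (θ k) s = s' := fun s' hs' => hs'
        obtain ⟨u, hu, rfl⟩ := lift_mem_ball (sq (θ k)) hlift1 hg
        have h1 : sq p u ∈ ball S' N := map_mem_ball (S' := S') (sq p) (fun s hs => ⟨s, hs, rfl⟩) hu
        refine ⟨sq p u, h1, ?_⟩
        have hmem : (f (sq p u), u) ∈ E ×ˢ E := by
          rw [Finset.mem_product]
          exact ⟨(Set.Finite.mem_toFinset _).2 (hf1 _ h1), (Set.Finite.mem_toFinset _).2 hu⟩
        exact hkk2 _ hmem (hf2 _ h1)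
      exact (Set.ncard_le_ncard hsub ((ball_finite hS' N).image _)).trans
        (Set.ncard_image_le (ball_finite hS' N))
    have h1 : gr S₁ hS₁ ≤ r := by
      refine gr_le_of hS₁ hN0 ((gr_pos hS').trans hr1).le ?_
      refine le_trans ?_ hN
      exact_mod_cast hball
    exact h1.trans_lt hr2

end Criterion

end Pool.Agent.H205R3.Grow
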