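import Mathlib

/-!
# Horofunction boundaries of virtually abelian groups are countable

Every word is obtained from a core word of bounded length by inserting cycles (words evaluating in
the abelian normal subgroup `A`) of bounded length. A limit of the functions
`y ↦ |x⁻¹ y| - |x⁻¹|` is determined by finitely many data for each of the finitely many core words.
-/

set_option autoImplicit false

open Filter Topology
open scoped IsMulCommutative

namespace Pool.Agent.H205R3.Horo

section Basic

variable {G : Type} [Group G]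

/-- The word length of `g` with respect to the finite set `S` and the inverses of its elements. -/
noncomputable def wl (S : Finset G) (g : G) : ℕ :=
  sInf {n : ℕ | ∃ l : List G, l.length = n ∧ (∀ s ∈ l, s ∈ S ∨ s⁻¹ ∈ S) ∧ l.prod = g}

/-- The function `y ↦ d(x, y) - d(x, 1)`. -/
noncomputable def mf (S : Finset G) (x y : G) : ℝ :=
  (wl S (x⁻¹ * y) : ℝ) - (wl S (x⁻¹ * 1) : ℝ)

/-- The metric-functional boundary: the pointwise closure of the set of the functions `mf S x`
minus these functions. -/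
noncomputable def bdry (S : Finset G) : Set (G → ℝ) :=
  closure (Set.range (mf S)) \ Set.range (mf S)

/-- The letters. -/
abbrev Ltr (S : Finset G) : Type := {s : G // s ∈ S ∨ s⁻¹ ∈ S}

instance (S : Finset G) : Finite (Ltr S) := by
  have h : {s : G | s ∈ S ∨ s⁻¹ ∈ S}.Finite := by
    have h1 : {s : G | s ∈ S ∨ s⁻¹ ∈ S} = (S : Set G) ∪ (fun s : G => s⁻¹) ⁻¹' (S : Set G) := by
      ext s; simp
    rw [h1]
    exact S.finite_toSet.union (S.finite_toSet.preimage inv_injective.injOn)
  exact h.to_subtype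

/-- Evaluation of a word. -/
def ev {S : Finset G} (l : List (Ltr S)) : G := (l.map Subtype.val).prod

variable {S : Finset G}

theorem ev_nil : ev ([] : List (Ltr S)) = 1 := rfl

theorem ev_append (u v : List (Ltr S)) : ev (u ++ v) = ev u * ev v := by
  simp [ev]

theorem wl_le (l : List (Ltr S)) : wl S (ev l) ≤ l.length := by
  apply Nat.sInf_le
  refine ⟨l.map Subtype.val, by simp, ?_, rfl⟩
  intro s hs
  obtain ⟨a, -, rfl⟩ := List.mem_map.1 hs
  exact a.2

theorem exists_geod (hS : Subgroup.closure (S : Set G) = ⊤) (g : G) :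
    ∃ l : List (Ltr S), ev l = g ∧ l.length = wl S g := by
  have hne : {n : ℕ | ∃ l : List G, l.length = n ∧ (∀ s ∈ l, s ∈ S ∨ s⁻¹ ∈ S) ∧
      l.prod = g}.Nonempty := by
    have hg : g ∈ (Subgroup.closure (S : Set G)).toSubmonoid := by rw [hS]; trivial
    rw [Subgroup.closure_toSubmonoid] at hg
    obtain ⟨l, hl, hp⟩ := Submonoid.exists_list_of_mem_closure hg
    exact ⟨l.length, l, rfl, fun s hs => by simpa using hl s hs, hp⟩
  obtain ⟨l, hlen, hl, hp⟩ := Nat.sInf_mem hne
  have : ∃ l' : List (Ltr S), l'.map Subtype.val = l := by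
    refine ⟨l.pmap (fun a h => (⟨a, h⟩ : Ltr S)) hl, ?_⟩
    rw [List.map_pmap]
    simp
  obtain ⟨l', hl'⟩ := this
  refine ⟨l', ?_, ?_⟩
  · simp [ev, hl', hp]
  · have : l'.length = l.length := by rw [← hl']; simp
    rw [this, hlen]; rfl

end Basic

section Core

variable {G : Type} [Group G] {S : Finset G} (A : Subgroup G)

/-- The cosets visited by the prefixes of a word. -/
def vis (w : List (Ltr S)) : Set (G ⧸ A) :=
  {q | ∃ u v, w = u ++ v ∧ ((ev u : G) : G ⧸ A) = q}

theorem mem_vis_prefix (u v : List (Ltr S)) : ((ev u : G) : G ⧸ A) ∈ vis A (u ++ v) :=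
  ⟨u, v, rfl, rfl⟩

theorem vis_prefix_subset (u v : List (Ltr S)) : vis A u ⊆ vis A (u ++ v) := by
  rintro q ⟨a, b, rfl, rfl⟩
  exact ⟨a, b ++ v, by simp, rfl⟩

variable [A.Normal]

theorem mk_cycle (a c b : G) (hc : c ∈ A) : ((a * c * b : G) : G ⧸ A) = ((a * b : G) : G ⧸ A) := by
  rw [QuotientGroup.eq]
  have : (a * c * b)⁻¹ * (a * b) = b⁻¹ * c⁻¹ * b := by group
  rw [this]
  have := (inferInstance : A.Normal).conj_mem c⁻¹ (A.inv_mem hc) b⁻¹
  simpa using this

theorem vis_insert (u c v : List (Ltr S)) (hc : ev c ∈ A) :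
    vis A (u ++ v) ⊆ vis A (u ++ c ++ v) := by
  rintro q ⟨a, b, hab, rfl⟩
  rcases List.append_eq_append_iff.1 hab with ⟨a', h1, h2⟩ | ⟨c', h1, h2⟩
  · refine ⟨u ++ c ++ a', b, by simp [h2], ?_⟩
    rw [h1, ev_append, ev_append, ev_append]
    exact mk_cycle A _ _ _ hc
  · exact ⟨a, c' ++ c ++ v, by simp [h1], rfl⟩

variable [IsMulCommutative A]

omit [A.Normal] in
theorem out_conj (u c : G) (hc : c ∈ A) :
    ((u : G ⧸ A).out) * c * ((u : G ⧸ A).out)⁻¹ = u * c * u⁻¹ := by
  obtain ⟨h, hh⟩ := QuotientGroup.mk_out_eq_mul A u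
  rw [hh]
  have h1 : (h : G) * c = c * h := by
    have := mul_comm' h (⟨c, hc⟩ : A)
    exact congrArg Subtype.val this
  calc u * (h : G) * c * (u * (h : G))⁻¹ = u * ((h : G) * c) * (h : G)⁻¹ * u⁻¹ := by group
    _ = u * (c * h) * (h : G)⁻¹ * u⁻¹ := by rw [h1]
    _ = u * c * u⁻¹ := by group

theorem insert_word (w c : List (Ltr S)) (q : G ⧸ A) (hq : q ∈ vis A w) (hc : ev c ∈ A) :
    ∃ w' : List (Ltr S), ev w' = q.out * ev c * (q.out)⁻¹ * ev w ∧
      w'.length = w.length + c.length ∧ vis A w ⊆ vis A w' := by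
  obtain ⟨u, v, rfl, rfl⟩ := hq
  refine ⟨u ++ c ++ v, ?_, ?_, vis_insert A u c v hc⟩
  · rw [out_conj A _ _ hc]
    simp only [ev_append]
    group
  · simp only [List.length_append]; omega

end Core

section Rep

variable {G : Type} [Group G] {S : Finset G} (A : Subgroup G)

/-- The bound on the lengths of core words and cycles. -/
noncomputable def bd : ℕ := Nat.card ((G ⧸ A) × Set (G ⧸ A))

/-- Words of bounded length. -/
def W (S : Finset G) : Type := {l : List (Ltr S) // l.length ≤ bd A}

instance : Finite (W A S) := (List.finite_length_le (Ltr S) (bd A)).to_subtype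

/-- Index set for the cycles. -/
abbrev K (S : Finset G) : Type := (G ⧸ A) × W A S

variable [A.FiniteIndex]

noncomputable instance : Fintype (K A S) := Fintype.ofFinite _

variable [A.Normal] [IsMulCommutative A]

open Classical in
/-- The contribution of a cycle. -/
noncomputable def tau (i : K A S) : A :=
  if h : ev i.2.1 ∈ A then
    ⟨i.1.out * ev i.2.1 * (i.1.out)⁻¹, (inferInstance : A.Normal).conj_mem _ h _⟩
  else 1

/-- The contribution of a vector of multiplicities. -/
noncomputable def T (ν : K A S → ℕ) : A := ∏ i, tau A i ^ ν i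

/-- The total length of the inserted cycles. -/
noncomputable def len (ν : K A S → ℕ) : ℕ := ∑ i, ν i * i.2.1.length

/-- Only cycles at visited cosets are used. -/
def valid (j : List (Ltr S)) (ν : K A S → ℕ) : Prop :=
  ∀ i, ν i ≠ 0 → i.1 ∈ vis A j ∧ ev i.2.1 ∈ A

omit [A.FiniteIndex] [IsMulCommutative A] in
theorem tau_coe (i : K A S) (h : ev i.2.1 ∈ A) :
    ((tau A i : A) : G) = i.1.out * ev i.2.1 * (i.1.out)⁻¹ := by
  unfold tau
  rw [dif_pos h]

omit [A.FiniteIndex] in
theorem sound_aux (j : List (Ltr S)) (ν : K A S → ℕ) (hν : valid A j ν) (s : Finset (K A S)) :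
    ∃ w : List (Ltr S), ev w = ((∏ i ∈ s, tau A i ^ ν i : A) : G) * ev j ∧
      w.length = j.length + ∑ i ∈ s, ν i * i.2.1.length ∧ vis A j ⊆ vis A w := by
  classical
  induction s using Finset.induction_on with
  | empty => exact ⟨j, by simp, by simp, subset_rfl⟩
  | insert a s ha ih =>
    obtain ⟨w, hw1, hw2, hw3⟩ := ih
    have key : ∀ n : ℕ, (n ≠ 0 → a.1 ∈ vis A j ∧ ev a.2.1 ∈ A) →
        ∃ w' : List (Ltr S), ev w' = ((tau A a ^ n : A) : G) * ev w ∧
        w'.length = w.length + n * a.2.1.length ∧ vis A j ⊆ vis A w' := by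
      intro n
      induction n with
      | zero => intro _; exact ⟨w, by simp, by simp, hw3⟩
      | succ n ihn =>
        intro hn
        have hh := hn (Nat.succ_ne_zero n)
        obtain ⟨w', h1, h2, h3⟩ := ihn (fun _ => hh)
        obtain ⟨w'', g1, g2, g3⟩ := insert_word A w' a.2.1 a.1 (h3 hh.1) hh.2
        refine ⟨w'', ?_, ?_, h3.trans g3⟩
        · rw [g1, h1, ← tau_coe A a hh.2, pow_succ']
          push_cast
          group
        · rw [g2, h2]; ring
    obtain ⟨w', h1, h2, h3⟩ := key (ν a) (hν a)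
    refine ⟨w', ?_, ?_, h3⟩
    · rw [h1, hw1, Finset.prod_insert ha]
      push_cast
      group
    · rw [h2, hw2, Finset.sum_insert ha]; ring

theorem sound (j : List (Ltr S)) (ν : K A S → ℕ) (hν : valid A j ν) :
    wl S ((T A ν : G) * ev j) ≤ j.length + len A ν := by
  obtain ⟨w, h1, h2, -⟩ := sound_aux A j ν hν Finset.univ
  have : ((T A ν : A) : G) * ev j = ev w := by rw [h1]; rfl
  rw [this]
  refine (wl_le w).trans ?_
  rw [h2]; rfl

omit [IsMulCommutative A] in
theorem split_long (w : List (Ltr S)) (hw : bd A < w.length) :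
    ∃ u c v : List (Ltr S), w = u ++ c ++ v ∧ c ≠ [] ∧ c.length ≤ bd A ∧ ev c ∈ A ∧
      vis A w ⊆ vis A (u ++ v) := by
  classical
  have : Fintype (G ⧸ A) := Fintype.ofFinite _
  let F : Fin (bd A + 1) → (G ⧸ A) × Set (G ⧸ A) :=
    fun i => (((ev (w.take i) : G) : G ⧸ A), vis A (w.take i))
  have hcard : Fintype.card ((G ⧸ A) × Set (G ⧸ A)) < Fintype.card (Fin (bd A + 1)) := by
    rw [Fintype.card_fin, bd, Nat.card_eq_fintype_card]
    exact Nat.lt_succ_self _
  obtain ⟨a, b, hab, hF⟩ : ∃ a b : Fin (bd A + 1), a < b ∧ F a = F b := by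
    obtain ⟨x, y, hxy, he⟩ := Fintype.exists_ne_map_eq_of_card_lt F hcard
    rcases lt_or_gt_of_ne hxy with h | h
    · exact ⟨x, y, h, he⟩
    · exact ⟨y, x, h, he.symm⟩
  have hab' : (a : ℕ) < b := hab
  have hb : (b : ℕ) ≤ bd A := Nat.lt_succ_iff.1 b.2
  have hF1 : ((ev (w.take a) : G) : G ⧸ A) = ((ev (w.take b) : G) : G ⧸ A) :=
    congrArg Prod.fst hF
  have hF2 : vis A (w.take a) = vis A (w.take b) := congrArg Prod.snd hF
  set u := w.take a with hu
  set c := (w.take b).drop a with hc
  set v := w.drop b with hv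
  have huc : u ++ c = w.take b := by
    have : u = (w.take b).take a := by
      rw [List.take_take, min_eq_left hab'.le]
    rw [this, hc]
    exact List.take_append_drop _ _
  have hwe : w = u ++ c ++ v := by
    rw [huc, hv]
    exact (List.take_append_drop _ _).symm
  have hcl : c.length = b - a := by
    rw [hc, List.length_drop, List.length_take]
    have : min (b : ℕ) w.length = b := min_eq_left (hb.trans hw.le)
    rw [this]
  have hcA : ev c ∈ A := by
    rw [← huc, ev_append, QuotientGroup.eq] at hF1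
    simpa using hF1
  refine ⟨u, c, v, hwe, ?_, ?_, hcA, ?_⟩
  · intro h0
    rw [h0] at hcl
    simp at hcl
    omega
  · rw [hcl]; omega
  · rintro q ⟨u1, v1, h1, rfl⟩
    rw [hwe] at h1
    rcases List.append_eq_append_iff.1 h1 with ⟨a', h2, h3⟩ | ⟨c', h2, h3⟩
    · refine ⟨u ++ a', v1, by simp [h3], ?_⟩
      rw [h2, ev_append, ev_append, ev_append]
      exact (mk_cycle A _ _ _ hcA).symm
    · have : ((ev u1 : G) : G ⧸ A) ∈ vis A u := by
        rw [hF2, ← huc, h2]
        exact mem_vis_prefix A u1 c'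
      exact vis_prefix_subset A u v this

theorem complete_aux : ∀ (n : ℕ) (w : List (Ltr S)), w.length = n →
    ∃ (j : W A S) (ν : K A S → ℕ), valid A j.1 ν ∧ (T A ν : G) * ev j.1 = ev w ∧
      j.1.length + len A ν = w.length ∧ vis A w ⊆ vis A j.1 := by
  classical
  intro n
  induction n using Nat.strong_induction_on with
  | _ n ih =>
    intro w hw
    by_cases hn : w.length ≤ bd A
    · refine ⟨⟨w, hn⟩, fun _ => 0, ?_, ?_, ?_, subset_rfl⟩
      · intro i hi; exact absurd rfl hi
      · simp [T]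
      · simp [len]
    · obtain ⟨u, c, v, rfl, hc0, hcl, hcA, hvis⟩ := split_long A w (not_le.1 hn)
      have hlt : (u ++ v).length < n := by
        rw [← hw]
        have : 0 < c.length := List.length_pos_iff.2 hc0
        simp only [List.length_append]; omega
      obtain ⟨j, ν, h1, h2, h3, h4⟩ := ih _ hlt (u ++ v) rfl
      let a : K A S := (((ev u : G) : G ⧸ A), ⟨c, hcl⟩)
      have hTadd : T A (ν + Pi.single a 1) = tau A a * T A ν := by
        unfold T
        have : ∀ i, tau A i ^ ((ν + Pi.single a 1 : K A S → ℕ) i) =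
            tau A i ^ ν i * tau A i ^ ((Pi.single a 1 : K A S → ℕ) i) := by
          intro i; rw [Pi.add_apply, pow_add]
        rw [Finset.prod_congr rfl (fun i _ => this i), Finset.prod_mul_distrib, mul_comm]
        congr 1
        rw [Finset.prod_eq_single a]
        · simp
        · intro b _ hb; simp [hb]
        · intro h; exact absurd (Finset.mem_univ _) h
      have hladd : len A (ν + Pi.single a 1) = len A ν + c.length := by
        unfold len
        have : ∀ i, ((ν + Pi.single a 1 : K A S → ℕ) i) * i.2.1.length =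
            ν i * i.2.1.length + ((Pi.single a 1 : K A S → ℕ) i) * i.2.1.length := by
          intro i; rw [Pi.add_apply, add_mul]
        rw [Finset.sum_congr rfl (fun i _ => this i), Finset.sum_add_distrib]
        congr 1
        rw [Finset.sum_eq_single a]
        · simp [a]
        · intro b _ hb; simp [hb]
        · intro h; exact absurd (Finset.mem_univ _) h
      refine ⟨j, ν + Pi.single a 1, ?_, ?_, ?_, hvis.trans h4⟩
      · intro i hi
        by_cases hia : i = a
        · subst hia
          exact ⟨h4 (mem_vis_prefix A u v), hcA⟩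
        · apply h1 i
          simpa [Pi.single_apply, hia] using hi
      · rw [hTadd]
        push_cast
        rw [tau_coe A a hcA, mul_assoc, h2]
        show (((ev u : G) : G ⧸ A)).out * ev c * ((((ev u : G) : G ⧸ A)).out)⁻¹ * ev (u ++ v) = _
        rw [out_conj A _ _ hcA]
        simp only [ev_append]
        group
      · rw [hladd]
        simp only [List.length_append] at h3 ⊢
        omega

theorem complete (w : List (Ltr S)) :
    ∃ (j : W A S) (ν : K A S → ℕ), valid A j.1 ν ∧ (T A ν : G) * ev j.1 = ev w ∧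
      j.1.length + len A ν = w.length := by
  obtain ⟨j, ν, h1, h2, h3, -⟩ := complete_aux A _ w rfl
  exact ⟨j, ν, h1, h2, h3⟩

end Rep


section Main

variable {G : Type} [Group G] {S : Finset G} (A : Subgroup G) [A.FiniteIndex] [A.Normal]
  [IsMulCommutative A]

/-- The core word `j` is active for the ultrafilter `U` with shift `y`, length offset `D` and
multiplicities `c` (`none` means that the multiplicity tends to infinity). -/
def Act (U : Ultrafilter G) (j : W A S) (y : G) (D : ℤ) (c : K A S → Option ℕ) : Prop :=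
  ∀ M : ℕ, ∀ᶠ x in (U : Filter G), ∃ ν : K A S → ℕ, valid A j.1 ν ∧
    (T A ν : G) * ev j.1 = x⁻¹ * y ∧
    ((j.1.length + len A ν : ℕ) : ℤ) = wl S (x⁻¹ * 1) + D ∧
    (∀ i n, c i = some n → ν i = n) ∧ (∀ i, c i = none → M ≤ ν i)

omit [A.Normal] [IsMulCommutative A] in
theorem exists_types (U : Ultrafilter G) (ν : G → K A S → ℕ) :
    ∃ c : K A S → Option ℕ, ∀ M : ℕ, ∀ᶠ x in (U : Filter G),
      (∀ i n, c i = some n → ν x i = n) ∧ (∀ i, c i = none → M ≤ ν x i) := by
  classical
  have h : ∀ i : K A S, ∃ o : Option ℕ, ∀ M : ℕ, ∀ᶠ x in (U : Filter G),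
      (∀ n, o = some n → ν x i = n) ∧ (o = none → M ≤ ν x i) := by
    intro i
    by_cases hc : ∃ n, ∀ᶠ x in (U : Filter G), ν x i = n
    · obtain ⟨n, hn⟩ := hc
      refine ⟨some n, fun M => ?_⟩
      filter_upwards [hn] with x hx
      refine ⟨fun m hm => ?_, fun hm => by cases hm⟩
      rw [hx]; exact Option.some.inj hm
    · refine ⟨none, fun M => ?_⟩
      have h1 : ∀ n, ∀ᶠ x in (U : Filter G), ν x i ≠ n := by
        intro n
        by_contra hn
        refine hc ⟨n, ?_⟩
        have h3 := Ultrafilter.eventually_not.not.1 hn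
        simpa using h3
      have h2 : ∀ᶠ x in (U : Filter G), ∀ n ∈ Finset.range M, ν x i ≠ n :=
        (Filter.eventually_all_finset _).2 fun n _ => h1 n
      filter_upwards [h2] with x hx
      refine ⟨fun m hm => (by cases hm), fun _ => ?_⟩
      by_contra hlt
      exact hx (ν x i) (Finset.mem_range.2 (not_le.1 hlt)) rfl
  choose c hc using h
  refine ⟨c, fun M => ?_⟩
  have := Filter.eventually_all.2 fun i => hc i M
  filter_upwards [this] with x hx
  exact ⟨fun i n h => (hx i).1 n h, fun i h => (hx i).2 h⟩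

/-- If the words for `x⁻¹ y` are `U`-almost everywhere of length `|x⁻¹| + m`, then some core word
is active with shift `y` and offset `m`. -/
theorem exists_active (hS : Subgroup.closure (S : Set G) = ⊤) (U : Ultrafilter G) (y : G) (m : ℤ)
    (hm : ∀ᶠ x in (U : Filter G), ((wl S (x⁻¹ * y) : ℤ) - wl S (x⁻¹ * 1)) = m) :
    ∃ (j : W A S) (c : K A S → Option ℕ), Act A U j y m c := by
  classical
  have h1 : ∀ x : G, ∃ (j : W A S) (ν : K A S → ℕ), valid A j.1 ν ∧
      (T A ν : G) * ev j.1 = x⁻¹ * y ∧ j.1.length + len A ν = wl S (x⁻¹ * y) := by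
    intro x
    obtain ⟨w, hw1, hw2⟩ := exists_geod hS (x⁻¹ * y)
    obtain ⟨j, ν, g1, g2, g3⟩ := complete A w
    exact ⟨j, ν, g1, by rw [g2, hw1], by rw [g3, hw2]⟩
  choose J ν h2 h3 h4 using h1
  obtain ⟨j, hj⟩ : ∃ j : W A S, ∀ᶠ x in (U : Filter G), J x = j := by
    have : ∀ᶠ x in (U : Filter G), ∃ j : W A S, J x = j :=
      Filter.Eventually.of_forall fun x => ⟨J x, rfl⟩
    exact (Ultrafilter.eventually_exists_iff).1 this
  obtain ⟨c, hc⟩ := exists_types A U ν
  refine ⟨j, c, fun M => ?_⟩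
  filter_upwards [hj, hm, hc M] with x hx1 hx2 hx3
  refine ⟨ν x, hx1 ▸ h2 x, hx1 ▸ h3 x, ?_, hx3.1, hx3.2⟩
  have := h4 x
  rw [hx1] at this
  rw [this]
  linarith

theorem T_add (a b : K A S → ℕ) : T A (fun i => a i + b i) = T A a * T A b := by
  unfold T
  rw [← Finset.prod_mul_distrib]
  exact Finset.prod_congr rfl fun i _ => pow_add _ _ _

omit [A.Normal] [IsMulCommutative A] in
theorem len_add (a b : K A S → ℕ) : len A (fun i => a i + b i) = len A a + len A b := by
  unfold len
  rw [← Finset.sum_add_distrib]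
  exact Finset.sum_congr rfl fun i _ => add_mul _ _ _

/-- The transfer of a word from `U'` to `U`. -/
theorem transfer (hS : Subgroup.closure (S : Set G) = ⊤) (U U' : Ultrafilter G)
    (hUU' : ∀ j : W A S, (∃ y D c, Act A U' j y D c) → ∃ y D c, Act A U' j y D c ∧ Act A U j y D c)
    (y : G) (m m' : ℤ)
    (hm : ∀ᶠ x in (U : Filter G), ((wl S (x⁻¹ * y) : ℤ) - wl S (x⁻¹ * 1)) = m)
    (hm' : ∀ᶠ x in (U' : Filter G), ((wl S (x⁻¹ * y) : ℤ) - wl S (x⁻¹ * 1)) = m') :
    m ≤ m' := by
  classical
  obtain ⟨j, c', hact⟩ := exists_active A hS U' y m' hm'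
  obtain ⟨z, D, c, hz', hz⟩ := hUU' j ⟨y, m', c', hact⟩
  obtain ⟨x', ⟨ν', a1, a2, a3, -, -⟩, ⟨ν0, b1, b2, b3, b4, -⟩⟩ := ((hact 0).and (hz' 0)).exists
  -- a uniform bound for the multiplicities of `ν0`
  obtain ⟨M, hM⟩ : ∃ M : ℕ, ∀ i, ν0 i ≤ M :=
    ⟨∑ i, ν0 i, fun i => Finset.single_le_sum (f := ν0) (fun _ _ => Nat.zero_le _)
      (Finset.mem_univ i)⟩
  obtain ⟨x, hx1, ⟨νx, d1, d2, d3, d4, d5⟩⟩ := (hm.and (hz M)).exists
  have hge : ∀ i, ν0 i ≤ νx i := by
    intro i
    rcases hci : c i with _ | n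
    · exact (hM i).trans (d5 i hci)
    · rw [b4 i n hci, d4 i n hci]
  let δ : K A S → ℕ := fun i => νx i - ν0 i
  have hδ : νx = fun i => δ i + ν0 i := by
    funext i; simp only [δ]; have := hge i; omega
  let μ : K A S → ℕ := fun i => δ i + ν' i
  have hμ : valid A j.1 μ := by
    intro i hi
    by_cases h0 : ν' i = 0
    · apply d1 i
      intro h1
      apply hi
      simp only [μ, δ, h0, h1]
      omega
    · exact a1 i h0
  have hTx : T A νx = T A δ * T A ν0 := by
    conv_lhs => rw [hδ]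
    exact T_add A δ ν0
  have hLx : len A νx = len A δ + len A ν0 := by
    conv_lhs => rw [hδ]
    exact len_add A δ ν0
  have hTμ : T A μ = T A δ * T A ν' := T_add A δ ν'
  have hLμ : len A μ = len A δ + len A ν' := len_add A δ ν'
  have hprod : (T A μ : G) * ev j.1 = x⁻¹ * y := by
    have e1 : x⁻¹ * y = (x⁻¹ * z) * (x'⁻¹ * z)⁻¹ * (x'⁻¹ * y) := by group
    rw [e1, ← d2, ← b2, ← a2, hTμ, hTx]
    push_cast
    group
  have hle := sound A j.1 μ hμ
  rw [hprod] at hle
  have hle' : (wl S (x⁻¹ * y) : ℤ) ≤ j.1.length + len A μ := by exact_mod_cast hle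
  rw [hLμ] at hle'
  rw [hLx] at d3
  push_cast at *
  linarith

theorem exists_ultra (f : G → ℝ) (hf : f ∈ closure (Set.range (mf S))) :
    ∃ U : Ultrafilter G, ∀ y, ∃ m : ℤ, f y = m ∧
      ∀ᶠ x in (U : Filter G), ((wl S (x⁻¹ * y) : ℤ) - wl S (x⁻¹ * 1)) = m := by
  have hne : (Filter.comap (mf S) (𝓝 f)).NeBot := by
    rw [Filter.comap_neBot_iff]
    intro t ht
    obtain ⟨g, hg1, ⟨x, rfl⟩⟩ := mem_closure_iff_nhds.1 hf t ht
    exact ⟨x, hg1⟩
  let U : Ultrafilter G := Ultrafilter.of (Filter.comap (mf S) (𝓝 f))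
  have hU : Tendsto (mf S) (U : Filter G) (𝓝 f) :=
    Filter.tendsto_iff_comap.2 (Ultrafilter.of_le _)
  refine ⟨U, fun y => ?_⟩
  have hy : Tendsto (fun x => mf S x y) (U : Filter G) (𝓝 (f y)) :=
    (tendsto_pi_nhds.1 hU) y
  have hcast : ∀ x, mf S x y = (((wl S (x⁻¹ * y) : ℤ) - wl S (x⁻¹ * 1) : ℤ) : ℝ) := by
    intro x; unfold mf; push_cast; rfl
  have hclose : ∀ᶠ x in (U : Filter G), |mf S x y - f y| < 1 / 2 := by
    have := (Metric.tendsto_nhds.1 hy) (1 / 2) (by norm_num)
    simpa [Real.dist_eq] using this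
  obtain ⟨x0, hx0⟩ := hclose.exists
  have hconst : ∀ᶠ x in (U : Filter G), ((wl S (x⁻¹ * y) : ℤ) - wl S (x⁻¹ * 1)) =
      ((wl S (x0⁻¹ * y) : ℤ) - wl S (x0⁻¹ * 1)) := by
    filter_upwards [hclose] with x hx
    rw [hcast] at hx hx0
    have h1 : |((((wl S (x⁻¹ * y) : ℤ) - wl S (x⁻¹ * 1)) -
        ((wl S (x0⁻¹ * y) : ℤ) - wl S (x0⁻¹ * 1)) : ℤ) : ℝ)| < 1 := by
      push_cast at *
      rw [abs_lt] at *
      constructor <;> linarith [hx.1, hx.2, hx0.1, hx0.2]
    have h2 : |(((wl S (x⁻¹ * y) : ℤ) - wl S (x⁻¹ * 1)) -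
        ((wl S (x0⁻¹ * y) : ℤ) - wl S (x0⁻¹ * 1)))| < 1 := by exact_mod_cast h1
    have h3 := Int.abs_lt_one_iff.1 h2
    linarith
  refine ⟨_, ?_, hconst⟩
  have h4 : Tendsto (fun x => mf S x y) (U : Filter G)
      (𝓝 ((((wl S (x0⁻¹ * y) : ℤ) - wl S (x0⁻¹ * 1) : ℤ)) : ℝ)) := by
    apply tendsto_const_nhds.congr'
    filter_upwards [hconst] with x hx
    rw [hcast, hx]
  exact tendsto_nhds_unique hy h4

/-- The type of data. -/
abbrev Dat (S : Finset G) : Type := W A S → Option (G × ℤ × (K A S → Option ℕ))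

open Classical in
/-- The data of an ultrafilter. -/
noncomputable def dat (U : Ultrafilter G) : Dat A S := fun j =>
  if h : ∃ p : G × ℤ × (K A S → Option ℕ), Act A U j p.1 p.2.1 p.2.2 then some h.choose else none

theorem dat_eq (U U' : Ultrafilter G) (h : (dat A U : Dat A S) = dat A U') (j : W A S)
    (hj : ∃ y D c, Act A U' j y D c) : ∃ y D c, Act A U' j y D c ∧ Act A U j y D c := by
  classical
  have hj' : ∃ p : G × ℤ × (K A S → Option ℕ), Act A U' j p.1 p.2.1 p.2.2 := by
    obtain ⟨y, D, c, hc⟩ := hj; exact ⟨(y, D, c), hc⟩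
  have e := congrFun h j
  have e' : dat A U' j = some hj'.choose := by unfold dat; rw [dif_pos hj']
  rw [e'] at e
  by_cases hU : ∃ p : G × ℤ × (K A S → Option ℕ), Act A U j p.1 p.2.1 p.2.2
  · have e2 : dat A U j = some hU.choose := by unfold dat; rw [dif_pos hU]
    rw [e2] at e
    have e3 := Option.some.inj e
    refine ⟨_, _, _, hj'.choose_spec, ?_⟩
    rw [← e3]
    exact hU.choose_spec
  · have e2 : dat A U j = none := by unfold dat; rw [dif_neg hU]
    rw [e2] at e
    cases e

theorem countable_group (hS : Subgroup.closure (S : Set G) = ⊤) : Countable G := by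
  have hsur : Function.Surjective (ev : List (Ltr S) → G) := fun g =>
    let ⟨l, hl, _⟩ := exists_geod hS g
    ⟨l, hl⟩
  exact hsur.countable

include A in
theorem countable_closure_normal (hS : Subgroup.closure (S : Set G) = ⊤) :
    (closure (Set.range (mf S))).Countable := by
  classical
  have : Countable G := countable_group hS
  have h := fun f hf => exists_ultra (S := S) f hf
  choose! U hU using h
  have hinj : Set.InjOn (fun f => (dat A (U f) : Dat A S)) (closure (Set.range (mf S))) := by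
    intro f hf f' hf' he
    have he' : (dat A (U f) : Dat A S) = dat A (U f') := he
    funext y
    obtain ⟨m, h1, h2⟩ := hU f hf y
    obtain ⟨m', h1', h2'⟩ := hU f' hf' y
    have l1 := transfer A hS (U f) (U f') (dat_eq A _ _ he') y m m' h2 h2'
    have l2 := transfer A hS (U f') (U f) (dat_eq A _ _ he'.symm) y m' m h2' h2
    rw [h1, h1', le_antisymm l1 l2]
  exact Set.countable_of_injective_of_countable_image hinj (Set.to_countable _)

end Main

/-- The closure of the set of functions `d(x, ·) - d(x, 1)` is countable for every word metric on a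
group with an abelian subgroup of finite index. -/
theorem countable_closure {G : Type} [Group G] (A : Subgroup G) (hA : A.FiniteIndex)
    (hcomm : ∀ a ∈ A, ∀ b ∈ A, a * b = b * a) (S : Finset G)
    (hS : Subgroup.closure (S : Set G) = ⊤) :
    (closure (Set.range (mf S))).Countable := by
  have : A.normalCore.FiniteIndex := inferInstance
  have : IsMulCommutative A.normalCore := by
    refine IsMulCommutative.of_comm fun a b => Subtype.ext ?_
    exact hcomm _ (A.normalCore_le a.2) _ (A.normalCore_le b.2)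
  exact countable_closure_normal A.normalCore hS

end Pool.Agent.H205R3.Horo
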