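import Mathlib

/-!
Finite Malcev presentations: basic definitions, compactness, and the base case for
groups carrying a tree-like distance.
-/

namespace Pool.Agent.H205R3.Malcev

open Subgroup

section Defs

variable {α : Type*} {G : Type*} [Group G]

/-- The value of a word under a map of the letters to a group. -/
def wd (φ : α → G) (u : List α) : G := (u.map φ).prod

theorem wd_nil (φ : α → G) : wd φ [] = 1 := by simp [wd]

theorem wd_append (φ : α → G) (u v : List α) : wd φ (u ++ v) = wd φ u * wd φ v := by
  simp [wd]

theorem wd_single (φ : α → G) (a : α) : wd φ [a] = φ a := by simp [wd]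

theorem wd_map {H : Type*} [Group H] (f : G →* H) (φ : α → G) (u : List α) :
    wd (fun a => f (φ a)) u = f (wd φ u) := by
  simp only [wd, map_list_prod, List.map_map]
  rfl

theorem wd_mem_closure (φ : α → G) (u : List α) : wd φ u ∈ closure (Set.range φ) := by
  unfold wd
  apply Subgroup.list_prod_mem
  intro x hx
  obtain ⟨a, _, rfl⟩ := List.mem_map.1 hx
  exact subset_closure ⟨a, rfl⟩

/-- The relator of a pair of words. -/
def rl (p : List α × List α) : FreeGroup α :=
  wd FreeGroup.of p.1 * (wd FreeGroup.of p.2)⁻¹

/-- The pairs of words with equal values. -/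
def Val (φ : α → G) : Set (List α × List α) := {p | wd φ p.1 = wd φ p.2}

/-- The normal closure of all valid relators. -/
def NN (φ : α → G) : Subgroup (FreeGroup α) := normalClosure (rl '' Val φ)

/-- Finitely many valid pairs imply all valid pairs. -/
def FinRel (φ : α → G) : Prop :=
  ∃ P : Set (List α × List α), P.Finite ∧ P ⊆ Val φ ∧ NN φ ≤ normalClosure (rl '' P)

end Defs

/-- Every finite family of elements has the finite relation property. -/
def FMal (G : Type*) [Group G] : Prop := ∀ (n : ℕ) (φ : Fin n → G), FinRel φ

theorem exists_finite_of_mem_normalClosure {H : Type*} [Group H] (R : Set H) (x : H)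
    (hx : x ∈ normalClosure R) : ∃ P ⊆ R, P.Finite ∧ x ∈ normalClosure P := by
  unfold normalClosure at hx
  induction hx using closure_induction with
  | mem y hy =>
    obtain ⟨a, ha, hc⟩ := Group.mem_conjugatesOfSet_iff.1 hy
    refine ⟨{a}, by simpa using ha, Set.finite_singleton a, ?_⟩
    apply conjugatesOfSet_subset_normalClosure
    exact Group.mem_conjugatesOfSet_iff.2 ⟨a, rfl, hc⟩
  | one => exact ⟨∅, by simp, Set.finite_empty, one_mem _⟩
  | mul y z _ _ ihy ihz =>
    obtain ⟨P, hP, hPf, hyP⟩ := ihy
    obtain ⟨Q, hQ, hQf, hzQ⟩ := ihz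
    refine ⟨P ∪ Q, Set.union_subset hP hQ, hPf.union hQf, ?_⟩
    exact mul_mem (normalClosure_mono Set.subset_union_left hyP)
      (normalClosure_mono Set.subset_union_right hzQ)
  | inv y _ ihy =>
    obtain ⟨P, hP, hPf, hyP⟩ := ihy
    exact ⟨P, hP, hPf, inv_mem hyP⟩

theorem finRel_of_finite {α : Type*} {G : Type*} [Group G] (φ : α → G)
    (T : Set (FreeGroup α)) (hT : T.Finite) (h1 : T ⊆ NN φ) (h2 : NN φ ≤ normalClosure T) :
    FinRel φ := by
  have key : ∀ t : FreeGroup α, t ∈ T → ∃ P : Set (List α × List α), P.Finite ∧ P ⊆ Val φ ∧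
      t ∈ normalClosure (rl '' P) := by
    intro t ht
    obtain ⟨P, hP, hPf, htP⟩ := exists_finite_of_mem_normalClosure _ t (h1 ht)
    obtain ⟨P', h1', h2', h3'⟩ := (Set.exists_subset_image_finite_and
      (p := fun s => t ∈ normalClosure s)).1 ⟨P, hP, hPf, htP⟩
    exact ⟨P', h2', h1', h3'⟩
  choose! P hPf hPv hPm using key
  refine ⟨⋃ t ∈ T, P t, hT.biUnion hPf, ?_, ?_⟩
  · intro p hp
    simp only [Set.mem_iUnion] at hp
    obtain ⟨t, ht, hp⟩ := hp
    exact hPv t ht hp
  · refine h2.trans ?_
    apply normalClosure_le_normal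
    intro t ht
    refine normalClosure_mono ?_ (hPm t ht)
    apply Set.image_mono
    intro p hp
    simp only [Set.mem_iUnion]
    exact ⟨t, ht, hp⟩

/-- A closed path with bounded steps and short closing edge in a tree-like space can be
cut at an intermediate point. -/
theorem splitting {X : Type*} (D : X → X → ℕ) (hs : ∀ x y, D x y = D y x)
    (h0 : ∀ x, D x x = 0)
    (h4 : ∀ x y z w, D x y + D z w ≤ max (D x z + D y w) (D x w + D y z))
    (K : ℕ) (z : ℕ → X) (n : ℕ) (hn : 2 ≤ n)
    (hstep : ∀ t < n, D (z t) (z (t+1)) ≤ K) (hend : D (z 0) (z n) ≤ K) :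
    ∃ t, 0 < t ∧ t < n ∧ D (z 0) (z t) ≤ K ∧ D (z t) (z n) ≤ K := by
  rcases Nat.eq_zero_or_pos (D (z 0) (z n)) with hd | hd
  · refine ⟨1, by omega, by omega, hstep 0 (by omega), ?_⟩
    have h1 := hstep 0 (by omega)
    have h2 := h4 (z 1) (z n) (z 0) (z 0)
    rw [h0, hs (z n) (z 0), hd, hs (z 1) (z 0)] at h2
    simp only [zero_add] at h1
    simp at h2
    omega
  · have hex : ∃ t < n, D (z 0) (z t) ≤ D (z n) (z t) ∧
        D (z n) (z (t+1)) < D (z 0) (z (t+1)) := by
      by_contra hcon
      push Not at hcon
      have : ∀ t ≤ n, D (z 0) (z t) ≤ D (z n) (z t) := by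
        intro t
        induction t with
        | zero => intro _; rw [h0]; exact Nat.zero_le _
        | succ t ih =>
          intro ht
          exact hcon t (by omega) (ih (by omega))
      have h1 := this n le_rfl
      rw [h0] at h1
      omega
    obtain ⟨t, htn, h1, h2⟩ := hex
    have h5 := hstep t htn
    have h6 := h4 (z 0) (z (t+1)) (z n) (z t)
    rw [hs (z (t+1)) (z t), hs (z (t+1)) (z n)] at h6
    have h7 : D (z 0) (z (t+1)) + D (z n) (z t) ≤ 2 * K := by
      rcases le_max_iff.1 h6 with h | h <;> omega
    rcases Nat.eq_zero_or_pos t with ht | ht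
    · subst ht
      refine ⟨1, by omega, by omega, h5, ?_⟩
      simp only [zero_add] at h2 h5
      rw [hs (z 1) (z n)]
      omega
    · rcases Nat.lt_or_ge (t+1) n with ht2 | ht2
      · rcases Nat.le_total (D (z n) (z t)) K with hk | hk
        · refine ⟨t, ht, htn, by omega, ?_⟩
          rw [hs]; exact hk
        · refine ⟨t+1, by omega, ht2, by omega, ?_⟩
          rw [hs]; omega
      · have htn' : t + 1 = n := by omega
        refine ⟨t, ht, htn, ?_, ?_⟩
        · rw [htn'] at h5
          rw [hs (z n) (z t)] at h1
          omega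
        · rw [htn'] at h5; exact h5

section Base

variable {α : Type*} {G : Type*} [Group G]

/-- Good pair in the quotient: words that agree in the quotient group. -/
theorem val_append_right (φ : α → G) {u v w : List α} (h : wd φ u = wd φ v) :
    wd φ (u ++ w) = wd φ (v ++ w) := by
  rw [wd_append, wd_append, h]

theorem base_abstract [Finite α] (φ : α → G) (D : G → G → ℕ) (K : ℕ)
    (hs : ∀ x y, D x y = D y x) (h0 : ∀ x, D x x = 0)
    (h4 : ∀ x y z w, D x y + D z w ≤ max (D x z + D y w) (D x w + D y z))
    (hstep : ∀ x a, D x (x * φ a) ≤ K)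
    (Γ : Set G) (hΓ : Γ.Finite)
    (hfin : ∀ x y : G, x⁻¹ * y ∈ closure (Set.range φ) → D x y ≤ K → x⁻¹ * y ∈ Γ) :
    FinRel φ := by
  classical
  -- chosen representatives
  have hr : ∀ g : G, ∃ s : List α, (∃ t, wd φ t = g) → wd φ s = g := by
    intro g
    by_cases h : ∃ t, wd φ t = g
    · exact ⟨h.choose, fun _ => h.choose_spec⟩
    · exact ⟨[], fun h' => absurd h' h⟩
  choose r hr using hr
  have hc : ∀ h : G, ∃ c : (List α × List α) × (List α × List α),
      (∃ p q p' q' : List α, wd φ p * h = wd φ q ∧ wd φ p' = h * wd φ q') →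
      wd φ c.1.1 * h = wd φ c.1.2 ∧ wd φ c.2.1 = h * wd φ c.2.2 := by
    intro h
    by_cases hh : ∃ p q p' q' : List α, wd φ p * h = wd φ q ∧ wd φ p' = h * wd φ q'
    · obtain ⟨p, q, p', q', h1, h2⟩ := hh
      exact ⟨((p, q), (p', q')), fun _ => ⟨h1, h2⟩⟩
    · exact ⟨(([], []), ([], [])), fun h' => absurd h' hh⟩
  choose c hc using hc
  set W : Set (List α) := {[]} ∪ Set.range (fun a => [a]) ∪ r '' Γ ∪ (fun h => (c h).1.1) '' Γ ∪
    (fun h => (c h).1.2) '' Γ ∪ (fun h => (c h).2.1) '' Γ ∪ (fun h => (c h).2.2) '' Γ with hW
  have hWf : W.Finite := by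
    refine ((((((Set.finite_singleton _).union (Set.finite_range _)).union
      (hΓ.image _)).union (hΓ.image _)).union (hΓ.image _)).union (hΓ.image _)).union (hΓ.image _)
  have hWnil : [] ∈ W := by simp [hW]
  have hWa : ∀ a, [a] ∈ W := by intro a; simp [hW]
  have hWr : ∀ g ∈ Γ, r g ∈ W := by
    intro g hg
    simp only [hW, Set.mem_union]
    exact Or.inl (Or.inl (Or.inl (Or.inl (Or.inr ⟨g, hg, rfl⟩))))
  have hW1 : ∀ g ∈ Γ, (c g).1.1 ∈ W := by
    intro g hg
    simp only [hW, Set.mem_union]
    exact Or.inl (Or.inl (Or.inl (Or.inr ⟨g, hg, rfl⟩)))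
  have hW2 : ∀ g ∈ Γ, (c g).1.2 ∈ W := by
    intro g hg
    simp only [hW, Set.mem_union]
    exact Or.inl (Or.inl (Or.inr ⟨g, hg, rfl⟩))
  have hW3 : ∀ g ∈ Γ, (c g).2.1 ∈ W := by
    intro g hg
    simp only [hW, Set.mem_union]
    exact Or.inl (Or.inr ⟨g, hg, rfl⟩)
  have hW4 : ∀ g ∈ Γ, (c g).2.2 ∈ W := by
    intro g hg
    simp only [hW, Set.mem_union]
    exact Or.inr ⟨g, hg, rfl⟩
  set L : Set (List α) := Set.image2 (fun a b => a ++ b) (Set.image2 (fun a b => a ++ b) W W) W
    with hL
  have hLf : L.Finite := (hWf.image2 _ hWf).image2 _ hWf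
  set P : Set (List α × List α) := (L ×ˢ L) ∩ Val φ with hP
  refine ⟨P, (hLf.prod hLf).inter_of_left _, Set.inter_subset_right, ?_⟩
  set N := normalClosure (rl '' P) with hN
  set q : FreeGroup α →* FreeGroup α ⧸ N := QuotientGroup.mk' N with hq
  set w : List α → FreeGroup α ⧸ N := fun u => q (wd FreeGroup.of u) with hw
  have w_append : ∀ u v, w (u ++ v) = w u * w v := by
    intro u v; simp only [hw, wd_append, map_mul]
  have w_nil : w [] = 1 := by simp only [hw, wd_nil, map_one]
  have key : ∀ u v : List α, w u = w v ↔ rl (u, v) ∈ N := by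
    intro u v
    simp only [hw, rl]
    rw [← QuotientGroup.eq_one_iff, ← mul_inv_eq_one]
    simp only [hq, QuotientGroup.mk'_apply, QuotientGroup.mk_mul, QuotientGroup.mk_inv]
  have rel : ∀ a b e a' b' e' : List α, a ∈ W → b ∈ W → e ∈ W → a' ∈ W → b' ∈ W → e' ∈ W →
      wd φ a * wd φ b * wd φ e = wd φ a' * wd φ b' * wd φ e' →
      w a * w b * w e = w a' * w b' * w e' := by
    intro a b e a' b' e' ha hb he ha' hb' he' h
    rw [← w_append, ← w_append, ← w_append, ← w_append, key]
    apply subset_normalClosure
    refine ⟨(a ++ b ++ e, a' ++ b' ++ e'), ⟨⟨?_, ?_⟩, ?_⟩, rfl⟩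
    · exact ⟨a ++ b, ⟨a, ha, b, hb, rfl⟩, e, he, rfl⟩
    · exact ⟨a' ++ b', ⟨a', ha', b', hb', rfl⟩, e', he', rfl⟩
    · show wd φ _ = wd φ _
      simp only [wd_append]
      exact h
  -- in one word
  have claimP : ∀ n : ℕ, ∀ s : List α, s.length = n → ∀ x : G, D x (x * wd φ s) ≤ K →
      w s = w (r (wd φ s)) := by
    intro n
    induction n using Nat.strong_induction_on with
    | _ n ih =>
      intro s hsn x hx
      have hΓs : wd φ s ∈ Γ := by
        have := hfin x (x * wd φ s) (by
          rw [inv_mul_cancel_left]; exact wd_mem_closure φ s) hx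
        rwa [inv_mul_cancel_left] at this
      have hrs : wd φ (r (wd φ s)) = wd φ s := hr _ ⟨s, rfl⟩
      rcases Nat.lt_or_ge n 2 with hn | hn
      · have hsW : s ∈ W := by
          rcases s with _ | ⟨a, _ | ⟨b, s⟩⟩
          · exact hWnil
          · exact hWa a
          · simp at hsn; omega
        have := rel s [] [] (r (wd φ s)) [] [] hsW hWnil hWnil (hWr _ hΓs) hWnil hWnil (by
          rw [hrs])
        simpa [w_nil] using this
      · obtain ⟨t, ht0, htn, h1, h2⟩ := splitting D hs h0 h4 K
          (fun t => x * wd φ (s.take t)) n hn (by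
            intro t ht
            have : s.take (t+1) = s.take t ++ [s[t]'(by omega)] := by
              rw [List.take_append_getElem]
            show D (x * wd φ (s.take t)) (x * wd φ (s.take (t+1))) ≤ K
            rw [this, wd_append, wd_single, ← mul_assoc]
            exact hstep _ _) (by
            simp only [List.take_zero, wd_nil, mul_one]
            rw [← hsn, List.take_length]; exact hx)
        simp only [List.take_zero, wd_nil, mul_one] at h1
        rw [← hsn] at h2
        simp only [List.take_length] at h2
        have hsplit : s = s.take t ++ s.drop t := (List.take_append_drop t s).symm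
        have e1 := ih t htn (s.take t) (by simp; omega) x h1
        have e2 := ih (n - t) (by omega) (s.drop t) (by simp; omega) (x * wd φ (s.take t)) (by
          rw [mul_assoc, ← wd_append, ← hsplit]; exact h2)
        have hΓ1 : wd φ (s.take t) ∈ Γ := by
          have := hfin x (x * wd φ (s.take t)) (by
            rw [inv_mul_cancel_left]; exact wd_mem_closure φ _) h1
          rwa [inv_mul_cancel_left] at this
        have hΓ2 : wd φ (s.drop t) ∈ Γ := by
          have := hfin (x * wd φ (s.take t)) (x * wd φ (s.take t) * wd φ (s.drop t)) (by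
            rw [inv_mul_cancel_left]; exact wd_mem_closure φ _) (by
              rw [mul_assoc, ← wd_append, ← hsplit]; exact h2)
          rwa [inv_mul_cancel_left] at this
        have e3 := rel (r (wd φ (s.take t))) (r (wd φ (s.drop t))) [] (r (wd φ s)) [] []
          (hWr _ hΓ1) (hWr _ hΓ2) hWnil (hWr _ hΓs) hWnil hWnil (by
            rw [hr _ ⟨_, rfl⟩, hr _ ⟨_, rfl⟩, hrs, wd_nil, mul_one, mul_one, mul_one,
              ← wd_append, ← hsplit])
        simp only [w_nil, mul_one] at e3
        rw [← e3, ← e1, ← e2, ← w_append, ← hsplit]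
  apply normalClosure_le_normal
  rintro _ ⟨⟨u, v⟩, huv, rfl⟩
  have huv' : wd φ u = wd φ v := huv
  show rl (u, v) ∈ N
  rw [← key]
  -- rungs
  have hone : (1 : G) ∈ Γ := by
    have := hfin 1 1 (by simp) (by rw [h0]; exact Nat.zero_le _)
    simpa using this
  set ch : G → FreeGroup α ⧸ N := fun h => (w (c h).1.1)⁻¹ * w (c h).1.2 with hch
  have hsec : ∀ h ∈ Γ, wd φ (c h).1.1 * h = wd φ (c h).1.2 → wd φ (c h).2.1 = h * wd φ (c h).2.2 →
      ch h = w (c h).2.1 * (w (c h).2.2)⁻¹ := by
    intro h hh h1 h2
    have := rel (c h).1.1 (c h).2.1 [] (c h).1.2 (c h).2.2 [] (hW1 _ hh) (hW3 _ hh) hWnil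
      (hW2 _ hh) (hW4 _ hh) hWnil (by
        rw [h2, ← h1]; group)
    simp only [w_nil, mul_one] at this
    simp only [hch]
    rw [inv_mul_eq_iff_eq_mul, ← mul_assoc, eq_mul_inv_iff_mul_eq, this]
  set xx : ℕ → G := fun i => wd φ (u.take i) with hxx
  set yy : ℕ → G := fun i => wd φ (v.take i) with hyy
  have hQ : ∀ i k, (∃ p q p' q' : List α, wd φ p * ((xx i)⁻¹ * yy k) = wd φ q ∧
      wd φ p' = ((xx i)⁻¹ * yy k) * wd φ q') := by
    intro i k
    refine ⟨u.take i, v.take k, u.drop i, v.drop k, ?_, ?_⟩
    · simp only [hxx, hyy]; group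
    · simp only [hxx, hyy]
      rw [mul_assoc, ← wd_append, List.take_append_drop, ← huv', eq_inv_mul_iff_mul_eq,
        ← wd_append, List.take_append_drop]
  have hmem : ∀ i k, D (xx i) (yy k) ≤ K → (xx i)⁻¹ * yy k ∈ Γ := by
    intro i k h
    exact hfin _ _ (mul_mem (inv_mem (wd_mem_closure φ _)) (wd_mem_closure φ _)) h
  have claimQ : ∀ n i k : ℕ, i + k = n → i ≤ u.length → k ≤ v.length →
      D (xx i) (yy k) ≤ K → w (u.take i) * ch ((xx i)⁻¹ * yy k) = w (v.take k) := by
    intro n
    induction n using Nat.strong_induction_on with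
    | _ n ih =>
      intro i k hik hi hk hD
      obtain ⟨hc1, hc2⟩ := hc _ (hQ i k)
      have hG := hmem i k hD
      rcases Nat.eq_zero_or_pos n with hn | hn
      · have hi0 : i = 0 := by omega
        have hk0 : k = 0 := by omega
        subst hi0; subst hk0
        simp only [List.take_zero, w_nil, one_mul]
        have hxy : (xx 0)⁻¹ * yy 0 = 1 := by simp [hxx, hyy, wd_nil]
        rw [hxy] at hc1 hG ⊢
        simp only [hch]
        rw [inv_mul_eq_iff_eq_mul, mul_one]
        have := rel (c 1).1.2 [] [] (c 1).1.1 [] [] (hW2 _ hG) hWnil hWnil (hW1 _ hG) hWnil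
          hWnil (by rw [← hc1, mul_one])
        simpa [w_nil] using this
      · -- find an intermediate vertex
        have hinter : (∃ j < i, D (xx j) (xx i) ≤ K ∧ D (xx j) (yy k) ≤ K) ∨
            (∃ l < k, D (yy l) (yy k) ≤ K ∧ D (xx i) (yy l) ≤ K) := by
          have stepx : ∀ t < u.length, D (xx t) (xx (t+1)) ≤ K := by
            intro t ht
            have : u.take (t+1) = u.take t ++ [u[t]] := by
              rw [List.take_append_getElem]
            simp only [hxx]
            rw [this, wd_append, wd_single]
            exact hstep _ _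
          have stepy : ∀ t < v.length, D (yy t) (yy (t+1)) ≤ K := by
            intro t ht
            have : v.take (t+1) = v.take t ++ [v[t]] := by
              rw [List.take_append_getElem]
            simp only [hyy]
            rw [this, wd_append, wd_single]
            exact hstep _ _
          have hxy0 : xx 0 = yy 0 := by simp [hxx, hyy]
          rcases Nat.lt_or_ge n 2 with hn2 | hn2
          · rcases Nat.eq_zero_or_pos i with hi0 | hi0
            · have hk1 : k = 1 := by omega
              subst hi0; subst hk1
              right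
              refine ⟨0, by omega, stepy 0 (by omega), ?_⟩
              rw [hxy0, h0]; exact Nat.zero_le _
            · have hi1 : i = 1 := by omega
              have hk0 : k = 0 := by omega
              subst hi1; subst hk0
              left
              refine ⟨0, by omega, stepx 0 (by omega), ?_⟩
              rw [hxy0, h0]; exact Nat.zero_le _
          · obtain ⟨t, ht0, htn, h1, h2⟩ := splitting D hs h0 h4 K
              (fun t => if t ≤ k then yy (k - t) else xx (t - k)) n hn2 (by
                intro t ht
                rcases Nat.lt_trichotomy t k with h | h | h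
                · simp only [if_pos (show t ≤ k by omega), if_pos (show t + 1 ≤ k by omega)]
                  rw [hs]
                  have := stepy (k - (t+1)) (by omega)
                  rwa [show k - (t+1) + 1 = k - t by omega] at this
                · subst h
                  simp only [le_refl, if_true, Nat.sub_self,
                    if_neg (show ¬ (t + 1 ≤ t) by omega)]
                  rw [← hxy0, show t + 1 - t = 0 + 1 by omega]
                  exact stepx 0 (by omega)
                · simp only [if_neg (show ¬ t ≤ k by omega), if_neg (show ¬ t + 1 ≤ k by omega)]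
                  have := stepx (t - k) (by omega)
                  rwa [show t - k + 1 = t + 1 - k by omega] at this) (by
                simp only [Nat.zero_le, if_true, Nat.sub_zero]
                rcases Nat.eq_zero_or_pos i with hi0 | hi0
                · subst hi0
                  simp only [if_pos (show n ≤ k by omega), show k - n = 0 by omega]
                  rw [← hxy0, hs]; exact hD
                · simp only [if_neg (show ¬ n ≤ k by omega), show n - k = i by omega]
                  rw [hs]; exact hD)
            simp only [Nat.zero_le, if_true, Nat.sub_zero] at h1 h2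
            have hlast : (if n ≤ k then yy (k - n) else xx (n - k)) = xx i := by
              rcases Nat.eq_zero_or_pos i with hi0 | hi0
              · subst hi0
                rw [if_pos (show n ≤ k by omega), show k - n = 0 by omega, hxy0]
              · rw [if_neg (show ¬ n ≤ k by omega), show n - k = i by omega]
            rw [hlast] at h2
            by_cases htk : t ≤ k
            · rw [if_pos htk] at h1 h2
              right
              refine ⟨k - t, by omega, ?_, ?_⟩
              · rw [hs]; exact h1
              · rw [hs]; exact h2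
            · rw [if_neg htk] at h1 h2
              left
              refine ⟨t - k, by omega, h2, ?_⟩
              rw [hs]; exact h1
        rcases hinter with ⟨j, hj, h1, h2⟩ | ⟨l, hl, h1, h2⟩
        · have e1 := ih (j + k) (by omega) j k rfl (by omega) hk h2
          obtain ⟨hj1, hj2⟩ := hc _ (hQ j k)
          have hGj := hmem j k h2
          -- the segment from j to i
          set s := (u.take i).drop j with hs'
          have hsplit : u.take i = u.take j ++ s := by
            rw [hs']
            conv_lhs => rw [← List.take_append_drop j (u.take i)]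
            rw [List.take_take, min_eq_left (by omega)]
          have hxi : xx i = xx j * wd φ s := by
            simp only [hxx]; rw [hsplit, wd_append]
          have e2 := claimP _ s rfl (xx j) (by rw [← hxi]; exact h1)
          have hΓs : wd φ s ∈ Γ := by
            have := hfin (xx j) (xx i) (by
              rw [hxi, inv_mul_cancel_left]; exact wd_mem_closure φ s) h1
            rwa [hxi, inv_mul_cancel_left] at this
          have hgs : wd φ s * ((xx i)⁻¹ * yy k) = (xx j)⁻¹ * yy k := by
            rw [hxi]; group
          have e3 : w (r (wd φ s)) * ch ((xx i)⁻¹ * yy k) = ch ((xx j)⁻¹ * yy k) := by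
            rw [hsec _ hG hc1 hc2]
            simp only [hch]
            have := rel (c ((xx j)⁻¹ * yy k)).1.1 (r (wd φ s)) (c ((xx i)⁻¹ * yy k)).2.1
              (c ((xx j)⁻¹ * yy k)).1.2 [] (c ((xx i)⁻¹ * yy k)).2.2
              (hW1 _ hGj) (hWr _ hΓs) (hW3 _ hG) (hW2 _ hGj) hWnil (hW4 _ hG) (by
                rw [hr _ ⟨_, rfl⟩, wd_nil, mul_one, hc2, ← hj1, ← hgs]; group)
            rw [w_nil, mul_one] at this
            rw [eq_inv_mul_iff_mul_eq, ← mul_assoc, ← mul_assoc, mul_inv_eq_iff_eq_mul, this]
          rw [hsplit, w_append, e2, mul_assoc, e3, e1]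
        · have e1 := ih (i + l) (by omega) i l rfl hi (by omega) h2
          obtain ⟨hj1, hj2⟩ := hc _ (hQ i l)
          have hGl := hmem i l h2
          set s := (v.take k).drop l with hs'
          have hsplit : v.take k = v.take l ++ s := by
            rw [hs']
            conv_lhs => rw [← List.take_append_drop l (v.take k)]
            rw [List.take_take, min_eq_left (by omega)]
          have hyk : yy k = yy l * wd φ s := by
            simp only [hyy]; rw [hsplit, wd_append]
          have e2 := claimP _ s rfl (yy l) (by rw [← hyk]; exact h1)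
          have hΓs : wd φ s ∈ Γ := by
            have := hfin (yy l) (yy k) (by
              rw [hyk, inv_mul_cancel_left]; exact wd_mem_closure φ s) h1
            rwa [hyk, inv_mul_cancel_left] at this
          have hgs : ((xx i)⁻¹ * yy l) * wd φ s = (xx i)⁻¹ * yy k := by
            rw [hyk]; group
          have e3 : ch ((xx i)⁻¹ * yy l) * w (r (wd φ s)) = ch ((xx i)⁻¹ * yy k) := by
            rw [hsec _ hG hc1 hc2]
            simp only [hch]
            have := rel (c ((xx i)⁻¹ * yy l)).1.2 (r (wd φ s)) (c ((xx i)⁻¹ * yy k)).2.2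
              (c ((xx i)⁻¹ * yy l)).1.1 [] (c ((xx i)⁻¹ * yy k)).2.1
              (hW2 _ hGl) (hWr _ hΓs) (hW4 _ hG) (hW1 _ hGl) hWnil (hW3 _ hG) (by
                rw [hr _ ⟨_, rfl⟩, wd_nil, mul_one, hc2, ← hj1, ← hgs]; group)
            rw [w_nil, mul_one] at this
            rw [eq_mul_inv_iff_mul_eq, mul_assoc, mul_assoc, inv_mul_eq_iff_eq_mul, ← this,
              mul_assoc]
          rw [hsplit, w_append, e2, ← e3, ← mul_assoc, e1]
  have hfinal := claimQ _ u.length v.length rfl le_rfl le_rfl (by
    simp only [hxx, hyy, List.take_length]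
    rw [huv', h0]; exact Nat.zero_le _)
  have hz := claimQ 0 0 0 rfl (Nat.zero_le _) (Nat.zero_le _) (by
    simp only [hxx, hyy, List.take_zero]
    rw [h0]; exact Nat.zero_le _)
  have h1' : (xx 0)⁻¹ * yy 0 = 1 := by simp [hxx, hyy, wd_nil]
  have h2' : (xx u.length)⁻¹ * yy v.length = 1 := by
    simp only [hxx, hyy, List.take_length]; rw [huv']; group
  rw [h1', List.take_zero, List.take_zero, w_nil, one_mul] at hz
  rw [h2', hz, mul_one, List.take_length, List.take_length] at hfinal
  exact hfinal

end Base

end Pool.Agent.H205R3.Malcev
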