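import Pool.Agent.H205R3.MalcevBase

/-!
The finite relation property passes to extensions with abelian kernel whose centralizer
has finite index.
-/

namespace Pool.Agent.H205R3.Malcev

open Subgroup

theorem commGroup_subgroup_fg {C : Type*} [CommGroup C] [Group.FG C] (H : Subgroup C) : H.FG := by
  rw [Subgroup.fg_iff_add_fg]
  have h1 : Module.Finite ℤ (Additive C) := Module.Finite.iff_addGroup_fg.2 inferInstance
  have h2 : IsNoetherian ℤ (Additive C) := isNoetherian_of_isNoetherianRing_of_finite ℤ _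
  have h3 := h2.noetherian (AddSubgroup.toIntSubmodule (Subgroup.toAddSubgroup H))
  rw [Submodule.fg_iff_addSubgroup_fg] at h3
  exact h3

theorem fg_of_le_closure {U : Type*} [Group U] (X : Set U) (hX : X.Finite)
    (hc : ∀ x ∈ X, ∀ y ∈ X, x * y = y * x) (Bs : Subgroup U) (hB : Bs ≤ closure X) :
    ∃ Y : Set U, Y.Finite ∧ closure Y = Bs := by
  let hcg : CommGroup (closure X) := { (inferInstance : Group (closure X)) with
    mul_comm := (isMulCommutative_closure hc).is_comm.comm }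
  have hXf : Finite X := hX
  have hfg : Group.FG (closure X) := Group.closure_finite_fg X
  obtain ⟨S, hS⟩ := commGroup_subgroup_fg (Bs.subgroupOf (closure X))
  refine ⟨Subtype.val '' (S : Set (closure X)), S.finite_toSet.image _, ?_⟩
  have h1 := congrArg (Subgroup.map (closure X).subtype) hS
  rw [MonoidHom.map_closure, Subgroup.subgroupOf_map_subtype, inf_eq_left.2 hB] at h1
  exact h1

theorem conj_closure {U : Type*} [Group U] (g : U) (Z : Set U)
    (h : ∀ z ∈ Z, g * z * g⁻¹ ∈ closure Z) : ∀ y ∈ closure Z, g * y * g⁻¹ ∈ closure Z := by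
  intro y hy
  induction hy using closure_induction with
  | mem x hx => exact h x hx
  | one => simp
  | mul a b _ _ ha hb =>
    have : g * (a * b) * g⁻¹ = (g * a * g⁻¹) * (g * b * g⁻¹) := by group
    rw [this]; exact mul_mem ha hb
  | inv a _ ha =>
    have : g * a⁻¹ * g⁻¹ = (g * a * g⁻¹)⁻¹ := by group
    rw [this]; exact inv_mem ha

theorem hall {Fr : Type*} [Group Fr] (S : Set Fr) (hS : S.Finite) (hSgen : closure S = ⊤)
    (L : Subgroup Fr) [hLn : L.Normal] (Tb : Set Fr) (hTb : Tb.Finite)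
    (hLK : L ≤ normalClosure Tb) (X : Set Fr) (hX : X.Finite)
    (hcomm : ∀ x ∈ X, ∀ y ∈ X, x * y * x⁻¹ * y⁻¹ ∈ L)
    (hconj : ∀ s ∈ S, ∀ x ∈ X, ∃ y ∈ X, s * x * s⁻¹ * y⁻¹ ∈ L)
    (hconj' : ∀ s ∈ S, ∀ x ∈ X, ∃ y ∈ X, s⁻¹ * x * s * y⁻¹ ∈ L)
    (hT : ∀ t ∈ Tb, ∃ y ∈ X, t * y⁻¹ ∈ L) :
    ∃ T : Set Fr, T.Finite ∧ T ⊆ L ∧ L ≤ normalClosure T := by
  set T₀ : Set Fr := ((Set.image2 (fun x y => x * y * x⁻¹ * y⁻¹) X X ∪
    Set.image2 (fun (s : Fr) (p : Fr × Fr) => s * p.1 * s⁻¹ * p.2⁻¹) S (X ×ˢ X)) ∪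
    (Set.image2 (fun (s : Fr) (p : Fr × Fr) => s⁻¹ * p.1 * s * p.2⁻¹) S (X ×ˢ X) ∪
    Set.image2 (fun t y => t * y⁻¹) Tb X)) ∩ L with hT₀
  have hT₀f : T₀.Finite := by
    refine Set.Finite.inter_of_left (((hX.image2 _ hX).union (hS.image2 _ (hX.prod hX))).union
      ((hS.image2 _ (hX.prod hX)).union (hTb.image2 _ hX))) _
  have hT₀L : T₀ ⊆ L := Set.inter_subset_right
  set L' := normalClosure T₀ with hL'
  have hL'L : L' ≤ L := normalClosure_le_normal hT₀L
  set π : Fr →* Fr ⧸ L' := QuotientGroup.mk' L' with hπ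
  have hπ1 : ∀ x ∈ T₀, π x = 1 := by
    intro x hx
    exact (QuotientGroup.eq_one_iff x).2 (subset_normalClosure hx)
  have ecomm : ∀ x ∈ X, ∀ y ∈ X, π x * π y = π y * π x := by
    intro x hx y hy
    have := hπ1 (x * y * x⁻¹ * y⁻¹) ⟨Or.inl (Or.inl ⟨x, hx, y, hy, rfl⟩), hcomm x hx y hy⟩
    simp only [map_mul, map_inv] at this
    rw [mul_inv_eq_one, mul_inv_eq_iff_eq_mul] at this
    exact this
  have econj : ∀ s ∈ S, ∀ x ∈ X, ∃ y ∈ X, π s * π x * (π s)⁻¹ = π y := by
    intro s hs x hx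
    obtain ⟨y, hy, h⟩ := hconj s hs x hx
    refine ⟨y, hy, ?_⟩
    have := hπ1 (s * x * s⁻¹ * y⁻¹) ⟨Or.inl (Or.inr ⟨s, hs, (x, y), ⟨hx, hy⟩, rfl⟩), h⟩
    simp only [map_mul, map_inv] at this
    rw [mul_inv_eq_one] at this
    exact this
  have econj' : ∀ s ∈ S, ∀ x ∈ X, ∃ y ∈ X, (π s)⁻¹ * π x * π s = π y := by
    intro s hs x hx
    obtain ⟨y, hy, h⟩ := hconj' s hs x hx
    refine ⟨y, hy, ?_⟩
    have := hπ1 (s⁻¹ * x * s * y⁻¹) ⟨Or.inr (Or.inl ⟨s, hs, (x, y), ⟨hx, hy⟩, rfl⟩), h⟩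
    simp only [map_mul, map_inv] at this
    rw [mul_inv_eq_one] at this
    exact this
  have eT : ∀ t ∈ Tb, ∃ y ∈ X, π t = π y := by
    intro t ht
    obtain ⟨y, hy, h⟩ := hT t ht
    refine ⟨y, hy, ?_⟩
    have := hπ1 (t * y⁻¹) ⟨Or.inr (Or.inr ⟨t, ht, y, hy, rfl⟩), h⟩
    simp only [map_mul, map_inv] at this
    rw [mul_inv_eq_one] at this
    exact this
  set Y := closure (π '' X) with hY
  have hYconj : ∀ g ∈ closure S, (∀ y ∈ Y, π g * y * (π g)⁻¹ ∈ Y) ∧
      (∀ y ∈ Y, (π g)⁻¹ * y * π g ∈ Y) := by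
    intro g hg
    induction hg using closure_induction with
    | mem s hs =>
      constructor
      · apply conj_closure
        rintro _ ⟨x, hx, rfl⟩
        obtain ⟨y, hy, h⟩ := econj s hs x hx
        rw [h]; exact subset_closure ⟨y, hy, rfl⟩
      · have := conj_closure (π s)⁻¹ (π '' X) (by
          rintro _ ⟨x, hx, rfl⟩
          obtain ⟨y, hy, h⟩ := econj' s hs x hx
          rw [inv_inv, h]; exact subset_closure ⟨y, hy, rfl⟩)
        intro y hy
        have h2 := this y hy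
        rwa [inv_inv] at h2
    | one => simp
    | mul a b _ _ ha hb =>
      constructor
      · intro y hy
        have : π (a * b) * y * (π (a * b))⁻¹ = π a * (π b * y * (π b)⁻¹) * (π a)⁻¹ := by
          rw [map_mul]; group
        rw [this]; exact ha.1 _ (hb.1 _ hy)
      · intro y hy
        have : (π (a * b))⁻¹ * y * π (a * b) = (π b)⁻¹ * ((π a)⁻¹ * y * π a) * π b := by
          rw [map_mul]; group
        rw [this]; exact hb.2 _ (ha.2 _ hy)
    | inv a _ ha =>
      constructor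
      · intro y hy
        rw [map_inv, inv_inv]; exact ha.2 y hy
      · intro y hy
        rw [map_inv, inv_inv]; exact ha.1 y hy
  have hYn : (Y.comap π).Normal := by
    constructor
    intro x hx g
    show π _ ∈ Y
    rw [map_mul, map_mul, map_inv]
    exact (hYconj g (by rw [hSgen]; trivial)).1 _ hx
  have h1 : normalClosure Tb ≤ Y.comap π := by
    apply normalClosure_le_normal
    intro t ht
    obtain ⟨y, hy, h⟩ := eT t ht
    show π t ∈ Y
    rw [h]; exact subset_closure ⟨y, hy, rfl⟩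
  have h2 : L.map π ≤ Y := by
    rw [map_le_iff_le_comap]; exact hLK.trans h1
  obtain ⟨Y₁, hY₁f, hY₁⟩ := fg_of_le_closure (π '' X) (hX.image π) (by
    rintro _ ⟨x, hx, rfl⟩ _ ⟨y, hy, rfl⟩
    exact ecomm x hx y hy) (L.map π) h2
  have hlift : ∀ y ∈ Y₁, ∃ l ∈ L, π l = y := by
    intro y hy
    have : y ∈ L.map π := by rw [← hY₁]; exact subset_closure hy
    exact this
  choose! l hlL hlπ using hlift
  refine ⟨T₀ ∪ l '' Y₁, hT₀f.union (hY₁f.image _), ?_, ?_⟩
  · apply Set.union_subset hT₀L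
    rintro _ ⟨y, hy, rfl⟩
    exact hlL y hy
  · intro x hx
    have h3 : L.map π ≤ (normalClosure (T₀ ∪ l '' Y₁)).map π := by
      rw [← hY₁, closure_le]
      intro y hy
      exact ⟨l y, subset_normalClosure (Or.inr ⟨y, hy, rfl⟩), hlπ y hy⟩
    obtain ⟨m, hm, hmx⟩ := h3 ⟨x, hx, rfl⟩
    have h4 : m⁻¹ * x ∈ L' := by
      rw [← QuotientGroup.eq_one_iff]
      show π _ = 1
      rw [map_mul, map_inv, hmx, inv_mul_cancel]
    have h5 : x = m * (m⁻¹ * x) := by group
    rw [h5]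
    exact mul_mem hm (normalClosure_mono Set.subset_union_left h4)

section Ext

variable {α : Type*} {G : Type*} [Group G]

/-- Repeated word. -/
def rep (u : List α) : ℕ → List α
  | 0 => []
  | k + 1 => u ++ rep u k

theorem wd_rep (φ : α → G) (u : List α) (k : ℕ) : wd φ (rep u k) = wd φ u ^ k := by
  induction k with
  | zero => simp [rep, wd_nil]
  | succ k ih => rw [rep, wd_append, ih, pow_succ']

/-- The subgroup of the free group generated by positive words with values in `C`. -/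
def MM (φ : α → G) (C : Subgroup G) : Subgroup (FreeGroup α) :=
  closure {x | ∃ m : List α, wd φ m ∈ C ∧ wd FreeGroup.of m = x}

theorem lift_wd (φ : α → G) (u : List α) : FreeGroup.lift φ (wd FreeGroup.of u) = wd φ u := by
  rw [← wd_map]
  congr 1
  funext a
  simp

theorem mm_conj (φ : α → G) (C : Subgroup G) [C.Normal] [C.FiniteIndex] (p : List α) :
    ∀ y ∈ MM φ C, wd FreeGroup.of p * y * (wd FreeGroup.of p)⁻¹ ∈ MM φ C := by
  apply conj_closure
  rintro _ ⟨m, hm, rfl⟩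
  have hk : C.index ≠ 0 := FiniteIndex.index_ne_zero
  set k := C.index with hkdef
  obtain ⟨j, hj⟩ : ∃ j, k = j + 1 := ⟨k - 1, by omega⟩
  have h1 : wd FreeGroup.of p * wd FreeGroup.of m * (wd FreeGroup.of p)⁻¹ =
      wd FreeGroup.of (p ++ m ++ rep p j) * (wd FreeGroup.of (p ++ rep p j))⁻¹ := by
    simp only [wd_append]; group
  rw [h1]
  have h2 : wd φ p ^ (j+1) ∈ C := by rw [← hj]; exact pow_index_mem C _
  refine mul_mem (subset_closure ⟨_, ?_, rfl⟩) (inv_mem (subset_closure ⟨_, ?_, rfl⟩))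
  · rw [wd_append, wd_append, wd_rep]
    have h3 : wd φ p * wd φ m * wd φ p ^ j =
        (wd φ p * wd φ m * (wd φ p)⁻¹) * wd φ p ^ (j+1) := by
      rw [pow_succ']; group
    rw [h3]
    exact mul_mem (Normal.conj_mem inferInstance _ hm _) h2
  · rw [wd_append, wd_rep, ← pow_succ']; exact h2

theorem mm_decomp (φ : α → G) (C : Subgroup G) [C.Normal] [C.FiniteIndex] (x : FreeGroup α) :
    ∃ y ∈ MM φ C, ∃ p : List α, x = y * wd FreeGroup.of p := by
  have hk : C.index ≠ 0 := FiniteIndex.index_ne_zero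
  set k := C.index with hkdef
  obtain ⟨j, hj⟩ : ∃ j, k = j + 1 := ⟨k - 1, by omega⟩
  induction x using FreeGroup.induction_on with
  | C1 => exact ⟨1, one_mem _, [], by simp [wd_nil]⟩
  | of a => exact ⟨1, one_mem _, [a], by simp [wd_single]⟩
  | inv_of a _ =>
    refine ⟨(wd FreeGroup.of (rep [a] (j+1)))⁻¹, inv_mem (subset_closure ⟨_, ?_, rfl⟩),
      rep [a] j, ?_⟩
    · rw [wd_rep, ← hj]; exact pow_index_mem C _
    · rw [wd_rep, wd_rep, wd_single, pow_succ]
      group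
  | mul x y hx hy =>
    obtain ⟨y1, hy1, p1, rfl⟩ := hx
    obtain ⟨y2, hy2, p2, rfl⟩ := hy
    refine ⟨y1 * (wd FreeGroup.of p1 * y2 * (wd FreeGroup.of p1)⁻¹),
      mul_mem hy1 (mm_conj φ C p1 y2 hy2), p1 ++ p2, ?_⟩
    rw [wd_append]; group

theorem mm_ge (φ : α → G) (C : Subgroup G) [C.Normal] [C.FiniteIndex] :
    C.comap (FreeGroup.lift φ) ≤ MM φ C := by
  intro x hx
  obtain ⟨y, hy, p, rfl⟩ := mm_decomp φ C x
  have h1 : MM φ C ≤ C.comap (FreeGroup.lift φ) := by
    unfold MM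
    rw [closure_le]
    rintro _ ⟨m, hm, rfl⟩
    show FreeGroup.lift φ _ ∈ C
    rw [lift_wd]; exact hm
  have h2 : wd φ p ∈ C := by
    rw [← lift_wd]
    have h3 : wd FreeGroup.of p = y⁻¹ * (y * wd FreeGroup.of p) := by group
    rw [h3]
    exact mul_mem (inv_mem (h1 hy)) hx
  exact mul_mem hy (subset_closure ⟨p, h2, rfl⟩)

theorem ext_fmal {Q : Type*} [Group Q] (π : G →* Q)
    (hab : ∀ a ∈ π.ker, ∀ b ∈ π.ker, a * b = b * a)
    (hCf : (centralizer (π.ker : Set G)).FiniteIndex) (hQ : FMal Q) : FMal G := by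
  intro n φ
  set C : Subgroup G := centralizer (π.ker : Set G) with hC
  have hCn : C.Normal := by rw [hC]; infer_instance
  obtain ⟨P, hPf, hPv, hPN⟩ := hQ n (fun a => π (φ a))
  set L := NN φ with hL
  have hLn : L.Normal := by rw [hL]; unfold NN; infer_instance
  have hval : ∀ p ∈ Val (fun a => π (φ a)), wd φ p.1 * (wd φ p.2)⁻¹ ∈ π.ker := by
    intro p hp
    rw [MonoidHom.mem_ker, map_mul, map_inv, mul_inv_eq_one, ← wd_map, ← wd_map]
    exact hp
  have hLK : L ≤ normalClosure (rl '' P) := by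
    refine le_trans ?_ hPN
    apply normalClosure_mono
    apply Set.image_mono
    intro p hp
    show wd _ _ = wd _ _
    rw [wd_map, wd_map]
    exact congrArg π hp
  -- the key commutation
  have hkey : ∀ p ∈ Val (fun a => π (φ a)), ∀ m : List (Fin n), wd φ m ∈ C →
      (wd FreeGroup.of m * rl p * (wd FreeGroup.of m)⁻¹ * (rl p)⁻¹) ∈ L := by
    rintro ⟨u, v⟩ hp m hm
    have ha := hval _ hp
    simp only at ha
    have hvalid : ∀ w : List (Fin n), wd φ v * wd φ w ∈ C →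
        (QuotientGroup.mk' L) (wd FreeGroup.of (u ++ w ++ v)) =
        (QuotientGroup.mk' L) (wd FreeGroup.of (v ++ w ++ u)) := by
      intro w hw
      have h1 : (u ++ w ++ v, v ++ w ++ u) ∈ Val φ := by
        show wd φ _ = wd φ _
        simp only [wd_append]
        have h2 := mem_centralizer_iff.1 hw _ ha
        have h3 : wd φ u * wd φ w * wd φ v =
            (wd φ u * (wd φ v)⁻¹ * (wd φ v * wd φ w)) * wd φ v := by group
        rw [h3, h2]; group
      have h2 : rl (u ++ w ++ v, v ++ w ++ u) ∈ L :=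
        subset_normalClosure ⟨_, h1, rfl⟩
      have h3 := (QuotientGroup.eq_one_iff (N := L) _).2 h2
      rw [← mul_inv_eq_one, ← map_inv, ← map_mul]
      exact h3
    have hk : C.index ≠ 0 := FiniteIndex.index_ne_zero
    obtain ⟨j, hj⟩ : ∃ j, C.index = j + 1 := ⟨C.index - 1, by omega⟩
    have h0 : wd φ v * wd φ (rep v j) ∈ C := by
      rw [wd_rep, ← pow_succ', ← hj]; exact pow_index_mem C _
    have e1 := hvalid (rep v j) h0
    have e2 := hvalid (rep v j ++ m) (by
      rw [wd_append, ← mul_assoc]; exact mul_mem h0 hm)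
    simp only [wd_append, map_mul] at e1 e2
    rw [← QuotientGroup.eq_one_iff]
    show (QuotientGroup.mk' L) _ = 1
    unfold rl
    simp only [map_mul, map_inv]
    generalize (QuotientGroup.mk' L) (wd FreeGroup.of u) = U at *
    generalize (QuotientGroup.mk' L) (wd FreeGroup.of v) = V at *
    generalize (QuotientGroup.mk' L) (wd FreeGroup.of (rep v j)) = W at *
    generalize (QuotientGroup.mk' L) (wd FreeGroup.of m) = M at *
    have e3 : V⁻¹ * U * W = W * (U * V⁻¹) := by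
      have : V⁻¹ * (U * W * V) * V⁻¹ = V⁻¹ * (V * W * U) * V⁻¹ := by rw [e1]
      calc V⁻¹ * U * W = V⁻¹ * (U * W * V) * V⁻¹ := by group
        _ = V⁻¹ * (V * W * U) * V⁻¹ := this
        _ = W * (U * V⁻¹) := by group
    have e4 : V⁻¹ * U * W * M = W * M * (U * V⁻¹) := by
      have : V⁻¹ * (U * (W * M) * V) * V⁻¹ = V⁻¹ * (V * (W * M) * U) * V⁻¹ := by rw [e2]
      calc V⁻¹ * U * W * M = V⁻¹ * (U * (W * M) * V) * V⁻¹ := by group
        _ = V⁻¹ * (V * (W * M) * U) * V⁻¹ := this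
        _ = W * M * (U * V⁻¹) := by group
    rw [e3] at e4
    have e5 : (U * V⁻¹) * M = M * (U * V⁻¹) := by
      have : W⁻¹ * (W * (U * V⁻¹) * M) = W⁻¹ * (W * M * (U * V⁻¹)) := by rw [e4]
      calc (U * V⁻¹) * M = W⁻¹ * (W * (U * V⁻¹) * M) := by group
        _ = W⁻¹ * (W * M * (U * V⁻¹)) := this
        _ = M * (U * V⁻¹) := by group
    rw [← e5]
    group
  -- hence the whole preimage of the centralizer commutes
  set E : Subgroup (FreeGroup (Fin n)) := C.comap (FreeGroup.lift φ) with hE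
  have hEn : E.Normal := by rw [hE]; infer_instance
  have hEf : E.FiniteIndex := by
    constructor
    rw [hE, index_comap]
    exact (instFiniteIndex_subgroupOf C (FreeGroup.lift φ).range).index_ne_zero
  have hcomm : ∀ p ∈ Val (fun a => π (φ a)), ∀ e ∈ E,
      (e * rl p * e⁻¹ * (rl p)⁻¹) ∈ L := by
    intro p hp e he
    have h1 : MM φ C ≤ (centralizer {QuotientGroup.mk' L (rl p)}).comap (QuotientGroup.mk' L) := by
      unfold MM
      rw [closure_le]
      rintro _ ⟨m, hm, rfl⟩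
      show QuotientGroup.mk' L _ ∈ centralizer {QuotientGroup.mk' L (rl p)}
      rw [mem_centralizer_iff]
      intro h hh
      rw [Set.mem_singleton_iff] at hh
      subst hh
      have h2 := (QuotientGroup.eq_one_iff (N := L) _).2 (hkey p hp m hm)
      have h3 : QuotientGroup.mk' L (wd FreeGroup.of m * rl p * (wd FreeGroup.of m)⁻¹ * (rl p)⁻¹)
        = 1 := h2
      simp only [map_mul, map_inv] at h3
      rw [mul_inv_eq_one, mul_inv_eq_iff_eq_mul] at h3
      exact h3.symm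
    have h2 := h1 (mm_ge φ C he)
    have h3 := mem_centralizer_iff.1 h2 _ rfl
    rw [← QuotientGroup.eq_one_iff]
    show QuotientGroup.mk' L _ = 1
    simp only [map_mul, map_inv]
    rw [← h3]
    group
  have hrlE : ∀ p ∈ P, rl p ∈ E := by
    intro p hp
    show FreeGroup.lift φ (rl p) ∈ C
    unfold rl
    rw [map_mul, map_inv, lift_wd, lift_wd]
    rw [hC, mem_centralizer_iff]
    intro h hh
    exact hab _ hh _ (hval p (hPv hp))
  -- finitely many conjugates
  have hfq : Finite (FreeGroup (Fin n) ⧸ E) := Subgroup.finite_quotient_of_finiteIndex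
  set X : Set (FreeGroup (Fin n)) := Set.image2 (fun (c : FreeGroup (Fin n) ⧸ E) p =>
    c.out * rl p * (c.out)⁻¹) Set.univ P with hX
  have hXf : X.Finite := Set.finite_univ.image2 _ hPf
  have hrepX : ∀ g, ∀ p ∈ P, ∃ y ∈ X, g * rl p * g⁻¹ * y⁻¹ ∈ L := by
    intro g p hp
    set r := (QuotientGroup.mk g : FreeGroup (Fin n) ⧸ E).out with hr
    refine ⟨r * rl p * r⁻¹, ⟨QuotientGroup.mk g, trivial, p, hp, rfl⟩, ?_⟩
    have h1 : (QuotientGroup.mk r : FreeGroup (Fin n) ⧸ E) = QuotientGroup.mk g :=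
      Quotient.out_eq _
    have h2 : r⁻¹ * g ∈ E := QuotientGroup.eq.1 h1
    have h3 := hcomm p (hPv hp) _ h2
    have h4 : g * rl p * g⁻¹ * (r * rl p * r⁻¹)⁻¹ =
        r * ((r⁻¹ * g) * rl p * (r⁻¹ * g)⁻¹ * (rl p)⁻¹) * r⁻¹ := by group
    rw [h4]
    exact hLn.conj_mem _ h3 r
  obtain ⟨T, hTf, hTL, hLT⟩ := hall (Set.range (FreeGroup.of : Fin n → FreeGroup (Fin n)))
    (Set.finite_range _) (FreeGroup.closure_range_of _) L (rl '' P) (hPf.image _) hLK X hXf (by
      rintro _ ⟨c, -, p, hp, rfl⟩ _ ⟨c', -, p', hp', rfl⟩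
      simp only
      generalize c.out = r at *
      generalize c'.out = r' at *
      have h1 : r'⁻¹ * (r * rl p * r⁻¹) * r' ∈ E := by
        have h2 := hEn.conj_mem _ (hEn.conj_mem _ (hrlE p hp) r) r'⁻¹
        rwa [inv_inv] at h2
      have h3 := hcomm p' (hPv hp') _ h1
      have h4 : r * rl p * r⁻¹ * (r' * rl p' * r'⁻¹) * (r * rl p * r⁻¹)⁻¹ *
          (r' * rl p' * r'⁻¹)⁻¹ = r' * ((r'⁻¹ * (r * rl p * r⁻¹) * r') * rl p' *
            (r'⁻¹ * (r * rl p * r⁻¹) * r')⁻¹ * (rl p')⁻¹) * r'⁻¹ := by group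
      rw [h4]
      exact hLn.conj_mem _ h3 r') (by
      rintro s - _ ⟨c, -, p, hp, rfl⟩
      obtain ⟨y, hy, h⟩ := hrepX (s * c.out) p hp
      refine ⟨y, hy, ?_⟩
      have h4 : s * (c.out * rl p * c.out⁻¹) * s⁻¹ = (s * c.out) * rl p * (s * c.out)⁻¹ := by
        group
      rw [h4]; exact h) (by
      rintro s - _ ⟨c, -, p, hp, rfl⟩
      obtain ⟨y, hy, h⟩ := hrepX (s⁻¹ * c.out) p hp
      refine ⟨y, hy, ?_⟩
      have h4 : s⁻¹ * (c.out * rl p * c.out⁻¹) * s = (s⁻¹ * c.out) * rl p * (s⁻¹ * c.out)⁻¹ := by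
        group
      rw [h4]; exact h) (by
      rintro _ ⟨p, hp, rfl⟩
      obtain ⟨y, hy, h⟩ := hrepX 1 p hp
      refine ⟨y, hy, ?_⟩
      simpa using h)
  exact finRel_of_finite φ T hTf hTL hLT

end Ext

end Pool.Agent.H205R3.Malcev
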