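import Pool.Agent.H205R3.MalcevBase

/-!
Free groups and virtually free groups carry tree-like distances.
-/

namespace Pool.Agent.H205R3.Malcev

open Subgroup

section Lcp

variable {β : Type*} [DecidableEq β]

/-- Length of the longest common initial segment. -/
def lcp : List β → List β → ℕ
  | a :: as, b :: bs => if a = b then lcp as bs + 1 else 0
  | _, _ => 0

theorem lcp_nil_left (l : List β) : lcp [] l = 0 := by simp [lcp]

theorem lcp_nil_right (l : List β) : lcp l [] = 0 := by cases l <;> simp [lcp]

theorem lcp_cons (a b : β) (as bs : List β) :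
    lcp (a :: as) (b :: bs) = if a = b then lcp as bs + 1 else 0 := by simp [lcp]

theorem lcp_comm (l m : List β) : lcp l m = lcp m l := by
  induction l generalizing m with
  | nil => rw [lcp_nil_left, lcp_nil_right]
  | cons a as ih =>
    cases m with
    | nil => rw [lcp_nil_left, lcp_nil_right]
    | cons b bs =>
      rw [lcp_cons, lcp_cons, ih]
      by_cases h : a = b
      · subst h; simp
      · rw [if_neg h, if_neg (Ne.symm h)]

theorem lcp_self (l : List β) : lcp l l = l.length := by
  induction l with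
  | nil => simp [lcp]
  | cons a as ih => rw [lcp_cons, if_pos rfl, ih, List.length_cons]

theorem lcp_le_left (l m : List β) : lcp l m ≤ l.length := by
  induction l generalizing m with
  | nil => rw [lcp_nil_left]; exact Nat.zero_le _
  | cons a as ih =>
    cases m with
    | nil => rw [lcp_nil_right]; exact Nat.zero_le _
    | cons b bs =>
      rw [lcp_cons, List.length_cons]
      split_ifs
      · have := ih bs; omega
      · omega

theorem lcp_le_right (l m : List β) : lcp l m ≤ m.length := by
  rw [lcp_comm]; exact lcp_le_left m l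

theorem lcp_ultra (l m n : List β) : min (lcp l m) (lcp m n) ≤ lcp l n := by
  induction l generalizing m n with
  | nil => rw [lcp_nil_left, lcp_nil_left]; simp
  | cons a as ih =>
    cases m with
    | nil => rw [lcp_nil_right]; simp
    | cons b bs =>
      cases n with
      | nil => rw [lcp_nil_right (b :: bs)]; simp
      | cons c cs =>
        rw [lcp_cons, lcp_cons, lcp_cons]
        by_cases h1 : a = b
        · by_cases h2 : b = c
          · subst h1; subst h2
            simp only [if_true]
            have := ih bs cs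
            omega
          · simp [h2]
        · simp [h1]

theorem lcp_take (l m : List β) : l.take (lcp l m) = m.take (lcp l m) := by
  induction l generalizing m with
  | nil => rw [lcp_nil_left]; simp
  | cons a as ih =>
    cases m with
    | nil => rw [lcp_nil_right]; simp
    | cons b bs =>
      rw [lcp_cons]
      by_cases h : a = b
      · subst h
        simp only [if_true, List.take_succ_cons]
        rw [ih]
      · simp [h]

/-- Tree distance of two lists. -/
def ld (l m : List β) : ℕ := l.length + m.length - 2 * lcp l m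

theorem ld_comm (l m : List β) : ld l m = ld m l := by
  unfold ld; rw [lcp_comm l m, Nat.add_comm]

theorem ld_self (l : List β) : ld l l = 0 := by
  unfold ld; rw [lcp_self]; omega

theorem ld_four (x y z w : List β) :
    ld x y + ld z w ≤ max (ld x z + ld y w) (ld x w + ld y z) := by
  unfold ld
  have a1 := lcp_le_left x y
  have a2 := lcp_le_right x y
  have a3 := lcp_le_left z w
  have a4 := lcp_le_right z w
  have a5 := lcp_le_left x z
  have a6 := lcp_le_right x z
  have a7 := lcp_le_left y w
  have a8 := lcp_le_right y w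
  have a9 := lcp_le_left x w
  have a10 := lcp_le_right x w
  have a11 := lcp_le_left y z
  have a12 := lcp_le_right y z
  have b1 := lcp_ultra x z y
  have b2 := lcp_ultra x w y
  have b3 := lcp_ultra z x w
  have b4 := lcp_ultra z y w
  rw [lcp_comm z y] at b1 b4
  rw [lcp_comm w y] at b2
  rw [lcp_comm z x] at b3
  have b5 := lcp_ultra x y z
  have b6 := lcp_ultra x w z
  have b7 := lcp_ultra y x w
  have b8 := lcp_ultra y z w
  rw [lcp_comm w z] at b6
  rw [lcp_comm y x] at b7
  have b9 := lcp_ultra x y w
  have b10 := lcp_ultra x z w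
  have b11 := lcp_ultra y x z
  have b12 := lcp_ultra y w z
  rw [lcp_comm y x] at b11
  rw [lcp_comm w z] at b12
  omega

theorem lcp_append_right (l m : List β) : lcp l (l ++ m) = l.length := by
  induction l with
  | nil => rw [lcp_nil_left]; rfl
  | cons a as ih => rw [List.cons_append, lcp_cons, if_pos rfl, ih, List.length_cons]

theorem ld_append_single (l : List β) (a : β) : ld l (l ++ [a]) = 1 := by
  unfold ld
  rw [lcp_append_right, List.length_append]
  simp
  omega

end Lcp

section Free

variable {B : Type*} [DecidableEq B]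

/-- The path from the base vertex. -/
def pw (g : FreeGroup B) : List (B × Bool) := (g⁻¹).toWord.reverse

/-- The tree distance on a free group. -/
def fd (g h : FreeGroup B) : ℕ := ld (pw g) (pw h)

theorem fd_comm (x y : FreeGroup B) : fd x y = fd y x := ld_comm _ _

theorem fd_self (x : FreeGroup B) : fd x x = 0 := ld_self _

theorem fd_four (x y z w : FreeGroup B) :
    fd x y + fd z w ≤ max (fd x z + fd y w) (fd x w + fd y z) := ld_four _ _ _ _

theorem fd_triangle (x y z : FreeGroup B) : fd x y ≤ fd x z + fd z y := by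
  have := fd_four x y z z
  rw [fd_self, fd_comm y z] at this
  simpa using this

theorem fd_letter (g : FreeGroup B) (x : B × Bool) : fd g (g * FreeGroup.mk [x]) ≤ 1 := by
  have h1 : (g * FreeGroup.mk [x])⁻¹.toWord =
      FreeGroup.reduce ((x.1, !x.2) :: (g⁻¹).toWord) := by
    rw [mul_inv_rev, FreeGroup.inv_mk]
    conv_lhs => rw [← FreeGroup.mk_toWord (x := g⁻¹), FreeGroup.mul_mk, FreeGroup.toWord_mk]
    rfl
  have h2 := FreeGroup.reduce.cons (L := (g⁻¹).toWord) (x.1, !x.2)
  rw [FreeGroup.reduce_toWord] at h2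
  unfold fd pw
  rw [h1, h2]
  rcases hw : (g⁻¹).toWord with _ | ⟨hd, tl⟩
  · simp only [List.reverse_nil, List.reverse_cons, List.nil_append]
    have := ld_append_single ([] : List (B × Bool)) (x.1, !x.2)
    rw [List.nil_append] at this
    rw [this]
  · simp only
    split_ifs with h
    · rw [List.reverse_cons, ld_comm, ld_append_single]
    · rw [List.reverse_cons (a := (x.1, !x.2)), ld_append_single]

theorem fd_list (L : List (B × Bool)) (g : FreeGroup B) :
    fd g (g * FreeGroup.mk L) ≤ L.length := by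
  induction L generalizing g with
  | nil =>
    have : g * FreeGroup.mk [] = g := by
      rw [← FreeGroup.one_eq_mk, mul_one]
    rw [this, fd_self]; exact Nat.zero_le _
  | cons x L ih =>
    have h1 : FreeGroup.mk (x :: L) = FreeGroup.mk [x] * FreeGroup.mk L := by
      rw [FreeGroup.mul_mk]; rfl
    rw [h1, ← mul_assoc, List.length_cons]
    have h2 := fd_triangle g (g * FreeGroup.mk [x] * FreeGroup.mk L) (g * FreeGroup.mk [x])
    have h3 := fd_letter g x
    have h4 := ih (g * FreeGroup.mk [x])
    omega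

theorem fd_step (e g : FreeGroup B) : fd g (g * e) ≤ e.toWord.length := by
  have := fd_list e.toWord g
  rwa [FreeGroup.mk_toWord] at this

/-- Bounded elements. -/
def bl (B : Type*) (K : ℕ) : Set (FreeGroup B) :=
  Set.image2 (fun A A' => FreeGroup.mk A * (FreeGroup.mk A')⁻¹)
    {l : List (B × Bool) | l.length ≤ K} {l : List (B × Bool) | l.length ≤ K}

theorem bl_finite (B : Type*) [Finite B] (K : ℕ) : (bl B K).Finite :=
  (List.finite_length_le _ _).image2 _ (List.finite_length_le _ _)

theorem fd_bl (x y : FreeGroup B) (K : ℕ) (h : fd x y ≤ K) : x⁻¹ * y ∈ bl B K := by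
  set n := lcp (pw x) (pw y) with hn
  have h1 := lcp_take (pw x) (pw y)
  rw [← hn] at h1
  have hl := lcp_le_left (pw x) (pw y)
  have hr := lcp_le_right (pw x) (pw y)
  rw [← hn] at hl hr
  have hx : x⁻¹ = FreeGroup.mk ((pw x).drop n).reverse * FreeGroup.mk ((pw x).take n).reverse := by
    rw [FreeGroup.mul_mk, ← List.reverse_append, List.take_append_drop]
    unfold pw
    rw [List.reverse_reverse, FreeGroup.mk_toWord]
  have hy : y⁻¹ = FreeGroup.mk ((pw y).drop n).reverse * FreeGroup.mk ((pw y).take n).reverse := by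
    rw [FreeGroup.mul_mk, ← List.reverse_append, List.take_append_drop]
    unfold pw
    rw [List.reverse_reverse, FreeGroup.mk_toWord]
  have hxy : x⁻¹ * y = FreeGroup.mk ((pw x).drop n).reverse *
      (FreeGroup.mk ((pw y).drop n).reverse)⁻¹ := by
    have h5 : x⁻¹ * y = x⁻¹ * (y⁻¹)⁻¹ := by rw [inv_inv]
    rw [h5, hx, hy, h1]
    group
  unfold fd ld at h
  rw [← hn] at h
  refine ⟨((pw x).drop n).reverse, ?_, ((pw y).drop n).reverse, ?_, hxy.symm⟩
  · simp only [Set.mem_ofPred_eq, List.length_reverse, List.length_drop]; omega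
  · simp only [Set.mem_ofPred_eq, List.length_reverse, List.length_drop]; omega

end Free

/-- Every finite family of elements admits a tree-like distance with finite balls. -/
def TreeLike (G : Type*) [Group G] : Prop :=
  ∀ (n : ℕ) (φ : Fin n → G), ∃ (D : G → G → ℕ) (K : ℕ) (Γ : Set G),
    (∀ x y, D x y = D y x) ∧ (∀ x, D x x = 0) ∧
    (∀ x y z w, D x y + D z w ≤ max (D x z + D y w) (D x w + D y z)) ∧
    (∀ x a, D x (x * φ a) ≤ K) ∧ Γ.Finite ∧
    (∀ x y : G, x⁻¹ * y ∈ closure (Set.range φ) → D x y ≤ K → x⁻¹ * y ∈ Γ)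

theorem TreeLike.fmal {G : Type*} [Group G] (h : TreeLike G) : FMal G := by
  intro n φ
  obtain ⟨D, K, Γ, hs, h0, h4, hstep, hΓ, hfin⟩ := h n φ
  exact base_abstract φ D K hs h0 h4 hstep Γ hΓ hfin

theorem TreeLike.prod_finite {G H : Type*} [Group G] [Group H] [Finite H] (h : TreeLike G) :
    TreeLike (G × H) := by
  intro n φ
  obtain ⟨D, K, Γ, hs, h0, h4, hstep, hΓ, hfin⟩ := h n (fun a => (φ a).1)
  refine ⟨fun x y => D x.1 y.1, K, Γ ×ˢ Set.univ, fun x y => hs _ _, fun x => h0 _,
    fun x y z w => h4 _ _ _ _, fun x a => hstep _ _, hΓ.prod Set.finite_univ, ?_⟩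
  intro x y hxy hD
  refine ⟨?_, Set.mem_univ _⟩
  refine hfin x.1 y.1 ?_ hD
  have h1 : (MonoidHom.fst G H) (x⁻¹ * y) ∈ (closure (Set.range φ)).map (MonoidHom.fst G H) :=
    mem_map_of_mem _ hxy
  rw [MonoidHom.map_closure, ← Set.range_comp] at h1
  exact h1

/-- Every element of a free group involves finitely many letters. -/
theorem exists_letters {B : Type*} (g : FreeGroup B) :
    ∃ S : Set B, S.Finite ∧ g ∈ closure (FreeGroup.of '' S) := by
  induction g using FreeGroup.induction_on with
  | C1 => exact ⟨∅, Set.finite_empty, one_mem _⟩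
  | of b => exact ⟨{b}, Set.finite_singleton b, subset_closure ⟨b, rfl, rfl⟩⟩
  | inv_of b h =>
    obtain ⟨S, hS, h⟩ := h
    exact ⟨S, hS, inv_mem h⟩
  | mul x y hx hy =>
    obtain ⟨S, hS, hx⟩ := hx
    obtain ⟨T, hT, hy⟩ := hy
    refine ⟨S ∪ T, hS.union hT, mul_mem ?_ ?_⟩
    · exact closure_mono (Set.image_mono Set.subset_union_left) hx
    · exact closure_mono (Set.image_mono Set.subset_union_right) hy

theorem exists_letters_finite {B : Type*} (V : Set (FreeGroup B)) (hV : V.Finite) :
    ∃ S : Set B, S.Finite ∧ V ⊆ closure (FreeGroup.of '' S) := by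
  choose S hS hS' using exists_letters (B := B)
  refine ⟨⋃ v ∈ V, S v, hV.biUnion fun v _ => hS v, ?_⟩
  intro v hv
  refine closure_mono (Set.image_mono ?_) (hS' v)
  intro b hb
  simp only [Set.mem_iUnion]
  exact ⟨v, hv, hb⟩

theorem treeLike_of_virtually_free {G : Type*} [Group G] (F₀ : Subgroup G) [F₀.FiniteIndex]
    {B : Type*} (e : F₀ →* FreeGroup B) (he : Function.Injective e) : TreeLike G := by
  classical
  intro n φ
  -- coset representatives
  set r : G → G := fun g => ((QuotientGroup.mk (g⁻¹) : G ⧸ F₀).out)⁻¹ with hr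
  have hrfin : (Set.range r).Finite := by
    have : Set.range r ⊆ Set.range (fun c : G ⧸ F₀ => (c.out)⁻¹) := by
      rintro _ ⟨g, rfl⟩
      exact ⟨_, rfl⟩
    have hfq : Finite (G ⧸ F₀) := Subgroup.finite_quotient_of_finiteIndex
    exact (Set.finite_range _).subset this
  have hrmem : ∀ g, g * (r g)⁻¹ ∈ F₀ := by
    intro g
    have h1 : (QuotientGroup.mk ((QuotientGroup.mk (g⁻¹) : G ⧸ F₀).out) : G ⧸ F₀) =
        QuotientGroup.mk (g⁻¹) := Quotient.out_eq _
    have h2 := QuotientGroup.eq.1 h1
    have h3 := inv_mem h2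
    simpa [hr] using h3
  set f : G → F₀ := fun g => ⟨g * (r g)⁻¹, hrmem g⟩ with hf
  have hfr : ∀ g, g = (f g : G) * r g := by intro g; simp [hf]
  -- the finite set of transitions
  set E : Set G := Set.image2 (fun a b => a * b) (Set.image2 (fun a i => a * φ i) (Set.range r)
    Set.univ) (Set.range fun g => (r g)⁻¹) with hE
  have hEf : E.Finite := by
    refine (hrfin.image2 _ Set.finite_univ).image2 _ ?_
    have : (Set.range fun g => (r g)⁻¹) = (fun x => x⁻¹) '' (Set.range r) := by
      rw [← Set.range_comp]; rfl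
    rw [this]; exact hrfin.image _
  set EF : Set F₀ := {t | (t : G) ∈ E} with hEF
  have hEFf : EF.Finite := hEf.preimage Subtype.val_injective.injOn
  have htrans : ∀ x a, (f x)⁻¹ * f (x * φ a) ∈ EF := by
    intro x a
    show (((f x)⁻¹ * f (x * φ a) : F₀) : G) ∈ E
    refine ⟨r x * φ a, ⟨r x, ⟨x, rfl⟩, a, Set.mem_univ _, rfl⟩, (r (x * φ a))⁻¹,
      ⟨x * φ a, rfl⟩, ?_⟩
    simp only [hf, Subgroup.coe_mul, Subgroup.coe_inv]
    group
  obtain ⟨S, hSf, hS⟩ := exists_letters_finite (e '' EF) (hEFf.image _)
  have hSfin : Finite S := hSf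
  set ret : FreeGroup B →* FreeGroup S :=
    FreeGroup.lift (fun b => if h : b ∈ S then FreeGroup.of (⟨b, h⟩ : S) else 1) with hret
  set ι : FreeGroup S →* FreeGroup B := FreeGroup.map (fun s : S => (s : B)) with hι
  have hιret : ∀ g ∈ closure (FreeGroup.of '' S), ι (ret g) = g := by
    intro g hg
    induction hg using closure_induction with
    | mem x hx =>
      obtain ⟨b, hb, rfl⟩ := hx
      simp only [hret, hι, FreeGroup.lift_apply_of, dif_pos hb, FreeGroup.map.of]
    | one => simp
    | mul x y _ _ hx hy => rw [map_mul, map_mul, hx, hy]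
    | inv x _ hx => rw [map_inv, map_inv, hx]
  set D : G → G → ℕ := fun x y => fd (ret (e (f x))) (ret (e (f y))) with hD
  obtain ⟨K, hK⟩ : ∃ K : ℕ, ∀ t ∈ EF, (ret (e t)).toWord.length ≤ K := by
    obtain ⟨K, hK⟩ := (hEFf.image (fun t => (ret (e t)).toWord.length)).bddAbove
    exact ⟨K, fun t ht => hK ⟨t, ht, rfl⟩⟩
  have hconn : ∀ x c : G, c ∈ closure (Set.range φ) →
      e ((f x)⁻¹ * f (x * c)) ∈ closure (FreeGroup.of '' S) := by
    intro x c hc
    induction hc using closure_induction_right with
    | one => rw [mul_one, inv_mul_cancel, map_one]; exact one_mem _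
    | mul_right y hy z hz ih =>
      obtain ⟨a, rfl⟩ := hz
      have h1 : (f x)⁻¹ * f (x * (y * φ a)) =
          ((f x)⁻¹ * f (x * y)) * ((f (x * y))⁻¹ * f (x * y * φ a)) := by
        rw [mul_assoc x y]; group
      rw [h1, map_mul]
      exact mul_mem ih (hS ⟨_, htrans _ _, rfl⟩)
    | mul_inv_cancel y hy z hz ih =>
      obtain ⟨a, rfl⟩ := hz
      have h1 : (f x)⁻¹ * f (x * (y * (φ a)⁻¹)) =
          ((f x)⁻¹ * f (x * y)) *
            ((f (x * (y * (φ a)⁻¹)))⁻¹ * f (x * (y * (φ a)⁻¹) * φ a))⁻¹ := by
        have : x * (y * (φ a)⁻¹) * φ a = x * y := by group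
        rw [this]; group
      rw [h1, map_mul, map_inv]
      exact mul_mem ih (inv_mem (hS ⟨_, htrans _ _, rfl⟩))
  set T : Set F₀ := {t | e t ∈ ι '' (bl S K)} with hT
  have hTf : T.Finite := ((bl_finite S K).image ι).preimage he.injOn
  refine ⟨D, K, Set.image2 (fun a b => a * b) (Set.image2 (fun a (t : F₀) => a * (t : G))
    (Set.range fun g => (r g)⁻¹) T) (Set.range r), fun x y => fd_comm _ _, fun x => fd_self _,
    fun x y z w => fd_four _ _ _ _, ?_, ?_, ?_⟩
  · intro x a
    have h1 : ret (e (f (x * φ a))) = ret (e (f x)) * ret (e ((f x)⁻¹ * f (x * φ a))) := by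
      rw [← map_mul, ← map_mul, mul_inv_cancel_left]
    simp only [hD]
    rw [h1]
    exact (fd_step _ _).trans (hK _ (htrans x a))
  · refine Set.Finite.image2 _ (Set.Finite.image2 _ ?_ hTf) hrfin
    have : (Set.range fun g => (r g)⁻¹) = (fun x => x⁻¹) '' (Set.range r) := by
      rw [← Set.range_comp]; rfl
    rw [this]; exact hrfin.image _
  · intro x y hxy hDxy
    refine ⟨(r x)⁻¹ * (((f x)⁻¹ * f y : F₀) : G), ⟨(r x)⁻¹, ⟨x, rfl⟩, (f x)⁻¹ * f y, ?_, rfl⟩,
      r y, ⟨y, rfl⟩, ?_⟩
    · show e _ ∈ ι '' (bl S K)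
      have h1 := hconn x (x⁻¹ * y) hxy
      rw [mul_inv_cancel_left] at h1
      have h2 := hιret _ h1
      refine ⟨_, ?_, h2⟩
      rw [map_mul, map_mul, map_inv, map_inv]
      exact fd_bl _ _ _ hDxy
    · simp only [hf, Subgroup.coe_mul, Subgroup.coe_inv]
      group

end Pool.Agent.H205R3.Malcev
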