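import Pool.Agent.H205R3.Defs

set_option autoImplicit false

namespace Pool.Agent.H205R3

open SimpleGraph

/-- vertices of the subdivided `K_{2,4}`: two hubs and four paths with `M + 1` inner vertices -/
abbrev W (M : ℕ) : Type := Fin 2 ⊕ (Fin 4 × Fin (M + 1))

/-- adjacency -/
def wAdj (M : ℕ) : W M → W M → Prop
  | Sum.inl _, Sum.inl _ => False
  | Sum.inl a, Sum.inr x => (a = 0 ∧ x.2.val = 0) ∨ (a = 1 ∧ x.2.val = M)
  | Sum.inr x, Sum.inl a => (a = 0 ∧ x.2.val = 0) ∨ (a = 1 ∧ x.2.val = M)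
  | Sum.inr x, Sum.inr y => x.1 = y.1 ∧ (x.2.val + 1 = y.2.val ∨ y.2.val + 1 = x.2.val)

/-- the subdivided `K_{2,4}` -/
def HG (M : ℕ) : SimpleGraph (W M) where
  Adj := wAdj M
  symm := ⟨by
    rintro (a | x) (b | y) h
    · exact h
    · exact h
    · exact h
    · exact ⟨h.1.symm, h.2.symm⟩⟩
  loopless := ⟨by
    rintro (a | x) h
    · exact h
    · rcases h.2 with h | h <;> omega⟩

theorem HG_adj (M : ℕ) (x y : W M) : (HG M).Adj x y ↔ wAdj M x y := Iff.rfl

/-- the path from the beginning of the `i`-th path to its `j`-th vertex -/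
theorem exists_chain (M : ℕ) (i : Fin 4) (j : ℕ) (hj : j < M + 1) :
    ∃ q : (HG M).Walk (Sum.inr (i, ⟨0, Nat.succ_pos M⟩)) (Sum.inr (i, ⟨j, hj⟩)),
      q.IsPath ∧ (∀ x, x ∈ q.support ↔ ∃ k : Fin (M + 1), x = Sum.inr (i, k) ∧ k.val ≤ j) ∧
      (∀ k k' : Fin (M + 1), k.val + 1 = k'.val → k'.val ≤ j →
        s(Sum.inr (i, k), Sum.inr (i, k')) ∈ q.edges) := by
  induction j with
  | zero =>
    refine ⟨Walk.nil, Walk.IsPath.nil, ?_, ?_⟩
    · intro x
      rw [Walk.support_nil, List.mem_singleton]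
      constructor
      · rintro rfl
        exact ⟨_, rfl, le_refl _⟩
      · rintro ⟨k, rfl, hk⟩
        have : k = ⟨0, Nat.succ_pos M⟩ := Fin.ext (by simpa using hk)
        rw [this]
    · intro k k' h1 h2
      omega
  | succ j ih =>
    obtain ⟨q, hq, hs, he⟩ := ih (by omega)
    have hadj : (HG M).Adj (Sum.inr (i, ⟨j, by omega⟩)) (Sum.inr (i, ⟨j + 1, hj⟩)) :=
      ⟨rfl, Or.inl rfl⟩
    refine ⟨q.concat hadj, ?_, ?_, ?_⟩
    · refine hq.concat ?_ hadj
      rw [hs]
      rintro ⟨k, hk, hk'⟩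
      have := congrArg (fun x : W M => Sum.elim (fun _ => 0) (fun y => y.2.val) x) hk
      simp at this
      omega
    · intro x
      rw [Walk.support_concat, List.mem_append, List.mem_singleton, hs]
      constructor
      · rintro (⟨k, rfl, hk⟩ | rfl)
        · exact ⟨k, rfl, by omega⟩
        · exact ⟨_, rfl, le_refl _⟩
      · rintro ⟨k, rfl, hk⟩
        rcases Nat.lt_or_ge j k.val with h | h
        · right
          have : k = ⟨j + 1, hj⟩ := Fin.ext (by simp; omega)
          rw [this]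
        · left
          exact ⟨k, rfl, h⟩
    · intro k k' h1 h2
      rw [Walk.edges_concat, List.concat_eq_append, List.mem_append, List.mem_singleton]
      rcases Nat.lt_or_ge j k'.val with h | h
      · right
        have h3 : k' = ⟨j + 1, hj⟩ := Fin.ext (by simp; omega)
        have h4 : k = ⟨j, by omega⟩ := Fin.ext (by simp; omega)
        rw [h3, h4]
      · left
        exact he k k' h1 h

/-- the embedding of the vertices of `K_{2,4}` -/
def phi (M : ℕ) : Fin 2 ⊕ Fin 4 → W M
  | Sum.inl a => Sum.inl a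
  | Sum.inr i => Sum.inr (i, ⟨0, Nat.succ_pos M⟩)

/-- the paths -/
theorem exists_q (M : ℕ) (a : Fin 2) (i : Fin 4) :
    ∃ q : (HG M).Walk (Sum.inl a : W M) (Sum.inr (i, ⟨0, Nat.succ_pos M⟩)),
      q.IsPath ∧
      (∀ x, x ∈ q.support → x = Sum.inl a ∨ ∃ k : Fin (M + 1), x = Sum.inr (i, k) ∧
        (a = 0 → k.val = 0)) ∧
      (a = 1 → ∀ k : Fin (M + 1), Sum.inr (i, k) ∈ q.support) ∧
      (a = 0 → s(Sum.inl a, Sum.inr (i, ⟨0, Nat.succ_pos M⟩)) ∈ q.edges) ∧
      (a = 1 → s(Sum.inl a, Sum.inr (i, ⟨M, Nat.lt_succ_self M⟩)) ∈ q.edges) ∧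
      (a = 1 → ∀ k k' : Fin (M + 1), k.val + 1 = k'.val →
        s(Sum.inr (i, k), Sum.inr (i, k')) ∈ q.edges) := by
  rcases (by omega : a = 0 ∨ a = 1) with rfl | rfl
  · have hadj : (HG M).Adj (Sum.inl 0) (Sum.inr (i, ⟨0, Nat.succ_pos M⟩)) := Or.inl ⟨rfl, rfl⟩
    refine ⟨Walk.cons hadj Walk.nil, ?_, ?_, ?_, ?_, ?_, ?_⟩
    · rw [Walk.cons_isPath_iff]
      refine ⟨Walk.IsPath.nil, ?_⟩
      simp
    · intro x hx
      rw [Walk.support_cons, Walk.support_nil, List.mem_cons, List.mem_singleton] at hx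
      rcases hx with rfl | rfl
      · exact Or.inl rfl
      · exact Or.inr ⟨_, rfl, fun _ => rfl⟩
    · intro h; exact absurd h (by decide)
    · intro _
      rw [Walk.edges_cons]
      exact List.mem_cons_self
    · intro h; exact absurd h (by decide)
    · intro h; exact absurd h (by decide)
  · obtain ⟨q, hq, hs, he⟩ := exists_chain M i M (Nat.lt_succ_self M)
    have hadj : (HG M).Adj (Sum.inr (i, ⟨M, Nat.lt_succ_self M⟩)) (Sum.inl 1) :=
      Or.inr ⟨rfl, rfl⟩
    refine ⟨(q.concat hadj).reverse, ?_, ?_, ?_, ?_, ?_, ?_⟩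
    · rw [Walk.isPath_reverse_iff]
      refine hq.concat ?_ hadj
      rw [hs]
      rintro ⟨k, hk, -⟩
      exact absurd hk (by simp)
    · intro x hx
      rw [Walk.support_reverse, List.mem_reverse, Walk.support_concat, List.mem_append,
        List.mem_singleton, hs] at hx
      rcases hx with ⟨k, rfl, -⟩ | rfl
      · exact Or.inr ⟨k, rfl, fun h => absurd h (by decide)⟩
      · exact Or.inl rfl
    · intro _ k
      rw [Walk.support_reverse, List.mem_reverse, Walk.support_concat, List.mem_append]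
      left
      rw [hs]
      exact ⟨k, rfl, by omega⟩
    · intro h; exact absurd h (by decide)
    · intro _
      rw [Walk.edges_reverse, List.mem_reverse, Walk.edges_concat,
        List.concat_eq_append, List.mem_append, List.mem_singleton]
      right
      exact Sym2.eq_swap
    · intro _ k k' h
      rw [Walk.edges_reverse, List.mem_reverse, Walk.edges_concat, List.concat_eq_append,
        List.mem_append]
      left
      exact he k k' h (by omega)

/-- `K_{2,4}` -/
abbrev K24 : SimpleGraph (Fin 2 ⊕ Fin 4) := completeBipartiteGraph (Fin 2) (Fin 4)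

theorem isSubdivision_HG (M : ℕ) : IsSubdivision K24 (HG M) := by
  choose q hq1 hq2 hq3 hq4 hq5 hq6 using exists_q M
  let p : ∀ u v : Fin 2 ⊕ Fin 4, K24.Adj u v → (HG M).Walk (phi M u) (phi M v) :=
    fun u v h => match u, v, h with
      | Sum.inl a, Sum.inr i, _ => q a i
      | Sum.inr i, Sum.inl a, _ => (q a i).reverse
      | Sum.inl _, Sum.inl _, h => absurd h (by simp)
      | Sum.inr _, Sum.inr _, h => absurd h (by simp)
  have hinj : Function.Injective (phi M) := by
    rintro (a | i) (b | j) h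
    · simpa [phi] using h
    · simp [phi] at h
    · simp [phi] at h
    · simpa [phi] using h
  -- support of p
  have hsup : ∀ (u v : Fin 2 ⊕ Fin 4) (h : K24.Adj u v) (x : W M), x ∈ (p u v h).support →
      ∃ (a : Fin 2) (i : Fin 4), s(u, v) = s(Sum.inl a, Sum.inr i) ∧
        (x = Sum.inl a ∨ ∃ k : Fin (M + 1), x = Sum.inr (i, k) ∧ (a = 0 → k.val = 0)) := by
    rintro (a | i) (b | j) h x hx
    · exact absurd h (by simp)
    · exact ⟨a, j, rfl, hq2 a j x hx⟩
    · refine ⟨b, i, Sym2.eq_swap, hq2 b i x ?_⟩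
      have : x ∈ ((q b i).reverse).support := hx
      rwa [Walk.support_reverse, List.mem_reverse] at this
    · exact absurd h (by simp)
  refine ⟨phi M, p, hinj, ?_, ?_, ?_, ?_, ?_, ?_⟩
  · rintro (a | i) (b | j) h
    · exact absurd h (by simp)
    · exact hq1 a j
    · exact (hq1 b i).reverse
    · exact absurd h (by simp)
  · rintro (a | i) (b | j) h
    · exact absurd h (by simp)
    · rfl
    · exact (Walk.reverse_reverse _).symm
    · exact absurd h (by simp)
  · intro u v h w hw
    obtain ⟨a, i, hai, hx⟩ := hsup u v h _ hw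
    have hw2 : w = Sum.inl a ∨ w = Sum.inr i := by
      rcases w with b | j
      · rcases hx with hx | ⟨k, hk, -⟩
        · left
          have : (Sum.inl b : W M) = Sum.inl a := hx
          rw [Sum.inl.injEq] at this
          rw [this]
        · simp [phi] at hk
      · rcases hx with hx | ⟨k, hk, -⟩
        · simp [phi] at hx
        · right
          have : (Sum.inr (j, ⟨0, Nat.succ_pos M⟩) : W M) = Sum.inr (i, k) := hk
          rw [Sum.inr.injEq, Prod.mk.injEq] at this
          rw [this.1]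
    have : w ∈ s(u, v) := by
      rw [hai, Sym2.mem_iff]
      exact hw2
    rwa [Sym2.mem_iff] at this
  · intro u v h u' v' h' x hx hx' hxr
    obtain ⟨a, i, hai, h1⟩ := hsup u v h _ hx
    obtain ⟨a', i', hai', h1'⟩ := hsup u' v' h' _ hx'
    rw [hai, hai']
    rcases h1 with rfl | ⟨k, rfl, hk⟩
    · exact absurd ⟨Sum.inl a, rfl⟩ hxr
    · rcases h1' with h1' | ⟨k', hkk, hk'⟩
      · exact absurd h1' (by simp)
      · rw [Sum.inr.injEq, Prod.mk.injEq] at hkk
        obtain ⟨rfl, rfl⟩ := hkk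
        have hk0 : k.val ≠ 0 := by
          intro h0
          apply hxr
          refine ⟨Sum.inr i, ?_⟩
          change (Sum.inr (i, (⟨0, Nat.succ_pos M⟩ : Fin (M + 1))) : W M) = Sum.inr (i, k)
          congr 2
          exact Fin.ext h0.symm
        have ha : a = 1 := by
          rcases (by omega : a = 0 ∨ a = 1) with rfl | rfl
          · exact absurd (hk rfl) hk0
          · rfl
        have ha' : a' = 1 := by
          rcases (by omega : a' = 0 ∨ a' = 1) with rfl | rfl
          · exact absurd (hk' rfl) hk0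
          · rfl
        rw [ha, ha']
  · rintro (a | ⟨i, k⟩) hx
    · exact absurd ⟨Sum.inl a, rfl⟩ hx
    · exact ⟨Sum.inl 1, Sum.inr i, by simp, hq3 1 i rfl k⟩
  · intro e he
    induction e using Sym2.ind with
    | _ x y =>
      rw [mem_edgeSet] at he
      rcases x with a | ⟨i, k⟩ <;> rcases y with b | ⟨j, l⟩
      · exact absurd he (fun h => h)
      · rcases he with ⟨rfl, h⟩ | ⟨rfl, h⟩
        · refine ⟨Sum.inl 0, Sum.inr j, by simp, ?_⟩
          have h0 : l = ⟨0, Nat.succ_pos M⟩ := Fin.ext h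
          rw [h0]
          exact hq4 0 j rfl
        · refine ⟨Sum.inl 1, Sum.inr j, by simp, ?_⟩
          have h0 : l = ⟨M, Nat.lt_succ_self M⟩ := Fin.ext h
          rw [h0]
          exact hq5 1 j rfl
      · rcases he with ⟨rfl, h⟩ | ⟨rfl, h⟩
        · refine ⟨Sum.inl 0, Sum.inr i, by simp, ?_⟩
          have h0 : k = ⟨0, Nat.succ_pos M⟩ := Fin.ext h
          rw [h0, Sym2.eq_swap]
          exact hq4 0 i rfl
        · refine ⟨Sum.inl 1, Sum.inr i, by simp, ?_⟩
          have h0 : k = ⟨M, Nat.lt_succ_self M⟩ := Fin.ext h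
          rw [h0, Sym2.eq_swap]
          exact hq5 1 i rfl
      · obtain ⟨h1, h2⟩ := he
        have h1 : i = j := h1
        subst h1
        refine ⟨Sum.inl 1, Sum.inr i, by simp, ?_⟩
        rcases h2 with h2 | h2
        · exact hq6 1 i rfl k l h2
        · rw [Sym2.eq_swap]
          exact hq6 1 i rfl l k h2

/-- the vertices of a set of the first kind: the hub `0` and initial segments of the four paths -/
def pre (M : ℕ) (p : Fin 4 → ℕ) : Set (W M) :=
  {x | x = Sum.inl 0 ∨ ∃ (i : Fin 4) (k : Fin (M + 1)), x = Sum.inr (i, k) ∧ k.val < p i}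

/-- the vertices of a set of the second kind: the hub `1` and final segments of the four paths -/
def suf (M : ℕ) (q : Fin 4 → ℕ) : Set (W M) :=
  {x | x = Sum.inl 1 ∨ ∃ (i : Fin 4) (k : Fin (M + 1)), x = Sum.inr (i, k) ∧ q i ≤ k.val}

theorem pre_conn (M : ℕ) (p : Fin 4 → ℕ) : ((HG M).induce (pre M p)).Connected := by
  have h0 : (Sum.inl 0 : W M) ∈ pre M p := Or.inl rfl
  have key : ∀ (i : Fin 4) (j : ℕ) (hj : j < M + 1) (hp : j < p i),
      ((HG M).induce (pre M p)).Reachable ⟨Sum.inl 0, h0⟩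
        ⟨Sum.inr (i, ⟨j, hj⟩), Or.inr ⟨i, _, rfl, hp⟩⟩ := by
    intro i j
    induction j with
    | zero =>
      intro hj hp
      apply Adj.reachable
      rw [comap_adj]
      exact Or.inl ⟨rfl, rfl⟩
    | succ j ih =>
      intro hj hp
      refine (ih (by omega) (by omega)).trans ?_
      apply Adj.reachable
      rw [comap_adj]
      exact ⟨rfl, Or.inl rfl⟩
  have key2 : ∀ x : pre M p, ((HG M).induce (pre M p)).Reachable ⟨Sum.inl 0, h0⟩ x := by
    rintro ⟨x, rfl | ⟨i, k, rfl, hk⟩⟩
    · exact Reachable.refl _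
    · exact key i k.val k.isLt hk
  have : Nonempty (pre M p) := ⟨⟨Sum.inl 0, h0⟩⟩
  exact ⟨fun x y => (key2 x).symm.trans (key2 y)⟩

theorem suf_conn (M : ℕ) (q : Fin 4 → ℕ) : ((HG M).induce (suf M q)).Connected := by
  have h0 : (Sum.inl 1 : W M) ∈ suf M q := Or.inl rfl
  have key : ∀ (i : Fin 4) (j : ℕ) (hj : j < M + 1) (hp : q i ≤ M - j),
      ((HG M).induce (suf M q)).Reachable ⟨Sum.inl 1, h0⟩
        ⟨Sum.inr (i, ⟨M - j, by omega⟩), Or.inr ⟨i, _, rfl, hp⟩⟩ := by
    intro i j
    induction j with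
    | zero =>
      intro hj hp
      apply Adj.reachable
      rw [comap_adj]
      exact Or.inr ⟨rfl, rfl⟩
    | succ j ih =>
      intro hj hp
      refine (ih (by omega) (by omega)).trans ?_
      apply Adj.reachable
      rw [comap_adj]
      refine ⟨rfl, Or.inr ?_⟩
      change M - (j + 1) + 1 = M - j
      omega
  have key2 : ∀ x : suf M q, ((HG M).induce (suf M q)).Reachable ⟨Sum.inl 1, h0⟩ x := by
    rintro ⟨x, rfl | ⟨i, k, rfl, hk⟩⟩
    · exact Reachable.refl _
    · have h1 := key i (M - k.val) (by omega) (by omega)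
      have h2 : (⟨M - (M - k.val), by omega⟩ : Fin (M + 1)) = k := Fin.ext (by simp; omega)
      simpa only [h2] using h1
  have : Nonempty (suf M q) := ⟨⟨Sum.inl 1, h0⟩⟩
  exact ⟨fun x y => (key2 x).symm.trans (key2 y)⟩

/-- A graph whose vertices are split in two cliques `A`, `B`, where `a ∈ A` and `b ∈ B` are not
adjacent if and only if `p a i ≤ q b i` for all `i < 4`, is in the class of `K_{2,4}`. -/
theorem inClass_of_coords {A B : Type} [Finite A] [Finite B] (X : SimpleGraph (A ⊕ B)) (M : ℕ)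
    (p : A → Fin 4 → ℕ) (q : B → Fin 4 → ℕ) (hp : ∀ a i, p a i ≤ M + 1)
    (hA : ∀ a a', a ≠ a' → X.Adj (Sum.inl a) (Sum.inl a'))
    (hB : ∀ b b', b ≠ b' → X.Adj (Sum.inr b) (Sum.inr b'))
    (hAB : ∀ a b, X.Adj (Sum.inl a) (Sum.inr b) ↔ ¬ ∀ i, p a i ≤ q b i) :
    InClass K24 X := by
  have hint : ∀ a b, (pre M (p a) ∩ suf M (q b)).Nonempty ↔ ¬ ∀ i, p a i ≤ q b i := by
    intro a b
    constructor
    · rintro ⟨x, hx, hx'⟩ hall
      rcases hx with rfl | ⟨i, k, rfl, hk⟩
      · rcases hx' with hx' | ⟨i, k, hx', -⟩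
        · exact absurd hx' (by simp)
        · exact absurd hx' (by simp)
      · rcases hx' with hx' | ⟨i', k', hx', hk'⟩
        · exact absurd hx' (by simp)
        · rw [Sum.inr.injEq, Prod.mk.injEq] at hx'
          obtain ⟨rfl, rfl⟩ := hx'
          have := hall i
          omega
    · intro h
      push Not at h
      obtain ⟨i, hi⟩ := h
      have h1 := hp a i
      refine ⟨Sum.inr (i, ⟨q b i, by omega⟩), Or.inr ⟨i, _, rfl, hi⟩, Or.inr ⟨i, _, rfl, le_refl _⟩⟩
  refine ⟨inferInstance, W M, HG M, fun u => match u with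
    | Sum.inl a => (⊤ : (HG M).Subgraph).induce (pre M (p a))
    | Sum.inr b => (⊤ : (HG M).Subgraph).induce (suf M (q b)), inferInstance,
    isSubdivision_HG M, ?_, ?_⟩
  · rintro (a | b)
    · exact connected_induce_iff.1 (pre_conn M (p a))
    · exact connected_induce_iff.1 (suf_conn M (q b))
  · rintro (a | b) (a' | b') hne
    · have h1 : X.Adj (Sum.inl a) (Sum.inl a') := hA a a' (fun h => hne (by rw [h]))
      have h2 : (pre M (p a) ∩ pre M (p a')).Nonempty := ⟨Sum.inl 0, Or.inl rfl, Or.inl rfl⟩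
      exact iff_of_true h1 h2
    · exact (hAB a b').trans (hint a b').symm
    · rw [X.adj_comm]
      refine (hAB a' b).trans ((hint a' b).symm.trans ?_)
      rw [Set.inter_comm]
      exact Iff.rfl
    · have h1 : X.Adj (Sum.inr b) (Sum.inr b') := hB b b' (fun h => hne (by rw [h]))
      have h2 : (suf M (q b) ∩ suf M (q b')).Nonempty := ⟨Sum.inl 1, Or.inl rfl, Or.inl rfl⟩
      exact iff_of_true h1 h2

end Pool.Agent.H205R3
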